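import Pool.Agent.Lib.MP_ddd95a_nt.Mord.And

/-!
# The second moment of a restricted Gaussian
-/

open Matrix MeasureTheory Filter Set
open scoped ENNReal Topology

noncomputable section

namespace Pool.Agent.Lib.MP_ddd95a_nt.Mord

variable {n : ℕ}

namespace SecAux

theorem integrable_exp (c : Fin n → ℝ) :
    Integrable (fun v : Fin n → ℝ => Real.exp (-(v ⬝ᵥ v) / 2 + c ⬝ᵥ v)) := by
  have h1 := (GaussianFourier.integrable_cexp_neg_sum_mul_add (ι := Fin n)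
    (b := fun _ => (1 / 2 : ℂ)) (by intro i; norm_num) (fun i => (c i : ℂ))).norm
  refine h1.congr (Filter.Eventually.of_forall fun v => ?_)
  change ‖Complex.exp (-∑ i, (1 / 2 : ℂ) * (v i : ℂ) ^ 2 + ∑ i, (c i : ℂ) * v i)‖ =
    Real.exp (-(v ⬝ᵥ v) / 2 + c ⬝ᵥ v)
  rw [Complex.norm_exp]
  congr 1
  have h2 : (-∑ i, (1 / 2 : ℂ) * (v i : ℂ) ^ 2 + ∑ i, (c i : ℂ) * v i) =
      ((-(v ⬝ᵥ v) / 2 + c ⬝ᵥ v : ℝ) : ℂ) := by
    unfold dotProduct
    push_cast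
    rw [← Finset.mul_sum, neg_div, Finset.sum_div]
    congr 1
    rw [Finset.mul_sum]
    congr 1
    refine Finset.sum_congr rfl fun i _ => ?_
    ring
  rw [h2, Complex.ofReal_re]

theorem cosh_ge (y : ℝ) : 2 + y ^ 2 ≤ Real.exp (-y) + Real.exp y := by
  have h1 : Real.exp (-y) + Real.exp y = 2 * Real.cosh y := by
    rw [Real.cosh_eq]; ring
  have h2 : Real.cosh y = 1 + 2 * Real.sinh (y / 2) ^ 2 := by
    have h3 := Real.cosh_two_mul (y / 2)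
    have h4 := Real.cosh_sq (y / 2)
    rw [show 2 * (y / 2) = y by ring] at h3
    rw [h3, h4]
    ring
  have h3 : (y / 2) ^ 2 ≤ Real.sinh (y / 2) ^ 2 := by
    rcases le_total 0 (y / 2) with h | h
    · have := Real.self_le_sinh_iff.2 h
      exact pow_le_pow_left₀ h this 2
    · have := Real.sinh_le_self_iff.2 h
      nlinarith
  rw [h1, h2]
  nlinarith

theorem expand (s : ℝ) (w v : Fin n → ℝ) :
    Real.exp (-((v + s • w) ⬝ᵥ (v + s • w)) / 2) =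
      Real.exp (-(s ^ 2 * (w ⬝ᵥ w)) / 2) * Real.exp (-(v ⬝ᵥ v) / 2 + ((-s) • w) ⬝ᵥ v) := by
  rw [← Real.exp_add]
  congr 1
  rw [add_dotProduct, dotProduct_add, dotProduct_add, smul_dotProduct, smul_dotProduct,
    dotProduct_smul, dotProduct_smul, smul_dotProduct, dotProduct_comm v w]
  simp only [smul_eq_mul]
  ring

theorem anderson_real {C : Set (Fin n → ℝ)} (hm : MeasurableSet C) (hc : Convex ℝ C)
    (hs : ∀ x ∈ C, -x ∈ C) (w : Fin n → ℝ) (s : ℝ) :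
    Real.exp (-(s ^ 2 * (w ⬝ᵥ w)) / 2) *
      ∫ v in C, Real.exp (-(v ⬝ᵥ v) / 2 + ((-s) • w) ⬝ᵥ v) ≤
      ∫ v in C, Real.exp (-(v ⬝ᵥ v) / 2) := by
  have h1 := anderson hm hc hs (s • w)
  have h2 : Integrable (fun v : Fin n → ℝ => Real.exp (-(v ⬝ᵥ v) / 2)) := by
    refine (integrable_exp (0 : Fin n → ℝ)).congr (Filter.Eventually.of_forall fun v => ?_)
    change Real.exp (-(v ⬝ᵥ v) / 2 + (0 : Fin n → ℝ) ⬝ᵥ v) = _
    rw [zero_dotProduct, add_zero]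
  have h3 : Integrable (fun v : Fin n → ℝ => Real.exp (-((v + s • w) ⬝ᵥ (v + s • w)) / 2)) := by
    refine ((integrable_exp ((-s) • w)).const_mul
      (Real.exp (-(s ^ 2 * (w ⬝ᵥ w)) / 2))).congr (Filter.Eventually.of_forall fun v => ?_)
    exact (expand s w v).symm
  rw [← ofReal_integral_eq_lintegral_ofReal h3.integrableOn
      (Filter.Eventually.of_forall fun v => (Real.exp_pos _).le),
    ← ofReal_integral_eq_lintegral_ofReal h2.integrableOn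
      (Filter.Eventually.of_forall fun v => (Real.exp_pos _).le),
    ENNReal.ofReal_le_ofReal_iff (integral_nonneg fun v => (Real.exp_pos _).le)] at h1
  have h4 : ∫ v in C, Real.exp (-((v + s • w) ⬝ᵥ (v + s • w)) / 2) =
      Real.exp (-(s ^ 2 * (w ⬝ᵥ w)) / 2) *
        ∫ v in C, Real.exp (-(v ⬝ᵥ v) / 2 + ((-s) • w) ⬝ᵥ v) := by
    rw [← integral_const_mul]
    refine integral_congr_ae (Filter.Eventually.of_forall fun v => ?_)
    exact expand s w v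
  rw [h4] at h1
  exact h1

end SecAux

/-- Proof: `anderson` for `a = s w`: symmetrising `v ↦ -v`,
`∫_C exp (-|v|²/2) cosh (s ⟨v, w⟩) exp (- s² |w|² / 2) ≤ ∫_C exp (-|v|²/2)`, and `cosh y ≥ 1 + y²/2`; so
`I + (s²/2) I₂ ≤ exp (s² |w|² / 2) I`; divide by `s²` and let `s → 0`. -/
theorem second_moment {C : Set (Fin n → ℝ)} (hm : MeasurableSet C) (hc : Convex ℝ C)
    (hs : ∀ x ∈ C, -x ∈ C) (w : Fin n → ℝ) :
    ∫ v in C, (w ⬝ᵥ v) ^ 2 * Real.exp (-(v ⬝ᵥ v) / 2) ≤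
      (w ⬝ᵥ w) * ∫ v in C, Real.exp (-(v ⬝ᵥ v) / 2) := by
  have hW : 0 ≤ w ⬝ᵥ w := by
    unfold dotProduct
    exact Finset.sum_nonneg fun i _ => mul_self_nonneg _
  have hI0 : 0 ≤ ∫ v in C, Real.exp (-(v ⬝ᵥ v) / 2) :=
    integral_nonneg fun v => (Real.exp_pos _).le
  have hG : Integrable (fun v : Fin n → ℝ => Real.exp (-(v ⬝ᵥ v) / 2)) := by
    refine (SecAux.integrable_exp (0 : Fin n → ℝ)).congr (Filter.Eventually.of_forall fun v => ?_)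
    change Real.exp (-(v ⬝ᵥ v) / 2 + (0 : Fin n → ℝ) ⬝ᵥ v) = _
    rw [zero_dotProduct, add_zero]
  by_cases hint : IntegrableOn (fun v : Fin n → ℝ => (w ⬝ᵥ v) ^ 2 * Real.exp (-(v ⬝ᵥ v) / 2)) C
  swap
  · rw [integral_undef hint]
    positivity
  set I := ∫ v in C, Real.exp (-(v ⬝ᵥ v) / 2) with hI
  set I₂ := ∫ v in C, (w ⬝ᵥ v) ^ 2 * Real.exp (-(v ⬝ᵥ v) / 2) with hI₂
  have hI₂0 : 0 ≤ I₂ := integral_nonneg fun v => by positivity
  have key : ∀ s : ℝ, Real.exp (-(s ^ 2 * (w ⬝ᵥ w)) / 2) * (2 * I + s ^ 2 * I₂) ≤ 2 * I := by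
    intro s
    have h1 := SecAux.anderson_real hm hc hs w s
    have h2 := SecAux.anderson_real hm hc hs w (-s)
    rw [neg_sq, neg_neg] at h2
    have hi1 := (SecAux.integrable_exp ((-s) • w)).integrableOn (s := C)
    have hi2 := (SecAux.integrable_exp (s • w)).integrableOn (s := C)
    have h3 : 2 * I + s ^ 2 * I₂ ≤ (∫ v in C, Real.exp (-(v ⬝ᵥ v) / 2 + ((-s) • w) ⬝ᵥ v)) +
        ∫ v in C, Real.exp (-(v ⬝ᵥ v) / 2 + (s • w) ⬝ᵥ v) := by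
      have e1 : 2 * I + s ^ 2 * I₂ = ∫ v in C, (2 * Real.exp (-(v ⬝ᵥ v) / 2) +
          s ^ 2 * ((w ⬝ᵥ v) ^ 2 * Real.exp (-(v ⬝ᵥ v) / 2))) := by
        rw [integral_add (hG.integrableOn.const_mul 2) (hint.const_mul (s ^ 2)),
          integral_const_mul, integral_const_mul]
      rw [e1, ← integral_add hi1 hi2]
      refine integral_mono ((hG.integrableOn.const_mul 2).add (hint.const_mul (s ^ 2)))
        (hi1.add hi2) fun v => ?_
      change 2 * Real.exp (-(v ⬝ᵥ v) / 2) + s ^ 2 * ((w ⬝ᵥ v) ^ 2 * Real.exp (-(v ⬝ᵥ v) / 2)) ≤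
        Real.exp (-(v ⬝ᵥ v) / 2 + ((-s) • w) ⬝ᵥ v) + Real.exp (-(v ⬝ᵥ v) / 2 + (s • w) ⬝ᵥ v)
      rw [smul_dotProduct, smul_dotProduct, smul_eq_mul, smul_eq_mul, Real.exp_add, Real.exp_add,
        neg_mul]
      have h5 := SecAux.cosh_ge (s * (w ⬝ᵥ v))
      have h6 := mul_le_mul_of_nonneg_left h5 (Real.exp_pos (-(v ⬝ᵥ v) / 2)).le
      nlinarith
    have h4 := mul_le_mul_of_nonneg_left h3 (Real.exp_pos (-(s ^ 2 * (w ⬝ᵥ w)) / 2)).le
    linarith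
  have key2 : ∀ τ : ℝ, 0 < τ → I₂ ≤ (w ⬝ᵥ w) * I + τ * ((w ⬝ᵥ w) * I₂) := by
    intro τ hτ
    have h1 := key (Real.sqrt (2 * τ))
    rw [Real.sq_sqrt (by positivity)] at h1
    have h2 : 1 - τ * (w ⬝ᵥ w) ≤ Real.exp (-(2 * τ * (w ⬝ᵥ w)) / 2) := by
      have := Real.add_one_le_exp (-(2 * τ * (w ⬝ᵥ w)) / 2)
      linarith
    have h3 : 0 ≤ 2 * I + 2 * τ * I₂ := by positivity
    have h4 := mul_le_mul_of_nonneg_right h2 h3
    have h5 : τ * I₂ ≤ τ * ((w ⬝ᵥ w) * I + τ * ((w ⬝ᵥ w) * I₂)) := by nlinarith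
    exact le_of_mul_le_mul_left h5 hτ
  refine le_of_forall_pos_le_add fun ε hε => ?_
  have hd : 0 < (w ⬝ᵥ w) * I₂ + 1 := by positivity
  have h1 := key2 (ε / ((w ⬝ᵥ w) * I₂ + 1)) (by positivity)
  have h2 : ε / ((w ⬝ᵥ w) * I₂ + 1) * ((w ⬝ᵥ w) * I₂) ≤ ε := by
    rw [div_mul_eq_mul_div, div_le_iff₀ hd]
    nlinarith [mul_nonneg hW hI₂0]
  linarith

end Pool.Agent.Lib.MP_ddd95a_nt.Mord
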