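import Pool.Agent.Lib.MP_ddd95a_nt.Mord.Rot
import Pool.Agent.Lib.MP_ddd95a_nt.Mord.Sec

/-!
# The variance inequality
-/

open Matrix MeasureTheory Filter Set
open scoped ENNReal Topology

noncomputable section

namespace Pool.Agent.Lib.MP_ddd95a_nt.Mord

variable {n : ℕ}

namespace VarAux

/-- The Gaussian weight. -/
def w (x : Fin n → ℝ) : ℝ := Real.exp (-(x ⬝ᵥ x) / 2)

/-- The quadratic form with the coefficients `θ`. -/
def q (θ : Fin n → ℝ) (x : Fin n → ℝ) : ℝ := ∑ i, θ i * x i ^ 2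

lemma dot_nonneg (x : Fin n → ℝ) : 0 ≤ x ⬝ᵥ x := by
  simp only [dotProduct]
  exact Finset.sum_nonneg fun i _ => mul_self_nonneg _

lemma w_pos (x : Fin n → ℝ) : 0 < w x := Real.exp_pos _

lemma w_continuous : Continuous (w : (Fin n → ℝ) → ℝ) := by
  unfold w
  simp only [dotProduct]
  fun_prop

lemma q_continuous (θ : Fin n → ℝ) : Continuous (q θ) := by
  unfold q
  fun_prop

lemma integrable_quarter :
    Integrable (fun x : Fin n → ℝ => Real.exp (-(x ⬝ᵥ x) / 4)) := by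
  have h : (fun x : Fin n → ℝ => Real.exp (-(x ⬝ᵥ x) / 4)) =
      fun x => ∏ i, Real.exp (-(1 / 4) * x i ^ 2) := by
    funext x
    rw [← Real.exp_sum]
    congr 1
    simp only [dotProduct]
    rw [← Finset.mul_sum]
    have : ∑ i, x i ^ 2 = ∑ i, x i * x i := Finset.sum_congr rfl fun i _ => sq _
    rw [this]
    ring
  rw [h]
  exact Integrable.fintype_prod (f := fun _ (t : ℝ) => Real.exp (-(1 / 4) * t ^ 2))
    (fun i => integrable_exp_neg_mul_sq (by norm_num))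

lemma poly_exp (t : ℝ) (ht : 0 ≤ t) :
    (1 + t) ^ 2 * Real.exp (-t / 2) ≤ 32 * Real.exp (1 / 4) * Real.exp (-t / 4) := by
  have h1 := Real.quadratic_le_exp_of_nonneg (x := (1 + t) / 4) (by positivity)
  have h2 : (1 + t) ^ 2 ≤ 32 * Real.exp ((1 + t) / 4) := by nlinarith
  have h3 : 32 * Real.exp (1 / 4) * Real.exp (-t / 4) =
      32 * Real.exp ((1 + t) / 4) * Real.exp (-t / 2) := by
    rw [mul_assoc, mul_assoc, ← Real.exp_add, ← Real.exp_add]
    congr 2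
    ring
  rw [h3]
  exact mul_le_mul_of_nonneg_right h2 (Real.exp_pos _).le

lemma integrable_mul_w {f : (Fin n → ℝ) → ℝ} (hf : Continuous f) {c : ℝ}
    (hc : ∀ x, |f x| ≤ c * (1 + x ⬝ᵥ x) ^ 2) : Integrable (fun x => f x * w x) := by
  have hc0 : 0 ≤ c := by
    have := hc 0
    simp only [dotProduct_zero, add_zero, one_pow, mul_one] at this
    exact (abs_nonneg _).trans this
  refine (integrable_quarter.const_mul (c * (32 * Real.exp (1 / 4)))).mono'
    (hf.mul w_continuous).aestronglyMeasurable (Eventually.of_forall fun x => ?_)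
  rw [Real.norm_eq_abs, abs_mul, abs_of_pos (w_pos x)]
  calc |f x| * w x ≤ c * (1 + x ⬝ᵥ x) ^ 2 * w x :=
        mul_le_mul_of_nonneg_right (hc x) (w_pos x).le
    _ = c * ((1 + x ⬝ᵥ x) ^ 2 * Real.exp (-(x ⬝ᵥ x) / 2)) := by
        unfold w
        ring
    _ ≤ c * (32 * Real.exp (1 / 4) * Real.exp (-(x ⬝ᵥ x) / 4)) :=
        mul_le_mul_of_nonneg_left (poly_exp _ (dot_nonneg x)) hc0
    _ = c * (32 * Real.exp (1 / 4)) * Real.exp (-(x ⬝ᵥ x) / 4) := by ring

lemma coord_sq_le (x : Fin n → ℝ) (i : Fin n) : x i ^ 2 ≤ x ⬝ᵥ x := by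
  simp only [dotProduct]
  rw [sq]
  exact Finset.single_le_sum (f := fun i => x i * x i) (fun i _ => mul_self_nonneg _)
    (Finset.mem_univ i)

lemma q_bound (θ x : Fin n → ℝ) : |q θ x| ≤ (∑ i, |θ i|) * (x ⬝ᵥ x) := by
  unfold q
  refine (Finset.abs_sum_le_sum_abs _ _).trans ?_
  rw [Finset.sum_mul]
  apply Finset.sum_le_sum
  intro i _
  rw [abs_mul, abs_of_nonneg (sq_nonneg (x i))]
  exact mul_le_mul_of_nonneg_left (coord_sq_le x i) (abs_nonneg _)

/-- The function `f` with the weight on the set `C`. -/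
def G (C : Set (Fin n → ℝ)) (f : (Fin n → ℝ) → ℝ) : (Fin n → ℝ) → ℝ :=
  C.indicator fun x => f x * w x

lemma integral_G {C : Set (Fin n → ℝ)} (hm : MeasurableSet C) (f : (Fin n → ℝ) → ℝ) :
    ∫ x, G C f x = ∫ x in C, f x * w x := integral_indicator hm

lemma integrable_G {C : Set (Fin n → ℝ)} (hm : MeasurableSet C) {f : (Fin n → ℝ) → ℝ}
    (hf : Continuous f) {c : ℝ} (hc : ∀ x, |f x| ≤ c * (1 + x ⬝ᵥ x) ^ 2) :
    Integrable (G C f) := (integrable_mul_w hf hc).indicator hm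

lemma G_apply (C : Set (Fin n → ℝ)) (f : (Fin n → ℝ) → ℝ) (x : Fin n → ℝ) :
    G C f x = C.indicator (fun _ => (1 : ℝ)) x * (f x * w x) := by
  unfold G
  by_cases hx : x ∈ C
  · rw [indicator_of_mem hx, indicator_of_mem hx, one_mul]
  · rw [indicator_of_notMem hx, indicator_of_notMem hx, zero_mul]

lemma bnd_one (x : Fin n → ℝ) : |(1 : ℝ)| ≤ 1 * (1 + x ⬝ᵥ x) ^ 2 := by
  have := dot_nonneg x
  rw [abs_one]
  nlinarith

lemma bnd_q (θ x : Fin n → ℝ) : |q θ x| ≤ (∑ i, |θ i|) * (1 + x ⬝ᵥ x) ^ 2 := by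
  have h0 := dot_nonneg x
  have h1 : 0 ≤ ∑ i, |θ i| := Finset.sum_nonneg fun i _ => abs_nonneg _
  refine (q_bound θ x).trans (mul_le_mul_of_nonneg_left ?_ h1)
  nlinarith

lemma bnd_q_sq (θ x : Fin n → ℝ) : |q θ x ^ 2| ≤ (∑ i, |θ i|) ^ 2 * (1 + x ⬝ᵥ x) ^ 2 := by
  have h0 := dot_nonneg x
  have h1 : 0 ≤ ∑ i, |θ i| := Finset.sum_nonneg fun i _ => abs_nonneg _
  rw [abs_pow, ← mul_pow]
  apply pow_le_pow_left₀ (abs_nonneg _)
  refine (q_bound θ x).trans (mul_le_mul_of_nonneg_left ?_ h1)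
  linarith

lemma bnd_coord (a : ℝ) (x : Fin n → ℝ) (i : Fin n) :
    |a * x i| ≤ |a| * (1 + x ⬝ᵥ x) ^ 2 := by
  have h0 := dot_nonneg x
  rw [abs_mul]
  apply mul_le_mul_of_nonneg_left _ (abs_nonneg _)
  have h1 : |x i| ^ 2 ≤ x ⬝ᵥ x := by
    rw [sq_abs]
    exact coord_sq_le x i
  nlinarith [abs_nonneg (x i), sq_nonneg (|x i| - 1)]

/-- The weight on pairs. -/
lemma left_side {C : Set (Fin n → ℝ)} (hm : MeasurableSet C) (θ : Fin n → ℝ) :
    ∫ z : (Fin n → ℝ) × (Fin n → ℝ), C.indicator (fun _ => (1 : ℝ)) z.1 *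
        C.indicator (fun _ => (1 : ℝ)) z.2 * ((q θ z.1 - q θ z.2) ^ 2 * (w z.1 * w z.2)) =
      2 * ((∫ x, G C (fun _ => 1) x) * (∫ x, G C (fun x => q θ x ^ 2) x) -
        (∫ x, G C (q θ) x) ^ 2) := by
  have i1 : Integrable (G C fun _ => 1) := integrable_G hm continuous_const bnd_one
  have i2 : Integrable (G C (q θ)) := integrable_G hm (q_continuous θ) (bnd_q θ)
  have i3 : Integrable (G C fun x => q θ x ^ 2) :=
    integrable_G hm ((q_continuous θ).pow 2) (bnd_q_sq θ)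
  have e : ∀ z : (Fin n → ℝ) × (Fin n → ℝ), C.indicator (fun _ => (1 : ℝ)) z.1 *
        C.indicator (fun _ => (1 : ℝ)) z.2 * ((q θ z.1 - q θ z.2) ^ 2 * (w z.1 * w z.2)) =
      (G C (fun x => q θ x ^ 2) z.1 * G C (fun _ => 1) z.2 +
        G C (fun _ => 1) z.1 * G C (fun x => q θ x ^ 2) z.2) -
        2 * (G C (q θ) z.1 * G C (q θ) z.2) := by
    intro z
    simp only [G_apply]
    ring
  simp only [e]
  have j1 := i3.mul_prod i1
  have j2 := i1.mul_prod i3
  have j3 := i2.mul_prod i2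
  rw [← Measure.volume_eq_prod] at j1 j2 j3
  have j12 : Integrable (fun z : (Fin n → ℝ) × (Fin n → ℝ) =>
      G C (fun x => q θ x ^ 2) z.1 * G C (fun _ => 1) z.2 +
        G C (fun _ => 1) z.1 * G C (fun x => q θ x ^ 2) z.2) := j1.add j2
  rw [integral_sub j12 (j3.const_mul 2), integral_add j1 j2, integral_const_mul,
    Measure.volume_eq_prod, integral_prod_mul, integral_prod_mul, integral_prod_mul]
  ring

lemma right_side {C : Set (Fin n → ℝ)} (hm : MeasurableSet C) (θ : Fin n → ℝ) :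
    ∫ z : (Fin n → ℝ) × (Fin n → ℝ), C.indicator (fun _ => (1 : ℝ)) z.1 *
        C.indicator (fun _ => (1 : ℝ)) z.2 *
          (q (fun i => θ i ^ 2) (z.1 - z.2) * (w z.1 * w z.2)) ≤
      2 * ((∫ x, G C (fun _ => 1) x) * (∫ x, G C (q fun i => θ i ^ 2) x)) := by
  have i1 : Integrable (G C fun _ => 1) := integrable_G hm continuous_const bnd_one
  have i2 : Integrable (G C (q fun i => θ i ^ 2)) := integrable_G hm (q_continuous _) (bnd_q _)
  have i3 : ∀ i : Fin n, Integrable (G C fun x => θ i * x i) := fun i =>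
    integrable_G hm (by fun_prop) (fun x => bnd_coord (θ i) x i)
  have e : ∀ z : (Fin n → ℝ) × (Fin n → ℝ), C.indicator (fun _ => (1 : ℝ)) z.1 *
        C.indicator (fun _ => (1 : ℝ)) z.2 *
          (q (fun i => θ i ^ 2) (z.1 - z.2) * (w z.1 * w z.2)) =
      (G C (q fun i => θ i ^ 2) z.1 * G C (fun _ => 1) z.2 +
        G C (fun _ => 1) z.1 * G C (q fun i => θ i ^ 2) z.2) -
        2 * ∑ i, (G C (fun x => θ i * x i) z.1 * G C (fun x => θ i * x i) z.2) := by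
    intro z
    simp only [G_apply]
    have h1 : q (fun i => θ i ^ 2) (z.1 - z.2) = q (fun i => θ i ^ 2) z.1 +
        q (fun i => θ i ^ 2) z.2 - 2 * ∑ i, (θ i * z.1 i) * (θ i * z.2 i) := by
      unfold q
      rw [Finset.mul_sum, ← Finset.sum_add_distrib, ← Finset.sum_sub_distrib]
      apply Finset.sum_congr rfl
      intro i _
      simp only [Pi.sub_apply]
      ring
    have h2 : ∑ i, C.indicator (fun _ => (1 : ℝ)) z.1 * (θ i * z.1 i * w z.1) *
        (C.indicator (fun _ => (1 : ℝ)) z.2 * (θ i * z.2 i * w z.2)) =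
        (C.indicator (fun _ => (1 : ℝ)) z.1 * C.indicator (fun _ => (1 : ℝ)) z.2 *
          (w z.1 * w z.2)) * ∑ i, (θ i * z.1 i) * (θ i * z.2 i) := by
      rw [Finset.mul_sum]
      apply Finset.sum_congr rfl
      intro i _
      ring
    rw [h1, h2]
    ring
  simp only [e]
  have j1 := i2.mul_prod i1
  have j2 := i1.mul_prod i2
  have j3 : ∀ i : Fin n, Integrable (fun z : (Fin n → ℝ) × (Fin n → ℝ) =>
      G C (fun x => θ i * x i) z.1 * G C (fun x => θ i * x i) z.2) := fun i => by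
    rw [Measure.volume_eq_prod]
    exact (i3 i).mul_prod (i3 i)
  rw [← Measure.volume_eq_prod] at j1 j2
  have j12 : Integrable (fun z : (Fin n → ℝ) × (Fin n → ℝ) =>
      G C (q fun i => θ i ^ 2) z.1 * G C (fun _ => 1) z.2 +
        G C (fun _ => 1) z.1 * G C (q fun i => θ i ^ 2) z.2) := j1.add j2
  have j33 : Integrable (fun z : (Fin n → ℝ) × (Fin n → ℝ) =>
      ∑ i, (G C (fun x => θ i * x i) z.1 * G C (fun x => θ i * x i) z.2)) :=
    integrable_finsetSum _ fun i _ => j3 i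
  rw [integral_sub j12 (j33.const_mul 2), integral_add j1 j2, integral_const_mul,
    integral_finsetSum _ (fun i _ => j3 i), Measure.volume_eq_prod, integral_prod_mul,
    integral_prod_mul]
  have h3 : 0 ≤ ∑ i, ∫ z : (Fin n → ℝ) × (Fin n → ℝ), G C (fun x => θ i * x i) z.1 *
      G C (fun x => θ i * x i) z.2 ∂(volume.prod volume) := by
    apply Finset.sum_nonneg
    intro i _
    rw [integral_prod_mul]
    exact mul_self_nonneg _
  linarith

lemma rot_w (u v : Fin n → ℝ) :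
    w ((Real.sqrt 2)⁻¹ • (u + v)) * w ((Real.sqrt 2)⁻¹ • (v - u)) = w u * w v := by
  unfold w
  rw [← Real.exp_add, ← Real.exp_add]
  congr 1
  have h2 : (Real.sqrt 2)⁻¹ * (Real.sqrt 2)⁻¹ = 1 / 2 := by
    rw [← mul_inv, Real.mul_self_sqrt (by norm_num)]
    norm_num
  simp only [dotProduct_smul, smul_dotProduct, smul_eq_mul, dotProduct_add, add_dotProduct,
    dotProduct_sub, sub_dotProduct]
  rw [dotProduct_comm v u]
  have h3 : (Real.sqrt 2)⁻¹ * ((Real.sqrt 2)⁻¹ * (u ⬝ᵥ u + u ⬝ᵥ v) +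
      (Real.sqrt 2)⁻¹ * (u ⬝ᵥ v + v ⬝ᵥ v)) =
      ((Real.sqrt 2)⁻¹ * (Real.sqrt 2)⁻¹) * (u ⬝ᵥ u + 2 * (u ⬝ᵥ v) + v ⬝ᵥ v) := by ring
  have h4 : (Real.sqrt 2)⁻¹ * ((Real.sqrt 2)⁻¹ * (v ⬝ᵥ v - u ⬝ᵥ v) -
      (Real.sqrt 2)⁻¹ * (u ⬝ᵥ v - u ⬝ᵥ u)) =
      ((Real.sqrt 2)⁻¹ * (Real.sqrt 2)⁻¹) * (u ⬝ᵥ u - 2 * (u ⬝ᵥ v) + v ⬝ᵥ v) := by ring
  rw [h3, h4, h2]
  ring

lemma inv_sqrt_sq : ((Real.sqrt 2)⁻¹) ^ 2 = 1 / 2 := by
  rw [inv_pow, Real.sq_sqrt (by norm_num)]
  norm_num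

lemma rot_q (θ u v : Fin n → ℝ) :
    q θ ((Real.sqrt 2)⁻¹ • (u + v)) - q θ ((Real.sqrt 2)⁻¹ • (v - u)) =
      2 * ((fun i => θ i * u i) ⬝ᵥ v) := by
  unfold q dotProduct
  rw [← Finset.sum_sub_distrib, Finset.mul_sum]
  apply Finset.sum_congr rfl
  intro i _
  simp only [Pi.smul_apply, Pi.add_apply, Pi.sub_apply, smul_eq_mul, mul_pow]
  rw [inv_sqrt_sq]
  ring

lemma rot_diff (θ u v : Fin n → ℝ) :
    q (fun i => θ i ^ 2) ((Real.sqrt 2)⁻¹ • (u + v) - (Real.sqrt 2)⁻¹ • (v - u)) =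
      2 * ((fun i => θ i * u i) ⬝ᵥ (fun i => θ i * u i)) := by
  unfold q dotProduct
  rw [Finset.mul_sum]
  apply Finset.sum_congr rfl
  intro i _
  simp only [Pi.smul_apply, Pi.add_apply, Pi.sub_apply, smul_eq_mul]
  have : ((Real.sqrt 2)⁻¹ * (u i + v i) - (Real.sqrt 2)⁻¹ * (v i - u i)) ^ 2 =
      ((Real.sqrt 2)⁻¹) ^ 2 * (4 * u i ^ 2) := by ring
  rw [this, inv_sqrt_sq]
  ring

/-- The set of the `v` for a fixed `u`. -/
def S (C : Set (Fin n → ℝ)) (u : Fin n → ℝ) : Set (Fin n → ℝ) :=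
  {v | (Real.sqrt 2)⁻¹ • (u + v) ∈ C ∧ (Real.sqrt 2)⁻¹ • (v - u) ∈ C}

lemma S_measurable {C : Set (Fin n → ℝ)} (hm : MeasurableSet C) (u : Fin n → ℝ) :
    MeasurableSet (S C u) := by
  have h1 : Measurable fun v : Fin n → ℝ => (Real.sqrt 2)⁻¹ • (u + v) := by fun_prop
  have h2 : Measurable fun v : Fin n → ℝ => (Real.sqrt 2)⁻¹ • (v - u) := by fun_prop
  exact (h1 hm).inter (h2 hm)

lemma S_convex {C : Set (Fin n → ℝ)} (hc : Convex ℝ C) (u : Fin n → ℝ) :
    Convex ℝ (S C u) := by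
  rintro x ⟨hx1, hx2⟩ y ⟨hy1, hy2⟩ a b ha hb hab
  have hu : u = a • u + b • u := by rw [← add_smul, hab, one_smul]
  constructor
  · have h := hc hx1 hy1 ha hb hab
    convert h using 1
    nth_rewrite 1 [hu]
    module
  · have h := hc hx2 hy2 ha hb hab
    convert h using 1
    nth_rewrite 1 [hu]
    module

lemma S_symm {C : Set (Fin n → ℝ)} (hs : ∀ x ∈ C, -x ∈ C) (u : Fin n → ℝ) :
    ∀ x ∈ S C u, -x ∈ S C u := by
  rintro x ⟨hx1, hx2⟩
  constructor
  · have h := hs _ hx2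
    convert h using 1
    module
  · have h := hs _ hx1
    convert h using 1
    module

lemma S_ind (C : Set (Fin n → ℝ)) (u v : Fin n → ℝ) :
    C.indicator (fun _ => (1 : ℝ)) ((Real.sqrt 2)⁻¹ • (u + v)) *
      C.indicator (fun _ => (1 : ℝ)) ((Real.sqrt 2)⁻¹ • (v - u)) =
      (S C u).indicator (fun _ => (1 : ℝ)) v := by
  by_cases h1 : (Real.sqrt 2)⁻¹ • (u + v) ∈ C
  · by_cases h2 : (Real.sqrt 2)⁻¹ • (v - u) ∈ C
    · rw [indicator_of_mem h1, indicator_of_mem h2, indicator_of_mem (show v ∈ S C u from ⟨h1, h2⟩),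
        one_mul]
    · rw [indicator_of_notMem h2, indicator_of_notMem (show v ∉ S C u from fun h => h2 h.2),
        mul_zero]
  · rw [indicator_of_notMem h1, indicator_of_notMem (show v ∉ S C u from fun h => h1 h.1),
      zero_mul]

lemma S_ind_measurable {C : Set (Fin n → ℝ)} (hm : MeasurableSet C) :
    Measurable fun z : (Fin n → ℝ) × (Fin n → ℝ) =>
      (S C z.1).indicator (fun _ => (1 : ℝ)) z.2 := by
  have h1 : Measurable fun z : (Fin n → ℝ) × (Fin n → ℝ) => (Real.sqrt 2)⁻¹ • (z.1 + z.2) := by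
    fun_prop
  have h2 : Measurable fun z : (Fin n → ℝ) × (Fin n → ℝ) => (Real.sqrt 2)⁻¹ • (z.2 - z.1) := by
    fun_prop
  have h3 : Measurable (C.indicator (fun _ : Fin n → ℝ => (1 : ℝ))) :=
    measurable_const.indicator hm
  have h4 := (h3.comp h1).mul (h3.comp h2)
  have h5 : (fun z : (Fin n → ℝ) × (Fin n → ℝ) =>
      (S C z.1).indicator (fun _ => (1 : ℝ)) z.2) =
      fun z => C.indicator (fun _ => (1 : ℝ)) ((Real.sqrt 2)⁻¹ • (z.1 + z.2)) *
        C.indicator (fun _ => (1 : ℝ)) ((Real.sqrt 2)⁻¹ • (z.2 - z.1)) := by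
    funext z
    rw [S_ind]
  rw [h5]
  exact h4

lemma ind_le_one (A : Set (Fin n → ℝ)) (v : Fin n → ℝ) :
    0 ≤ A.indicator (fun _ => (1 : ℝ)) v ∧ A.indicator (fun _ => (1 : ℝ)) v ≤ 1 := by
  by_cases h : v ∈ A
  · rw [indicator_of_mem h]
    norm_num
  · rw [indicator_of_notMem h]
    norm_num

/-- The square of the length of `D u`. -/
lemma D_dot (θ u : Fin n → ℝ) :
    (fun i => θ i * u i) ⬝ᵥ (fun i => θ i * u i) = q (fun i => θ i ^ 2) u := by
  unfold q dotProduct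
  apply Finset.sum_congr rfl
  intro i _
  ring

lemma cs (a b : Fin n → ℝ) : (a ⬝ᵥ b) ^ 2 ≤ (a ⬝ᵥ a) * (b ⬝ᵥ b) := by
  have h := Finset.sum_mul_sq_le_sq_mul_sq Finset.univ a b
  unfold dotProduct
  simp only [sq] at h ⊢
  exact h

lemma bnd_dot (x : Fin n → ℝ) : |x ⬝ᵥ x| ≤ 1 * (1 + x ⬝ᵥ x) ^ 2 := by
  have h0 := dot_nonneg x
  rw [abs_of_nonneg h0]
  nlinarith

lemma dot_continuous : Continuous fun x : Fin n → ℝ => x ⬝ᵥ x := by
  simp only [dotProduct]
  fun_prop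

lemma bil_continuous (θ : Fin n → ℝ) :
    Continuous fun z : (Fin n → ℝ) × (Fin n → ℝ) => (fun i => θ i * z.1 i) ⬝ᵥ z.2 := by
  simp only [dotProduct]
  fun_prop

/-- The central inequality. -/
lemma middle {C : Set (Fin n → ℝ)} (hm : MeasurableSet C) (hc : Convex ℝ C)
    (hs : ∀ x ∈ C, -x ∈ C) (θ : Fin n → ℝ) :
    ∫ z : (Fin n → ℝ) × (Fin n → ℝ), (S C z.1).indicator (fun _ => (1 : ℝ)) z.2 *
        (((fun i => θ i * z.1 i) ⬝ᵥ z.2) ^ 2 * (w z.1 * w z.2)) ≤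
      ∫ z : (Fin n → ℝ) × (Fin n → ℝ), (S C z.1).indicator (fun _ => (1 : ℝ)) z.2 *
        (q (fun i => θ i ^ 2) z.1 * (w z.1 * w z.2)) := by
  have iw : Integrable (fun x : Fin n → ℝ => 1 * w x) :=
    integrable_mul_w continuous_const bnd_one
  have idot : Integrable (fun x : Fin n → ℝ => (x ⬝ᵥ x) * w x) :=
    integrable_mul_w dot_continuous bnd_dot
  have iq : Integrable (fun x : Fin n → ℝ => q (fun i => θ i ^ 2) x * w x) :=
    integrable_mul_w (q_continuous _) (bnd_q _)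
  have hqn : ∀ u : Fin n → ℝ, 0 ≤ q (fun i => θ i ^ 2) u := by
    intro u
    rw [← D_dot]
    exact dot_nonneg _
  have k1 : Integrable (fun z : (Fin n → ℝ) × (Fin n → ℝ) =>
      (S C z.1).indicator (fun _ => (1 : ℝ)) z.2 *
        (((fun i => θ i * z.1 i) ⬝ᵥ z.2) ^ 2 * (w z.1 * w z.2))) (volume.prod volume) := by
    refine (iq.mul_prod idot).mono' ?_ (Eventually.of_forall fun z => ?_)
    · refine ((S_ind_measurable hm).mul ?_).aestronglyMeasurable
      exact (((bil_continuous θ).pow 2).mul ((w_continuous.comp continuous_fst).mul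
        (w_continuous.comp continuous_snd))).measurable
    · have h1 := ind_le_one (S C z.1) z.2
      have h2 := cs (fun i => θ i * z.1 i) z.2
      rw [D_dot] at h2
      have h3 := (mul_pos (w_pos z.1) (w_pos z.2)).le
      rw [Real.norm_eq_abs, abs_of_nonneg (mul_nonneg h1.1 (mul_nonneg (sq_nonneg _) h3))]
      calc _ ≤ 1 * (((fun i => θ i * z.1 i) ⬝ᵥ z.2) ^ 2 * (w z.1 * w z.2)) :=
            mul_le_mul_of_nonneg_right h1.2 (mul_nonneg (sq_nonneg _) h3)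
        _ ≤ (q (fun i => θ i ^ 2) z.1 * (z.2 ⬝ᵥ z.2)) * (w z.1 * w z.2) := by
            rw [one_mul]
            exact mul_le_mul_of_nonneg_right h2 h3
        _ = _ := by ring
  have k2 : Integrable (fun z : (Fin n → ℝ) × (Fin n → ℝ) =>
      (S C z.1).indicator (fun _ => (1 : ℝ)) z.2 *
        (q (fun i => θ i ^ 2) z.1 * (w z.1 * w z.2))) (volume.prod volume) := by
    refine (iq.mul_prod iw).mono' ?_ (Eventually.of_forall fun z => ?_)
    · refine ((S_ind_measurable hm).mul ?_).aestronglyMeasurable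
      exact (((q_continuous _).comp continuous_fst).mul ((w_continuous.comp continuous_fst).mul
        (w_continuous.comp continuous_snd))).measurable
    · have h1 := ind_le_one (S C z.1) z.2
      have h3 := (mul_pos (w_pos z.1) (w_pos z.2)).le
      have h4 := hqn z.1
      rw [Real.norm_eq_abs, abs_of_nonneg (mul_nonneg h1.1 (mul_nonneg h4 h3))]
      calc _ ≤ 1 * (q (fun i => θ i ^ 2) z.1 * (w z.1 * w z.2)) :=
            mul_le_mul_of_nonneg_right h1.2 (mul_nonneg h4 h3)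
        _ = _ := by ring
  rw [Measure.volume_eq_prod, integral_prod _ k1, integral_prod _ k2]
  refine integral_mono k1.integral_prod_left k2.integral_prod_left fun u => ?_
  simp only
  have e1 : ∫ v, (S C u).indicator (fun _ => (1 : ℝ)) v *
      (((fun i => θ i * u i) ⬝ᵥ v) ^ 2 * (w u * w v)) =
      w u * ∫ v in S C u, ((fun i => θ i * u i) ⬝ᵥ v) ^ 2 * Real.exp (-(v ⬝ᵥ v) / 2) := by
    rw [← integral_indicator (S_measurable hm u), ← integral_const_mul]
    apply integral_congr_ae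
    refine Eventually.of_forall fun v => ?_
    simp only
    by_cases h : v ∈ S C u
    · rw [indicator_of_mem h, indicator_of_mem h]
      unfold w
      ring
    · rw [indicator_of_notMem h, indicator_of_notMem h]
      ring
  have e2 : ∫ v, (S C u).indicator (fun _ => (1 : ℝ)) v *
      (q (fun i => θ i ^ 2) u * (w u * w v)) =
      w u * (q (fun i => θ i ^ 2) u * ∫ v in S C u, Real.exp (-(v ⬝ᵥ v) / 2)) := by
    rw [← integral_indicator (S_measurable hm u), ← integral_const_mul, ← integral_const_mul]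
    apply integral_congr_ae
    refine Eventually.of_forall fun v => ?_
    simp only
    by_cases h : v ∈ S C u
    · rw [indicator_of_mem h, indicator_of_mem h]
      unfold w
      ring
    · rw [indicator_of_notMem h, indicator_of_notMem h]
      ring
  rw [e1, e2, ← D_dot]
  exact mul_le_mul_of_nonneg_left
    (second_moment (S_measurable hm u) (S_convex hc u) (S_symm hs u) _) (w_pos u).le

end VarAux

/-- Variance inequality. Proof: let `q x = ∑ θ_i x_i²`, `E` the integral over `C × C` with the weight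
`exp (-(|x|² + |y|²)/2)`. The left hand side is `(1/2) E (q x - q y)²`. With `x = (v + u)/√2`,
`y = (v - u)/√2` (so `x - y = √2 u`, `x + y = √2 v`) `q x - q y = 2 ⟨D u, v⟩`, `D u = (θ_i u_i)`. For
fixed `u` the set of the `v` with `x, y ∈ C` is convex, symmetric and measurable, so `second_moment`
gives `E (2 ⟨D u, v⟩)² ≤ 4 E |D u|²`, and `|D u|² = |D (x - y)|² / 2`, so
`E |D u|² = (1/2) E (|D x|² + |D y|² - 2 ⟨D x, D y⟩) = E |D x|²` since the mixed term vanishes by the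
symmetry of `C`. Hence the left hand side is at most `2 E |D x|²`. -/
theorem var_ineq {C : Set (Fin n → ℝ)} (hm : MeasurableSet C) (hc : Convex ℝ C)
    (hs : ∀ x ∈ C, -x ∈ C) (θ : Fin n → ℝ) :
    (∫ x in C, Real.exp (-(x ⬝ᵥ x) / 2)) *
        (∫ x in C, (∑ i, θ i * x i ^ 2) ^ 2 * Real.exp (-(x ⬝ᵥ x) / 2)) -
      (∫ x in C, (∑ i, θ i * x i ^ 2) * Real.exp (-(x ⬝ᵥ x) / 2)) ^ 2 ≤
    2 * (∫ x in C, Real.exp (-(x ⬝ᵥ x) / 2)) *
      ∫ x in C, (∑ i, θ i ^ 2 * x i ^ 2) * Real.exp (-(x ⬝ᵥ x) / 2) := by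
  have e1 : ∫ x in C, Real.exp (-(x ⬝ᵥ x) / 2) = ∫ x, VarAux.G C (fun _ => 1) x := by
    rw [VarAux.integral_G hm]
    simp only [one_mul]
    rfl
  have e2 : ∫ x in C, (∑ i, θ i * x i ^ 2) ^ 2 * Real.exp (-(x ⬝ᵥ x) / 2) =
      ∫ x, VarAux.G C (fun x => VarAux.q θ x ^ 2) x := by
    rw [VarAux.integral_G hm]
    rfl
  have e3 : ∫ x in C, (∑ i, θ i * x i ^ 2) * Real.exp (-(x ⬝ᵥ x) / 2) =
      ∫ x, VarAux.G C (VarAux.q θ) x := by
    rw [VarAux.integral_G hm]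
    rfl
  have e4 : ∫ x in C, (∑ i, θ i ^ 2 * x i ^ 2) * Real.exp (-(x ⬝ᵥ x) / 2) =
      ∫ x, VarAux.G C (VarAux.q fun i => θ i ^ 2) x := by
    rw [VarAux.integral_G hm]
    rfl
  rw [e1, e2, e3, e4]
  have hl := VarAux.left_side hm θ
  have hr := VarAux.right_side hm θ
  rw [rot_integral] at hl hr
  simp only [VarAux.S_ind, VarAux.rot_q, VarAux.rot_w, VarAux.rot_diff, VarAux.D_dot] at hl hr
  have hmid := VarAux.middle hm hc hs θ
  have e5 : ∫ z : (Fin n → ℝ) × (Fin n → ℝ),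
      (VarAux.S C z.1).indicator (fun _ => (1 : ℝ)) z.2 *
        ((2 * ((fun i => θ i * z.1 i) ⬝ᵥ z.2)) ^ 2 * (VarAux.w z.1 * VarAux.w z.2)) =
      4 * ∫ z : (Fin n → ℝ) × (Fin n → ℝ), (VarAux.S C z.1).indicator (fun _ => (1 : ℝ)) z.2 *
        (((fun i => θ i * z.1 i) ⬝ᵥ z.2) ^ 2 * (VarAux.w z.1 * VarAux.w z.2)) := by
    rw [← integral_const_mul]
    apply integral_congr_ae
    refine Eventually.of_forall fun z => ?_
    simp only
    ring
  have e6 : ∫ z : (Fin n → ℝ) × (Fin n → ℝ),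
      (VarAux.S C z.1).indicator (fun _ => (1 : ℝ)) z.2 *
        (2 * VarAux.q (fun i => θ i ^ 2) z.1 * (VarAux.w z.1 * VarAux.w z.2)) =
      2 * ∫ z : (Fin n → ℝ) × (Fin n → ℝ), (VarAux.S C z.1).indicator (fun _ => (1 : ℝ)) z.2 *
        (VarAux.q (fun i => θ i ^ 2) z.1 * (VarAux.w z.1 * VarAux.w z.2)) := by
    rw [← integral_const_mul]
    apply integral_congr_ae
    refine Eventually.of_forall fun z => ?_
    simp only
    ring
  rw [e5] at hl
  rw [e6] at hr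
  linarith

end Pool.Agent.Lib.MP_ddd95a_nt.Mord
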