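import Mathlib

/-!
# The midpoint Prékopa–Leindler inequality on `Fin d → ℝ`
-/

open MeasureTheory Set Filter Topology
open scoped ENNReal NNReal Pointwise

namespace Pool.Agent.Lib.MP_ddd95a_nt.Mord

namespace PLAux

/-- The one dimensional inequality. -/
def Stmt_PL1 : Prop := ∀ f g h : ℝ → ℝ≥0∞, Measurable f → Measurable g → Measurable h →
  (∀ x y, f x * g y ≤ (h ((x + y) / 2)) ^ 2) → (∫⁻ x, f x) * (∫⁻ x, g x) ≤ (∫⁻ x, h x) ^ 2

/-- The volume of the image of a set under `x ↦ (x + b) / 2`. -/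
lemma pl1_image_left (K : Set ℝ) (b : ℝ) :
    volume ((fun x => (x + b) / 2) '' K) = 2⁻¹ * volume K := by
  have h1 : (fun x : ℝ => (x + b) / 2) '' K = (2⁻¹ : ℝ) • ((fun x => x + b) '' K) := by
    rw [← image_smul, image_image]
    apply image_congr
    intro x _
    simp only [smul_eq_mul]
    ring
  rw [h1, Measure.addHaar_smul]
  have h2 : (fun x : ℝ => x + b) '' K = (fun x => x + (-b)) ⁻¹' K := by
    ext y
    constructor
    · rintro ⟨x, hx, rfl⟩
      simpa using hx
    · intro hy
      exact ⟨y + (-b), hy, by ring⟩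
  rw [h2, measure_preimage_add_right]
  simp only [Module.finrank_self, pow_one]
  rw [abs_of_pos (by norm_num), ENNReal.ofReal_inv_of_pos (by norm_num)]
  norm_num

/-- Brunn–Minkowski in dimension one for compact sets. -/
lemma pl1_bm_compact {K L C : Set ℝ} (hK : IsCompact K) (hL : IsCompact L) (hK0 : K.Nonempty)
    (hL0 : L.Nonempty) (h : ∀ x ∈ K, ∀ y ∈ L, (x + y) / 2 ∈ C) :
    volume K + volume L ≤ 2 * volume C := by
  set a := sSup K
  set b := sInf L
  have ha : a ∈ K := hK.sSup_mem hK0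
  have hb : b ∈ L := hL.sInf_mem hL0
  set K' := (fun x => (x + b) / 2) '' K
  set L' := (fun y => (y + a) / 2) '' L
  have hK' : volume K' = 2⁻¹ * volume K := pl1_image_left K b
  have hL' : volume L' = 2⁻¹ * volume L := pl1_image_left L a
  have hKc : IsCompact K' := hK.image (by fun_prop)
  have hLc : IsCompact L' := hL.image (by fun_prop)
  have hdis : AEDisjoint volume K' L' := by
    have hsub : K' ∩ L' ⊆ {(a + b) / 2} := by
      rintro z ⟨⟨x, hx, rfl⟩, ⟨y, hy, hxy⟩⟩
      have h1 : x ≤ a := le_csSup hK.bddAbove hx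
      have h2 : b ≤ y := csInf_le hL.bddBelow hy
      simp only at hxy
      rw [mem_singleton_iff]
      simp only
      linarith
    exact measure_mono_null hsub (by simp)
  have hsub : K' ∪ L' ⊆ C := by
    rintro z (⟨x, hx, rfl⟩ | ⟨y, hy, rfl⟩)
    · exact h x hx b hb
    · have := h a ha y hy
      simpa [add_comm] using this
  have h1 : volume (K' ∪ L') = volume K' + volume L' :=
    measure_union₀ hLc.measurableSet.nullMeasurableSet hdis
  have h2 : volume K' + volume L' ≤ volume C := by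
    rw [← h1]
    exact measure_mono hsub
  calc volume K + volume L = 2 * (volume K' + volume L') := by
        rw [hK', hL', ← mul_add, ← mul_assoc, ENNReal.mul_inv_cancel (by norm_num) (by norm_num),
          one_mul]
    _ ≤ 2 * volume C := by gcongr

/-- Brunn–Minkowski in dimension one. -/
lemma pl1_bm {A B C : Set ℝ} (hA : MeasurableSet A) (hB : MeasurableSet B) (hA0 : A.Nonempty)
    (hB0 : B.Nonempty) (h : ∀ x ∈ A, ∀ y ∈ B, (x + y) / 2 ∈ C) :
    volume A + volume B ≤ 2 * volume C := by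
  obtain ⟨a, ha⟩ := hA0
  obtain ⟨b, hb⟩ := hB0
  have hA' : volume A = ⨆ (K : Set ℝ) (_ : K ⊆ A ∧ IsCompact K), volume K := by
    rw [hA.measure_eq_iSup_isCompact]
    simp only [iSup_and]
  have hB' : volume B = ⨆ (K : Set ℝ) (_ : K ⊆ B ∧ IsCompact K), volume K := by
    rw [hB.measure_eq_iSup_isCompact]
    simp only [iSup_and]
  rw [hA', hB']
  refine ENNReal.biSup_add_biSup_le' ⟨∅, empty_subset _, isCompact_empty⟩
    ⟨∅, empty_subset _, isCompact_empty⟩ ?_
  rintro K ⟨hKA, hK⟩ L ⟨hLB, hL⟩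
  have h1 := pl1_bm_compact (K := insert a K) (L := insert b L) (C := C) (hK.insert a) (hL.insert b)
    (insert_nonempty _ _) (insert_nonempty _ _) (fun x hx y hy =>
      h x (insert_subset ha hKA hx) y (insert_subset hb hLB hy))
  refine le_trans ?_ h1
  gcongr <;> exact subset_insert _ _

/-- AM-GM in the extended nonnegative reals. -/
lemma pl1_amgm {X Y Z : ℝ≥0∞} (h : X + Y ≤ 2 * Z) : X * Y ≤ Z ^ 2 := by
  rcases eq_or_ne Z ∞ with rfl | hZ
  · simp
  have hXY : X + Y ≠ ∞ := ne_top_of_le_ne_top (ENNReal.mul_ne_top (by norm_num) hZ) h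
  have hX : X ≠ ∞ := fun hX => hXY (by simp [hX])
  have hY : Y ≠ ∞ := fun hY => hXY (by simp [hY])
  lift X to ℝ≥0 using hX
  lift Y to ℝ≥0 using hY
  lift Z to ℝ≥0 using hZ
  norm_cast at h ⊢
  have h' : (X : ℝ) + Y ≤ 2 * Z := by exact_mod_cast h
  have : (X : ℝ) * Y ≤ (Z : ℝ) ^ 2 := by
    nlinarith [X.coe_nonneg, Y.coe_nonneg, Z.coe_nonneg, sq_nonneg ((X : ℝ) - Y)]
  exact_mod_cast this

/-- The normalised form for functions with values in `[0, 1]`. -/
lemma pl1_unit {F G H : ℝ → ℝ} (hF : Measurable F) (hG : Measurable G) (hH : Measurable H)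
    (hF0 : ∀ x, 0 ≤ F x) (hG0 : ∀ x, 0 ≤ G x) (hH0 : ∀ x, 0 ≤ H x)
    (hF1 : ∀ x, F x ≤ 1) (hG1 : ∀ x, G x ≤ 1)
    (hFs : ∀ t < 1, ∃ x, t < F x) (hGs : ∀ t < 1, ∃ x, t < G x)
    (h : ∀ t, 0 < t → t < 1 → ∀ x y, t < F x → t < G y → t < H ((x + y) / 2)) :
    (∫⁻ x, ENNReal.ofReal (F x)) + (∫⁻ x, ENNReal.ofReal (G x)) ≤
      2 * ∫⁻ x, ENNReal.ofReal (H x) := by
  rw [lintegral_eq_lintegral_meas_lt volume (Eventually.of_forall hF0) hF.aemeasurable,
    lintegral_eq_lintegral_meas_lt volume (Eventually.of_forall hG0) hG.aemeasurable,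
    lintegral_eq_lintegral_meas_lt volume (Eventually.of_forall hH0) hH.aemeasurable]
  have hmF : Measurable fun t => volume {x | t < F x} :=
    Antitone.measurable fun s t hst => measure_mono fun x hx => lt_of_le_of_lt hst hx
  have hmH : Measurable fun t => volume {x | t < H x} :=
    Antitone.measurable fun s t hst => measure_mono fun x hx => lt_of_le_of_lt hst hx
  rw [← lintegral_add_left hmF, ← lintegral_const_mul _ hmH]
  apply setLIntegral_mono' measurableSet_Ioi
  intro t ht
  by_cases ht1 : t < 1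
  · apply pl1_bm (measurableSet_lt measurable_const hF) (measurableSet_lt measurable_const hG)
      (hFs t ht1) (hGs t ht1)
    intro x hx y hy
    exact h t ht ht1 x y hx hy
  · push Not at ht1
    have e1 : {x | t < F x} = ∅ := by
      ext x
      simp only [mem_ofPred_eq, mem_empty_iff_false, iff_false, not_lt]
      exact (hF1 x).trans ht1
    have e2 : {x | t < G x} = ∅ := by
      ext x
      simp only [mem_ofPred_eq, mem_empty_iff_false, iff_false, not_lt]
      exact (hG1 x).trans ht1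
    simp [e1, e2]

/-- The case of bounded functions. -/
lemma pl1_bdd {f g h : ℝ → ℝ≥0∞} (hf : Measurable f) (hg : Measurable g) (hh : Measurable h)
    (hfg : ∀ x y, f x * g y ≤ (h ((x + y) / 2)) ^ 2) (hfb : (⨆ x, f x) ≠ ∞)
    (hgb : (⨆ x, g x) ≠ ∞) : (∫⁻ x, f x) * (∫⁻ x, g x) ≤ (∫⁻ x, h x) ^ 2 := by
  rcases eq_or_ne (⨆ x, f x) 0 with hf0 | hf0
  · have : ∀ x, f x = 0 := fun x => le_antisymm (hf0 ▸ le_iSup f x) bot_le
    simp [this]
  rcases eq_or_ne (⨆ x, g x) 0 with hg0 | hg0
  · have : ∀ x, g x = 0 := fun x => le_antisymm (hg0 ▸ le_iSup g x) bot_le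
    simp [this]
  set a := (⨆ x, f x).toReal with ha
  set b := (⨆ x, g x).toReal with hb
  have ha0 : 0 < a := ENNReal.toReal_pos hf0 hfb
  have hb0 : 0 < b := ENNReal.toReal_pos hg0 hgb
  have hfx : ∀ x, f x ≠ ∞ := fun x => ne_top_of_le_ne_top hfb (le_iSup f x)
  have hgx : ∀ x, g x ≠ ∞ := fun x => ne_top_of_le_ne_top hgb (le_iSup g x)
  set s := Real.sqrt (a * b) with hs
  have hs0 : 0 < s := Real.sqrt_pos.2 (by positivity)
  have hs2 : s ^ 2 = a * b := Real.sq_sqrt (by positivity)
  have hhx : ∀ x, min (h x) (ENNReal.ofReal s) ≠ ∞ := fun x =>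
    ne_top_of_le_ne_top ENNReal.ofReal_ne_top (min_le_right _ _)
  have key := pl1_unit (F := fun x => (f x).toReal / a) (G := fun x => (g x).toReal / b)
    (H := fun x => (min (h x) (ENNReal.ofReal s)).toReal / s)
    (hf.ennreal_toReal.div_const a) (hg.ennreal_toReal.div_const b)
    ((hh.min measurable_const).ennreal_toReal.div_const s)
    (fun x => by positivity) (fun x => by positivity) (fun x => by positivity)
    (fun x => by
      rw [div_le_one ha0]
      exact ENNReal.toReal_mono hfb (le_iSup f x))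
    (fun x => by
      rw [div_le_one hb0]
      exact ENNReal.toReal_mono hgb (le_iSup g x))
    (fun t ht => by
      rcases lt_or_ge t 0 with ht0 | ht0
      · exact ⟨0, lt_of_lt_of_le ht0 (by positivity)⟩
      have h1 : ENNReal.ofReal (t * a) < ⨆ x, f x := by
        rw [ENNReal.ofReal_lt_iff_lt_toReal (by positivity) hfb, ← ha]
        nlinarith
      obtain ⟨x, hx⟩ := lt_iSup_iff.1 h1
      refine ⟨x, ?_⟩
      rw [ENNReal.ofReal_lt_iff_lt_toReal (by positivity) (hfx x)] at hx
      rw [lt_div_iff₀ ha0]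
      exact hx)
    (fun t ht => by
      rcases lt_or_ge t 0 with ht0 | ht0
      · exact ⟨0, lt_of_lt_of_le ht0 (by positivity)⟩
      have h1 : ENNReal.ofReal (t * b) < ⨆ x, g x := by
        rw [ENNReal.ofReal_lt_iff_lt_toReal (by positivity) hgb, ← hb]
        nlinarith
      obtain ⟨x, hx⟩ := lt_iSup_iff.1 h1
      refine ⟨x, ?_⟩
      rw [ENNReal.ofReal_lt_iff_lt_toReal (by positivity) (hgx x)] at hx
      rw [lt_div_iff₀ hb0]
      exact hx)
    (fun t ht0 ht1 x y hx hy => by
      rw [lt_div_iff₀ ha0] at hx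
      rw [lt_div_iff₀ hb0] at hy
      rw [lt_div_iff₀ hs0, ← ENNReal.ofReal_lt_iff_lt_toReal (by positivity) (hhx _)]
      apply lt_min
      · by_contra hc
        push Not at hc
        have h1 : f x * g y ≤ ENNReal.ofReal ((t * s) ^ 2) := by
          refine (hfg x y).trans ?_
          rw [ENNReal.ofReal_pow (by positivity)]
          gcongr
        have h2 : (f x).toReal * (g y).toReal ≤ (t * s) ^ 2 := by
          rw [← ENNReal.toReal_mul]
          have := ENNReal.toReal_mono ENNReal.ofReal_ne_top h1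
          rwa [ENNReal.toReal_ofReal (by positivity)] at this
        have h3 : (t * a) * (t * b) < (f x).toReal * (g y).toReal :=
          mul_lt_mul'' hx hy (by positivity) (by positivity)
        have h4 : (t * s) ^ 2 = (t * a) * (t * b) := by
          rw [mul_pow, hs2]
          ring
        linarith
      · rw [ENNReal.ofReal_lt_ofReal_iff hs0]
        nlinarith)
  have eF : ∫⁻ x, f x = ENNReal.ofReal a * ∫⁻ x, ENNReal.ofReal ((f x).toReal / a) := by
    rw [← lintegral_const_mul _ (hf.ennreal_toReal.div_const a).ennreal_ofReal]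
    apply lintegral_congr
    intro x
    rw [← ENNReal.ofReal_mul ha0.le, mul_div_cancel₀ _ ha0.ne', ENNReal.ofReal_toReal (hfx x)]
  have eG : ∫⁻ x, g x = ENNReal.ofReal b * ∫⁻ x, ENNReal.ofReal ((g x).toReal / b) := by
    rw [← lintegral_const_mul _ (hg.ennreal_toReal.div_const b).ennreal_ofReal]
    apply lintegral_congr
    intro x
    rw [← ENNReal.ofReal_mul hb0.le, mul_div_cancel₀ _ hb0.ne', ENNReal.ofReal_toReal (hgx x)]
  have eH : ENNReal.ofReal s * (∫⁻ x, ENNReal.ofReal ((min (h x) (ENNReal.ofReal s)).toReal / s)) ≤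
      ∫⁻ x, h x := by
    rw [← lintegral_const_mul _
      ((hh.min measurable_const).ennreal_toReal.div_const s).ennreal_ofReal]
    apply lintegral_mono
    intro x
    simp only
    rw [← ENNReal.ofReal_mul hs0.le, mul_div_cancel₀ _ hs0.ne', ENNReal.ofReal_toReal (hhx x)]
    exact min_le_left _ _
  have h5 := pl1_amgm key
  calc (∫⁻ x, f x) * (∫⁻ x, g x)
      = (ENNReal.ofReal s) ^ 2 * ((∫⁻ x, ENNReal.ofReal ((f x).toReal / a)) *
          ∫⁻ x, ENNReal.ofReal ((g x).toReal / b)) := by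
        rw [eF, eG, ← ENNReal.ofReal_pow hs0.le, hs2, ENNReal.ofReal_mul ha0.le]
        ring
    _ ≤ (ENNReal.ofReal s) ^ 2 *
          (∫⁻ x, ENNReal.ofReal ((min (h x) (ENNReal.ofReal s)).toReal / s)) ^ 2 := by
        gcongr
    _ = (ENNReal.ofReal s * ∫⁻ x, ENNReal.ofReal ((min (h x) (ENNReal.ofReal s)).toReal / s)) ^ 2 := by
        rw [mul_pow]
    _ ≤ (∫⁻ x, h x) ^ 2 := by
        gcongr

/-- Monotone approximation by truncation. -/
lemma pl1_trunc {f : ℝ → ℝ≥0∞} (hf : Measurable f) :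
    ∫⁻ x, f x = ⨆ n : ℕ, ∫⁻ x, min (f x) n := by
  rw [← lintegral_iSup (fun n => hf.min measurable_const)]
  · apply lintegral_congr
    intro x
    rw [← inf_iSup_eq]
    rw [ENNReal.iSup_natCast]
    simp
  · intro m n hmn x
    simp only
    gcongr

theorem pl1 : Stmt_PL1 := by
  intro f g h hf hg hh hfg
  rw [pl1_trunc hf, pl1_trunc hg, ENNReal.iSup_mul]
  apply iSup_le
  intro m
  rw [ENNReal.mul_iSup]
  apply iSup_le
  intro n
  apply pl1_bdd (hf.min measurable_const) (hg.min measurable_const) hh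
  · intro x y
    refine le_trans ?_ (hfg x y)
    gcongr
    · exact min_le_left _ _
    · exact min_le_left _ _
  · exact ne_top_of_le_ne_top (ENNReal.natCast_ne_top m) (iSup_le fun x => min_le_right _ _)
  · exact ne_top_of_le_ne_top (ENNReal.natCast_ne_top n) (iSup_le fun x => min_le_right _ _)


/-- Iterated integrals for functions on `Fin (d + 1) → ℝ`. -/
lemma pl_fubini (d : ℕ) {f : (Fin (d + 1) → ℝ) → ℝ≥0∞} (hf : Measurable f) :
    ∫⁻ x, f x = ∫⁻ t : ℝ, ∫⁻ z : Fin d → ℝ,
      f ((MeasurableEquiv.piFinSuccAbove (fun _ => ℝ) 0).symm (t, z)) := by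
  have h1 := (volume_preserving_piFinSuccAbove (fun _ : Fin (d + 1) => ℝ) 0).symm
  have h2 := h1.lintegral_comp hf
  rw [← h2, Measure.volume_eq_prod, lintegral_prod]
  exact (hf.comp (MeasurableEquiv.measurable _)).aemeasurable

/-- Prékopa–Leindler on `Fin d → ℝ`. -/
lemma pl_pi (h1 : Stmt_PL1) (d : ℕ) : ∀ (f g h : (Fin d → ℝ) → ℝ≥0∞), Measurable f →
    Measurable g → Measurable h → (∀ x y, f x * g y ≤ (h (fun i => (x i + y i) / 2)) ^ 2) →
      (∫⁻ x, f x) * (∫⁻ x, g x) ≤ (∫⁻ x, h x) ^ 2 := by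
  induction d with
  | zero =>
    intro f g h _ _ _ hfg
    have hv : (volume : Measure (Fin 0 → ℝ)) univ = 1 := by
      simp [volume_pi]
    rw [lintegral_unique, lintegral_unique, lintegral_unique, hv, mul_one, mul_one, mul_one]
    have key : ∀ x y z : Fin 0 → ℝ, f x * g y ≤ h z ^ 2 := by
      intro x y z
      have e0 : (fun i : Fin 0 => (x i + y i) / 2) = z := by
        funext i
        exact i.elim0
      have h2 := hfg x y
      rw [e0] at h2
      exact h2
    exact key _ _ _
  | succ d ih =>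
    intro f g h hf hg hh hfg
    rw [pl_fubini d hf, pl_fubini d hg, pl_fubini d hh]
    set e := (MeasurableEquiv.piFinSuccAbove (fun _ : Fin (d + 1) => ℝ) 0).symm with he
    have hf' : Measurable fun p : ℝ × (Fin d → ℝ) => f (e p) := hf.comp e.measurable
    have hg' : Measurable fun p : ℝ × (Fin d → ℝ) => g (e p) := hg.comp e.measurable
    have hh' : Measurable fun p : ℝ × (Fin d → ℝ) => h (e p) := hh.comp e.measurable
    apply h1 _ _ _ hf'.lintegral_prod_right' hg'.lintegral_prod_right' hh'.lintegral_prod_right'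
    intro s t
    apply ih
    · exact hf'.comp measurable_prodMk_left
    · exact hg'.comp measurable_prodMk_left
    · exact hh'.comp measurable_prodMk_left
    · intro x y
      have h3 := hfg (e (s, x)) (e (t, y))
      have h4 : (fun i => (e (s, x) i + e (t, y) i) / 2) =
          e ((s + t) / 2, fun i => (x i + y i) / 2) := by
        funext i
        refine Fin.cases ?_ (fun j => ?_) i
        · simp [he, MeasurableEquiv.piFinSuccAbove]
        · simp [he, MeasurableEquiv.piFinSuccAbove]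
      rw [h4] at h3
      exact h3


end PLAux

/-- The midpoint Prékopa–Leindler inequality. -/
theorem pl {d : ℕ} (f g h : (Fin d → ℝ) → ℝ≥0∞) (hf : Measurable f) (hg : Measurable g)
    (hh : Measurable h) (hfg : ∀ x y, f x * g y ≤ (h (fun i => (x i + y i) / 2)) ^ 2) :
    (∫⁻ x, f x) * (∫⁻ x, g x) ≤ (∫⁻ x, h x) ^ 2 :=
  PLAux.pl_pi PLAux.pl1 d f g h hf hg hh hfg

end Pool.Agent.Lib.MP_ddd95a_nt.Mord
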