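import Pool.Agent.Lib.MP_ddd95a_nt.Mord.Defs

/-!
# The theorem of Lewis for the average over signs
-/

open Matrix MeasureTheory Filter Set
open scoped ENNReal Topology

noncomputable section

namespace Pool.Agent.Lib.MP_ddd95a_nt.Mord

namespace LewisAux

variable {n : ℕ}

/-- The average of the norm of `u` applied to the sign vectors. -/
def R (p : Seminorm ℝ (Fin n → ℝ)) (u : Matrix (Fin n) (Fin n) ℝ) : ℝ :=
  avg (fun e => p (u *ᵥ sg e))

lemma p_cont (p : Seminorm ℝ (Fin n → ℝ)) : Continuous p := by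
  have h := (p.convexOn).continuousOn_interior
  rw [interior_univ, continuousOn_univ] at h
  exact h

lemma R_cont (p : Seminorm ℝ (Fin n → ℝ)) : Continuous (R p) := by
  unfold R avg
  apply Continuous.div_const
  apply continuous_finsetSum
  intro e _
  apply (p_cont p).comp
  exact Continuous.matrix_mulVec continuous_id continuous_const

lemma R_nonneg (p : Seminorm ℝ (Fin n → ℝ)) (u : Matrix (Fin n) (Fin n) ℝ) : 0 ≤ R p u := by
  unfold R avg
  positivity

lemma R_add (p : Seminorm ℝ (Fin n → ℝ)) (u v : Matrix (Fin n) (Fin n) ℝ) :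
    R p (u + v) ≤ R p u + R p v := by
  unfold R avg
  rw [← add_div, ← Finset.sum_add_distrib]
  gcongr with e _
  simp only
  rw [add_mulVec]
  exact map_add_le_add p _ _

lemma R_smul (p : Seminorm ℝ (Fin n → ℝ)) (s : ℝ) (u : Matrix (Fin n) (Fin n) ℝ) :
    R p (s • u) = |s| * R p u := by
  unfold R avg
  rw [← mul_div_assoc, Finset.mul_sum]
  congr 1
  apply Finset.sum_congr rfl
  intro e _
  simp only
  rw [smul_mulVec, map_smul_eq_mul, Real.norm_eq_abs]

/-- vanishing on all the sign vectors -/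
lemma eq_zero_of_sg {u : Matrix (Fin n) (Fin n) ℝ} (h : ∀ e, u *ᵥ sg e = 0) : u = 0 := by
  ext i j
  have h1 := congrFun (h fun _ => true) i
  have h2 := congrFun (h (Function.update (fun _ => true) j false)) i
  have h3 : (u *ᵥ sg fun _ => true) i - (u *ᵥ sg (Function.update (fun _ => true) j false)) i =
      2 * u i j := by
    simp only [mulVec, dotProduct, ← Finset.sum_sub_distrib]
    rw [Finset.sum_eq_single j]
    · simp [sg]; ring
    · intro b _ hb
      simp [sg, hb]
    · simp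
  rw [h1, h2] at h3
  simp at h3
  exact h3

lemma R_pos {p : Seminorm ℝ (Fin n → ℝ)} (hp : ∀ x, x ≠ 0 → 0 < p x)
    {u : Matrix (Fin n) (Fin n) ℝ} (hu : u ≠ 0) : 0 < R p u := by
  by_contra hc
  apply hu
  apply eq_zero_of_sg
  intro e
  by_contra he
  apply hc
  unfold R avg
  apply div_pos _ (by positivity)
  refine Finset.sum_pos' (fun i _ => apply_nonneg p _) ⟨e, Finset.mem_univ _, hp _ he⟩

end LewisAux

open LewisAux in
/-- Lewis. Proof: `R u = avg (fun e => p (u *ᵥ sg e))` is a norm on the matrices (if `R u = 0` then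
`u *ᵥ sg e = 0` for all `e`, so `u = 0`), so `{u | R u ≤ 1}` is compact and `det` has a maximum on it
at some `u`, with `det u > 0` (multiples of the identity). For every `w` and `s > 0` small:
`det (u + s w) ≤ (R (u + s w))^n det u ≤ (1 + s R w)^n det u` (homogeneity and maximality), i.e.
`det (1 + s u⁻¹ w) ≤ (1 + s R w)^n`; compare the derivatives at `s = 0`
(`Matrix.det_one_add_smul`, `trace`). -/
theorem lewis {n : ℕ} (hn : 1 ≤ n) (p : Seminorm ℝ (Fin n → ℝ)) (hp : ∀ x, x ≠ 0 → 0 < p x) :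
    ∃ u : Matrix (Fin n) (Fin n) ℝ, 0 < u.det ∧ avg (fun e => p (u *ᵥ sg e)) ≤ 1 ∧
      ∀ w : Matrix (Fin n) (Fin n) ℝ, (u⁻¹ * w).trace ≤ n * avg (fun e => p (w *ᵥ sg e)) := by
  classical
  have : Nonempty (Fin n) := ⟨⟨0, hn⟩⟩
  -- a lower bound on the unit sphere of the sup norm
  have hRlow : ∃ c : ℝ, 0 < c ∧ ∀ u : Fin n → Fin n → ℝ, c * ‖u‖ ≤ R p (Matrix.of u) := by
    have hsph : IsCompact (Metric.sphere (0 : Fin n → Fin n → ℝ) 1) := isCompact_sphere _ _
    have hne : (Metric.sphere (0 : Fin n → Fin n → ℝ) 1).Nonempty := by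
      refine ⟨fun _ _ => 1, ?_⟩
      rw [mem_sphere_zero_iff_norm]
      have h1 : ‖(fun _ _ => 1 : Fin n → Fin n → ℝ)‖ = ‖(fun _ => 1 : Fin n → ℝ)‖ :=
        pi_norm_const _
      rw [h1, pi_norm_const]
      simp
    obtain ⟨v, hv, hmin⟩ := hsph.exists_isMinOn hne
      (f := fun u : Fin n → Fin n → ℝ => R p (Matrix.of u)) ((R_cont p).continuousOn)
    have hv0 : (Matrix.of v) ≠ 0 := by
      intro h
      have : v = 0 := h
      rw [this] at hv
      simp at hv
    refine ⟨R p (Matrix.of v), R_pos hp hv0, ?_⟩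
    intro u
    by_cases hu : u = 0
    · subst hu
      simp [R_nonneg]
    have hu0 : 0 < ‖u‖ := norm_pos_iff.2 hu
    have h1 : (‖u‖⁻¹ • u) ∈ Metric.sphere (0 : Fin n → Fin n → ℝ) 1 := by
      rw [mem_sphere_zero_iff_norm, norm_smul, norm_inv, norm_norm, inv_mul_cancel₀ hu0.ne']
    have h2 : R p (Matrix.of v) ≤ R p (Matrix.of (‖u‖⁻¹ • u)) := hmin h1
    have h3 : R p (Matrix.of (‖u‖⁻¹ • u)) = ‖u‖⁻¹ * R p (Matrix.of u) := by
      have := R_smul p ‖u‖⁻¹ (Matrix.of u)
      rw [abs_of_pos (inv_pos.2 hu0)] at this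
      exact this
    rw [h3] at h2
    calc R p (Matrix.of v) * ‖u‖ ≤ ‖u‖⁻¹ * R p (Matrix.of u) * ‖u‖ := by gcongr
      _ = R p (Matrix.of u) := by field_simp
  obtain ⟨c, hc, hclow⟩ := hRlow
  have hK : IsCompact {u : Fin n → Fin n → ℝ | R p (Matrix.of u) ≤ 1} := by
    apply Metric.isCompact_of_isClosed_isBounded
    · exact isClosed_le (R_cont p) continuous_const
    · refine (Metric.isBounded_closedBall (x := (0 : Fin n → Fin n → ℝ)) (r := c⁻¹)).subset ?_
      intro u hu
      rw [mem_closedBall_zero_iff]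
      have h1 := hclow u
      have h2 : R p (Matrix.of u) ≤ 1 := hu
      rw [← one_div, le_div_iff₀ hc]
      linarith
  obtain ⟨u, huK, humax⟩ := hK.exists_isMaxOn ⟨0, by
      show R p (Matrix.of 0) ≤ 1
      have : R p (Matrix.of 0) = 0 := by
        have h := R_smul p 0 (Matrix.of (0 : Fin n → Fin n → ℝ))
        simpa using h
      rw [this]
      norm_num⟩ (f := fun u : Fin n → Fin n → ℝ => (Matrix.of u).det)
      (Continuous.matrix_det continuous_id).continuousOn
  set U : Matrix (Fin n) (Fin n) ℝ := Matrix.of u with hU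
  have hRU : R p U ≤ 1 := huK
  have hmax : ∀ v : Matrix (Fin n) (Fin n) ℝ, R p v ≤ 1 → v.det ≤ U.det := fun v hv => humax hv
  -- homogeneous form
  have hhom : ∀ v : Matrix (Fin n) (Fin n) ℝ, v.det ≤ R p v ^ n * U.det := by
    intro v
    by_cases hv : v = 0
    · subst hv
      have h1 : R p (0 : Matrix (Fin n) (Fin n) ℝ) = 0 := by
        have h := R_smul p 0 (0 : Matrix (Fin n) (Fin n) ℝ)
        simpa using h
      rw [h1, det_zero, zero_pow (by omega), zero_mul]
    · have h1 : 0 < R p v := R_pos hp hv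
      have h2 := hmax ((R p v)⁻¹ • v) (by
        rw [R_smul, abs_of_pos (inv_pos.2 h1), inv_mul_cancel₀ h1.ne'])
      rw [det_smul, Fintype.card_fin, inv_pow] at h2
      rwa [inv_mul_le_iff₀ (by positivity)] at h2
  have hdet : 0 < U.det := by
    have h1 := hhom 1
    rw [det_one] at h1
    by_contra hc
    have h2 : 0 ≤ R p (1 : Matrix (Fin n) (Fin n) ℝ) ^ n := pow_nonneg (R_nonneg _ _) _
    nlinarith
  refine ⟨U, hdet, hRU, ?_⟩
  intro w
  change (U⁻¹ * w).trace ≤ n * R p w
  set A := U⁻¹ * w with hA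
  have hUA : U * A = w := by
    rw [hA, ← Matrix.mul_assoc, mul_nonsing_inv _ (isUnit_iff_ne_zero.2 hdet.ne'), Matrix.one_mul]
  have hs : ∀ s : ℝ, 0 < s → det (1 + s • A) ≤ (1 + s * R p w) ^ n := by
    intro s hs
    have h1 := hhom (U + s • w)
    have h2 : U + s • w = U * (1 + s • A) := by
      rw [Matrix.mul_add, Matrix.mul_one, Matrix.mul_smul, hUA]
    rw [h2, det_mul] at h1
    have h3 : R p (U * (1 + s • A)) ≤ 1 + s * R p w := by
      rw [← h2]
      refine (R_add p _ _).trans ?_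
      rw [R_smul, abs_of_pos hs]
      linarith
    have h4 : R p (U * (1 + s • A)) ^ n ≤ (1 + s * R p w) ^ n :=
      pow_le_pow_left₀ (R_nonneg _ _) h3 n
    have h5 : U.det * det (1 + s • A) ≤ U.det * (1 + s * R p w) ^ n := by
      calc U.det * det (1 + s • A) ≤ _ := h1
        _ ≤ (1 + s * R p w) ^ n * U.det := by gcongr
        _ = _ := mul_comm _ _
    exact le_of_mul_le_mul_left h5 hdet
  set q := (det (1 + (Polynomial.X : Polynomial ℝ) • A.map Polynomial.C)).divX.divX with hq
  have hexp : ∀ s : ℝ, det (1 + s • A) = 1 + A.trace * s + q.eval s * s ^ 2 :=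
    fun s => det_one_add_smul s A
  -- the limits
  have hd : HasDerivAt (fun s : ℝ => (1 + s * R p w) ^ n) (n * R p w) 0 := by
    have h1 : HasDerivAt (fun s : ℝ => 1 + s * R p w) (R p w) 0 := by
      simpa using ((hasDerivAt_id (0 : ℝ)).mul_const (R p w)).const_add 1
    have h2 := h1.pow n
    have h3 : (fun s : ℝ => (1 + s * R p w) ^ n) = (fun s => 1 + s * R p w) ^ n := by
      funext s
      simp
    rw [h3]
    simpa using h2
  have ht1 : Tendsto (fun s : ℝ => ((1 + s * R p w) ^ n - 1) / s) (𝓝[>] 0) (𝓝 (n * R p w)) := by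
    have h1 := hd.hasDerivWithinAt (s := Ioi 0)
    rw [hasDerivWithinAt_iff_tendsto_slope' (by simp)] at h1
    refine h1.congr' ?_
    filter_upwards [self_mem_nhdsWithin] with s _
    rw [slope_def_field]
    simp
  have ht2 : Tendsto (fun s : ℝ => A.trace + q.eval s * s) (𝓝[>] 0) (𝓝 A.trace) := by
    have h1 : Continuous fun s : ℝ => A.trace + q.eval s * s := by
      have := q.continuous
      fun_prop
    have h2 := h1.tendsto 0
    simp only [mul_zero, add_zero] at h2
    exact h2.mono_left nhdsWithin_le_nhds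
  refine le_of_tendsto_of_tendsto ht2 ht1 ?_
  filter_upwards [self_mem_nhdsWithin] with s hs0
  have hs0' : 0 < s := hs0
  have h1 := hs s hs0'
  rw [hexp s] at h1
  rw [le_div_iff₀ hs0']
  nlinarith

end Pool.Agent.Lib.MP_ddd95a_nt.Mord
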