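import Pool.Agent.Lib.MP_ddd95a_nt.Mord.Defs

/-!
# The norm of a symmetric convex body
-/

open Matrix MeasureTheory Filter Set
open scoped ENNReal Topology

noncomputable section

namespace Pool.Agent.Lib.MP_ddd95a_nt.Mord

namespace NormAux

theorem balanced {n : ℕ} {K : Set (Fin n → ℝ)} (hc : Convex ℝ K) (hs : ∀ x ∈ K, -x ∈ K) :
    Balanced ℝ K := by
  rw [balanced_iff_smul_mem]
  intro a ha x hx
  rw [Real.norm_eq_abs, abs_le] at ha
  have h := hc hx (hs x hx) (a := (1 + a) / 2) (b := (1 - a) / 2) (by linarith) (by linarith)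
    (by ring)
  have h2 : ((1 + a) / 2) • x + ((1 - a) / 2) • (-x) = a • x := by
    rw [smul_neg, ← sub_eq_add_neg, ← sub_smul]
    congr 1
    ring
  rwa [h2] at h

theorem nhds_zero {n : ℕ} {K : Set (Fin n → ℝ)} (hK : IsCompact K) (hc : Convex ℝ K)
    (hs : ∀ x ∈ K, -x ∈ K) (hv : volume K ≠ 0) : K ∈ 𝓝 (0 : Fin n → ℝ) := by
  have h1 : (interior K).Nonempty := by
    rw [Set.nonempty_iff_ne_empty]
    intro h
    apply hv
    have h2 : volume (frontier K) = 0 := hc.addHaar_frontier volume
    rw [frontier, h, Set.sdiff_empty, hK.isClosed.closure_eq] at h2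
    exact h2
  obtain ⟨x, hx⟩ := h1
  have h3 : -x ∈ interior K := by
    have h4 : -K = K := by
      ext y
      rw [Set.mem_neg]
      exact ⟨fun h => by simpa using hs _ h, fun h => hs _ h⟩
    have h5 : -(interior K) = interior K := by
      have h6 := (Homeomorph.neg (Fin n → ℝ)).preimage_interior K
      change -(interior K) = interior (-K) at h6
      rw [h6, h4]
    rw [← h5, Set.mem_neg, neg_neg]
    exact hx
  have h7 := hc.interior hx h3 (a := 1 / 2) (b := 1 / 2) (by norm_num) (by norm_num) (by norm_num)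
  rw [smul_neg, add_neg_cancel] at h7
  exact mem_interior_iff_mem_nhds.mp h7

end NormAux

/-- The gauge of a compact convex symmetric set of positive volume (its interior is not empty and
contains `0`). -/
theorem exists_norm {n : ℕ} {K : Set (Fin n → ℝ)} (hK : IsCompact K) (hc : Convex ℝ K)
    (hs : ∀ x ∈ K, -x ∈ K) (hv : volume K ≠ 0) :
    ∃ p : Seminorm ℝ (Fin n → ℝ), (∀ x, x ≠ 0 → 0 < p x) ∧ ∀ x, p x ≤ 1 ↔ x ∈ K := by
  have h0 := NormAux.nhds_zero hK hc hs hv
  have hb := NormAux.balanced hc hs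
  have ha : Absorbent ℝ K := absorbent_nhds_zero h0
  refine ⟨gaugeSeminorm hb hc ha, ?_, ?_⟩
  · intro x hx
    exact (gauge_pos ha ((NormedSpace.isVonNBounded_iff ℝ).mpr hK.isBounded)).mpr hx
  · intro x
    have h1 := gauge_le_one_iff_mem_closure (x := x) hc h0
    rw [hK.isClosed.closure_eq] at h1
    exact h1

end Pool.Agent.Lib.MP_ddd95a_nt.Mord
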