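import Pool.Agent.Lib.MP_ddd95a_nt.Mord.PolyA

/-!
# Volumes of polytopes and averages over signs
-/

open Matrix MeasureTheory Filter Set
open scoped ENNReal Topology

noncomputable section

namespace Pool.Agent.Lib.MP_ddd95a_nt.Mord

variable {n : ℕ}

namespace PolyAux

/-- The sign of the coordinate `i` is changed. -/
def fl (i : Fin n) (e : Fin n → Bool) : Fin n → Bool := Function.update e i (!e i)

theorem fl_fl (i : Fin n) (e : Fin n → Bool) : fl i (fl i e) = e := by
  unfold fl
  funext j
  by_cases h : j = i
  · subst h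
    simp
  · simp [h]

theorem fl_comm {i j : Fin n} (hij : i ≠ j) (e : Fin n → Bool) :
    fl i (fl j e) = fl j (fl i e) := by
  unfold fl
  funext k
  by_cases h : k = i
  · subst h
    simp [hij]
  · by_cases h' : k = j
    · subst h'
      simp [hij.symm]
    · simp [h, h']

theorem avg_fl (H : (Fin n → Bool) → ℝ) (i : Fin n) : avg (fun e => H (fl i e)) = avg H := by
  unfold avg
  congr 1
  exact Equiv.sum_comp (Function.Involutive.toPerm (fl i) (fl_fl i)) H

theorem exists_inv (H : (Fin n → Bool) → ℝ) (S : Finset (Fin n)) :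
    ∃ H' : (Fin n → Bool) → ℝ, avg H' = avg H ∧
      volume {x : Fin n → ℝ | ∀ e, sg e ⬝ᵥ x ≤ H e} ≤
        volume {x : Fin n → ℝ | ∀ e, sg e ⬝ᵥ x ≤ H' e} ∧ ∀ i ∈ S, ∀ e, H' (fl i e) = H' e := by
  classical
  induction S using Finset.induction with
  | empty => exact ⟨H, rfl, le_rfl, by simp⟩
  | insert i S hi ih =>
    obtain ⟨H', h1, h2, h3⟩ := ih
    refine ⟨fun e => (H' e + H' (fl i e)) / 2, ?_, h2.trans (poly_step H' i), ?_⟩
    · have h4 : avg (fun e => (H' e + H' (fl i e)) / 2) =
          (avg H' + avg (fun e => H' (fl i e))) / 2 := by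
        unfold avg
        rw [← Finset.sum_div, Finset.sum_add_distrib]
        ring
      rw [h4, avg_fl, h1]
      ring
    · intro j hj e
      rw [Finset.mem_insert] at hj
      rcases hj with rfl | hj
      · simp only [fl_fl]
        ring
      · have hij : i ≠ j := by
          rintro rfl
          exact hi hj
        simp only [fl_comm hij, h3 j hj]

theorem const_of_inv (H : (Fin n → Bool) → ℝ) (h : ∀ i, ∀ e, H (fl i e) = H e)
    (e e' : Fin n → Bool) : H e = H e' := by
  classical
  have key : ∀ (S : Finset (Fin n)) (e e' : Fin n → Bool), (∀ i, i ∉ S → e i = e' i) →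
      H e = H e' := by
    intro S
    induction S using Finset.induction with
    | empty =>
      intro e e' he
      congr 1
      funext i
      exact he i (by simp)
    | insert i S hi ih =>
      intro e e' he
      have h1 : H (Function.update e i (e' i)) = H e := by
        by_cases h2 : e i = e' i
        · rw [← h2, Function.update_eq_self]
        · have h3 : e' i = !e i := by
            cases h4 : e i <;> cases h5 : e' i <;> simp_all
          rw [h3]
          exact h i e
      rw [← h1]
      refine ih _ _ fun j hj => ?_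
      by_cases h2 : j = i
      · subst h2
        simp
      · rw [Function.update_of_ne h2]
        exact he j (by simp [h2, hj])
  exact key Finset.univ e e' (by simp)

theorem avg_const (H : (Fin n → Bool) → ℝ) (h : ∀ e e', H e = H e') (e : Fin n → Bool) :
    H e = avg H := by
  unfold avg
  rw [Finset.sum_congr rfl fun e' _ => h e' e, Finset.sum_const, Finset.card_univ]
  simp

theorem vol_cross (n : ℕ) {c : ℝ} (hc : 0 ≤ c) :
    volume {x : Fin n → ℝ | ∀ e, sg e ⬝ᵥ x ≤ c} ≤
      ENNReal.ofReal ((2 * c) ^ n / (n.factorial : ℝ)) := by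
  rcases Nat.eq_zero_or_pos n with rfl | hn
  · refine (measure_mono (subset_univ _)).trans ?_
    rw [volume_pi, Measure.pi_univ]
    simp
  · haveI : Nonempty (Fin n) := ⟨⟨0, hn⟩⟩
    have h1 : {x : Fin n → ℝ | ∀ e, sg e ⬝ᵥ x ≤ c} ⊆
        {x : Fin n → ℝ | (∑ i, |x i| ^ (1 : ℝ)) ^ (1 / (1 : ℝ)) ≤ c} := by
      intro x hx
      have h2 := hx fun i => decide (0 ≤ x i)
      simp only [mem_ofPred_eq, Real.rpow_one, div_one]
      refine le_trans (le_of_eq ?_) h2
      unfold dotProduct sg
      refine Finset.sum_congr rfl fun i _ => ?_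
      by_cases h3 : 0 ≤ x i
      · simp [h3, abs_of_nonneg h3]
      · rw [not_le] at h3
        simp [not_le.2 h3, abs_of_neg h3]
    refine (measure_mono h1).trans ?_
    rw [MeasureTheory.volume_sum_rpow_le (Fin n) (le_refl (1 : ℝ)) c, Fintype.card_fin]
    have e1 : Real.Gamma (1 / 1 + 1) = 1 := by
      norm_num
    have e2 : Real.Gamma ((n : ℝ) / 1 + 1) = n.factorial := by
      rw [div_one]
      exact Real.Gamma_nat_eq_factorial n
    rw [e1, e2, ← ENNReal.ofReal_pow hc, ← ENNReal.ofReal_mul (by positivity)]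
    refine le_of_eq ?_
    congr 1
    ring

end PolyAux

open PolyAux

/-- After averaging over all the coordinates the right hand sides are all equal to `avg H`
(`poly_step` for `i = 0, …, n-1`), and the polytope is `{x | ∑ |x i| ≤ avg H}`, of volume
`(2 avg H)^n / n!` (`MeasureTheory.volume_sum_rpow_le` or by induction). -/
theorem poly_vol (H : (Fin n → Bool) → ℝ) (hH : ∀ e, 0 ≤ H e) :
    volume {x : Fin n → ℝ | ∀ e, sg e ⬝ᵥ x ≤ H e} ≤
      ENNReal.ofReal ((2 * avg H) ^ n / (n.factorial : ℝ)) := by
  obtain ⟨H', h1, h2, h3⟩ := exists_inv H Finset.univ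
  have h4 : ∀ e, H' e = avg H := fun e =>
    (avg_const H' (const_of_inv H' fun i e => h3 i (Finset.mem_univ i) e) e).trans h1
  have h5 : 0 ≤ avg H := by
    unfold avg
    exact div_nonneg (Finset.sum_nonneg fun e _ => hH e) (by positivity)
  refine h2.trans ?_
  simp only [h4]
  exact vol_cross n h5

end Pool.Agent.Lib.MP_ddd95a_nt.Mord
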