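import Pool.Agent.Lib.MP_ddd95a_nt.Mord.RedStep

/-!
# The inequality of Hermite
-/

open Matrix MeasureTheory Filter Set
open scoped ENNReal Topology

noncomputable section

namespace Pool.Agent.Lib.MP_ddd95a_nt.Mord

/-- Hermite. Induction on `k` with `red_step`: `gr V = q gr V''`, `c ≤ q`, and `V''` satisfies the
hypothesis with `3/4 q`, so `gr V'' ≥ (3/4)^(k²) (3/4 q)^k`. (`gr V'' > 0` as `gr V > 0`.) -/
theorem herm (n k : ℕ) : ∀ (V : Matrix (Fin n) (Fin k) ℝ) (c : ℝ), 0 < c → 0 < gr V →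
    (∀ x : Fin k → ℤ, x ≠ 0 → c ≤ qf V (zc x)) → (3 / 4 : ℝ) ^ (k ^ 2) * c ^ k ≤ gr V := by
  induction k with
  | zero =>
    intro V c _ _ _
    unfold gr
    rw [Matrix.det_fin_zero]
    norm_num
  | succ k ih =>
    intro V c hc hV h
    obtain ⟨U, q, V'', μ, _, hq, _, ⟨x, hx, hxq⟩, _, _, _, hgr, hV''⟩ := red_step V hV
    have hcq : c ≤ q := by rw [← hxq]; exact h x hx
    have hpos : 0 < gr V'' := by
      rw [hgr] at hV
      exact (mul_pos_iff_of_pos_left hq).1 hV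
    have h1 := ih V'' (3 / 4 * q) (by positivity) hpos hV''
    rw [hgr]
    have h2 : (3 / 4 : ℝ) ^ ((k + 1) ^ 2) ≤ (3 / 4 : ℝ) ^ (k ^ 2 + k) :=
      pow_le_pow_of_le_one (by norm_num) (by norm_num) (by nlinarith)
    have h3 : c ^ (k + 1) ≤ q ^ (k + 1) := pow_le_pow_left₀ hc.le hcq _
    calc (3 / 4 : ℝ) ^ ((k + 1) ^ 2) * c ^ (k + 1)
        ≤ (3 / 4 : ℝ) ^ (k ^ 2 + k) * q ^ (k + 1) := by
          refine mul_le_mul h2 h3 (by positivity) (by positivity)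
      _ = q * ((3 / 4 : ℝ) ^ (k ^ 2) * (3 / 4 * q) ^ k) := by
          rw [pow_add, mul_pow, pow_succ]
          ring
      _ ≤ q * gr V'' := mul_le_mul_of_nonneg_left h1 hq.le

end Pool.Agent.Lib.MP_ddd95a_nt.Mord
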