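import Pool.Agent.Lib.MP_ddd95a_nt.Mord.Defs

/-!
# Auerbach coordinates
-/

open Matrix MeasureTheory Filter Set
open scoped ENNReal Topology

noncomputable section

namespace Pool.Agent.Lib.MP_ddd95a_nt.Mord

namespace AuerAux

lemma seminorm_sum_le {n : ℕ} (p : Seminorm ℝ (Fin n → ℝ)) (c : Fin n → ℝ)
    (u : Fin n → (Fin n → ℝ)) : p (∑ i, c i • u i) ≤ ∑ i, |c i| * p (u i) := by
  refine (Finset.le_sum_of_subadditive (fun x => p x) (map_zero p).le (fun x y => map_add_le_add p x y)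
    Finset.univ (fun i => c i • u i)).trans (le_of_eq ?_)
  refine Finset.sum_congr rfl fun i _ => ?_
  rw [map_smul_eq_mul, Real.norm_eq_abs]

lemma bound_above {n : ℕ} (p : Seminorm ℝ (Fin n → ℝ)) :
    ∃ C : ℝ, 0 ≤ C ∧ ∀ x, p x ≤ C * ‖x‖ := by
  refine ⟨∑ i, p (Pi.single i 1), Finset.sum_nonneg fun i _ => apply_nonneg p _, fun x => ?_⟩
  have hx : x = ∑ i, x i • (Pi.single i (1 : ℝ) : Fin n → ℝ) := by
    funext j
    simp [Finset.sum_apply, Pi.single_apply]
  calc p x = p (∑ i, x i • (Pi.single i (1 : ℝ) : Fin n → ℝ)) := by rw [← hx]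
    _ ≤ ∑ i, |x i| * p (Pi.single i 1) := seminorm_sum_le p _ _
    _ ≤ ∑ i, ‖x‖ * p (Pi.single i 1) := by
        refine Finset.sum_le_sum fun i _ => mul_le_mul_of_nonneg_right ?_ (apply_nonneg p _)
        exact norm_le_pi_norm x i
    _ = _ := by rw [← Finset.mul_sum, mul_comm]

lemma cont {n : ℕ} (p : Seminorm ℝ (Fin n → ℝ)) : Continuous fun x => p x := by
  obtain ⟨C, hC, h⟩ := bound_above p
  refine (LipschitzWith.of_le_add_mul (⟨C, hC⟩ : NNReal) fun x y => ?_).continuous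
  have h1 : p x ≤ p y + p (x - y) := by
    have := map_add_le_add p y (x - y)
    rwa [add_sub_cancel] at this
  have h2 := h (x - y)
  rw [dist_eq_norm]
  exact h1.trans (add_le_add le_rfl h2)

lemma bound_below {n : ℕ} (p : Seminorm ℝ (Fin n → ℝ)) (hp : ∀ x, x ≠ 0 → 0 < p x) :
    ∃ c : ℝ, 0 < c ∧ ∀ x, c * ‖x‖ ≤ p x := by
  by_cases h : (Metric.sphere (0 : Fin n → ℝ) 1).Nonempty
  · obtain ⟨x0, hx0, hmin⟩ := (isCompact_sphere (0 : Fin n → ℝ) 1).exists_isMinOn h
      (cont p).continuousOn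
    have hx0' : x0 ≠ 0 := by
      rintro rfl
      simp at hx0
    refine ⟨p x0, hp _ hx0', fun x => ?_⟩
    by_cases hx : x = 0
    · simp [hx]
    · have hn : 0 < ‖x‖ := norm_pos_iff.2 hx
      have h1 : (‖x‖⁻¹ • x) ∈ Metric.sphere (0 : Fin n → ℝ) 1 := by
        rw [mem_sphere_zero_iff_norm, norm_smul, norm_inv, norm_norm, inv_mul_cancel₀ hn.ne']
      have h2 := hmin h1
      simp only [mem_ofPred_eq] at h2
      rw [map_smul_eq_mul, norm_inv, norm_norm] at h2
      calc p x0 * ‖x‖ ≤ (‖x‖⁻¹ * p x) * ‖x‖ := mul_le_mul_of_nonneg_right h2 hn.le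
        _ = p x := by field_simp
  · refine ⟨1, one_pos, fun x => ?_⟩
    have hx : x = 0 := by
      by_contra hx
      have hn : 0 < ‖x‖ := norm_pos_iff.2 hx
      exact h ⟨‖x‖⁻¹ • x, by
        rw [mem_sphere_zero_iff_norm, norm_smul, norm_inv, norm_norm, inv_mul_cancel₀ hn.ne']⟩
    simp [hx]

/-- The matrices whose columns are in the unit ball of `p`. -/
def K {n : ℕ} (p : Seminorm ℝ (Fin n → ℝ)) : Set (Matrix (Fin n) (Fin n) ℝ) :=
  {M | ∀ j, p (fun i => M i j) ≤ 1}

lemma isCompact_K {n : ℕ} (p : Seminorm ℝ (Fin n → ℝ)) (hp : ∀ x, x ≠ 0 → 0 < p x) :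
    IsCompact (K p) := by
  obtain ⟨c, hc, h⟩ := bound_below p hp
  have hcl : IsClosed (K p) := by
    have : K p = ⋂ j, {M : Matrix (Fin n) (Fin n) ℝ | p (fun i => M i j) ≤ 1} := by
      ext M; simp [K]
    rw [this]
    refine isClosed_iInter fun j => isClosed_le ((cont p).comp ?_) continuous_const
    exact continuous_pi fun i => continuous_id.matrix_elem i j
  have hbox : IsCompact (Set.pi univ fun _ : Fin n => Set.pi univ fun _ : Fin n =>
      Icc (-c⁻¹) c⁻¹ : Set (Fin n → Fin n → ℝ)) :=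
    isCompact_univ_pi fun _ => isCompact_univ_pi fun _ => isCompact_Icc
  refine IsCompact.of_isClosed_subset hbox hcl ?_
  intro M hM i _ j _
  have h1 := h (fun i => M i j)
  have h2 : |M i j| ≤ ‖fun i => M i j‖ := norm_le_pi_norm (fun i => M i j) i
  have h3 := hM j
  have h4 : |M i j| ≤ c⁻¹ := by
    rw [← one_div, le_div_iff₀ hc]
    nlinarith
  exact abs_le.1 h4

end AuerAux

/-- Auerbach. Proof: choose `v₁, …, v_n` in the unit ball of `p` (compact, since `p` is a norm on a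
finite dimensional space) with maximal `|det (v₁ … v_n)|`, which is positive; let `V` be the inverse of
the matrix with the columns `v_i`. By Cramer's rule `|(V x)_i| = |det (.. x ..)| / |det (.. v_i ..)| ≤
p x`, and `p x = p (∑ (V x)_i v_i) ≤ ∑ |(V x)_i|`. -/
theorem auerbach {n : ℕ} (p : Seminorm ℝ (Fin n → ℝ)) (hp : ∀ x, x ≠ 0 → 0 < p x) :
    ∃ V : Matrix (Fin n) (Fin n) ℝ, V.det ≠ 0 ∧
      ∀ x, (∀ i, |(V *ᵥ x) i| ≤ p x) ∧ p x ≤ ∑ i, |(V *ᵥ x) i| := by
  obtain ⟨C, hC, hCp⟩ := AuerAux.bound_above p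
  have hne : (AuerAux.K p).Nonempty := ⟨0, fun j => by
    have : (fun i => (0 : Matrix (Fin n) (Fin n) ℝ) i j) = 0 := rfl
    rw [this, map_zero]; exact zero_le_one⟩
  obtain ⟨M, hM, hmax⟩ := (AuerAux.isCompact_K p hp).exists_isMaxOn hne
    (continuous_id.matrix_det.abs.continuousOn)
  have hmax' : ∀ N ∈ AuerAux.K p, |N.det| ≤ |M.det| := fun N hN => hmax hN
  have hdet : M.det ≠ 0 := by
    have hC1 : 0 < C + 1 := by linarith
    have h1 : ((C + 1)⁻¹ • (1 : Matrix (Fin n) (Fin n) ℝ)) ∈ AuerAux.K p := by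
      intro j
      refine (hCp _).trans ?_
      have h2 : ‖fun i => ((C + 1)⁻¹ • (1 : Matrix (Fin n) (Fin n) ℝ)) i j‖ ≤ (C + 1)⁻¹ := by
        rw [pi_norm_le_iff_of_nonneg (by positivity)]
        intro i
        rw [Matrix.smul_apply, smul_eq_mul, norm_mul, norm_inv, Real.norm_of_nonneg hC1.le]
        refine mul_le_of_le_one_right (by positivity) ?_
        rw [Matrix.one_apply]
        split_ifs <;> simp
      calc C * _ ≤ C * (C + 1)⁻¹ := mul_le_mul_of_nonneg_left h2 hC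
        _ ≤ 1 := by
          rw [mul_inv_le_iff₀ hC1]
          linarith
    have h3 := hmax' _ h1
    intro h0
    rw [h0, abs_zero, Matrix.det_smul, Matrix.det_one, mul_one, abs_pow] at h3
    have : 0 < |(C + 1)⁻¹| ^ Fintype.card (Fin n) := by positivity
    linarith
  have hunit : IsUnit M.det := isUnit_iff_ne_zero.2 hdet
  refine ⟨M⁻¹, ?_, fun x => ⟨fun i => ?_, ?_⟩⟩
  · rw [Matrix.det_nonsing_inv]
    simpa using hdet
  · have hcr : (M⁻¹ *ᵥ x) i = (M.updateCol i x).det / M.det := by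
      have h1 : M⁻¹ *ᵥ x = M.det⁻¹ • M.cramer x := by
        rw [Matrix.inv_def, Matrix.smul_mulVec, Ring.inverse_eq_inv',
          ← Matrix.cramer_eq_adjugate_mulVec]
      rw [h1, Pi.smul_apply, Matrix.cramer_apply, smul_eq_mul]
      ring
    by_cases hx : x = 0
    · rw [hx, Matrix.mulVec_zero, map_zero]; simp
    · have hpx := hp x hx
      have h1 : M.updateCol i ((p x)⁻¹ • x) ∈ AuerAux.K p := by
        intro j
        by_cases hj : j = i
        · have : (fun k => M.updateCol i ((p x)⁻¹ • x) k j) = (p x)⁻¹ • x := by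
            funext k
            rw [hj, Matrix.updateCol_self]
          rw [this, map_smul_eq_mul, norm_inv, Real.norm_of_nonneg hpx.le,
            inv_mul_cancel₀ hpx.ne']
        · have : (fun k => M.updateCol i ((p x)⁻¹ • x) k j) = fun k => M k j := by
            funext k
            rw [Matrix.updateCol_ne hj]
          rw [this]
          exact hM j
      have h2 := hmax' _ h1
      rw [Matrix.det_updateCol_smul, abs_mul, abs_inv, abs_of_pos hpx] at h2
      rw [hcr, abs_div, div_le_iff₀ (abs_pos.2 hdet)]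
      calc |(M.updateCol i x).det| = p x * ((p x)⁻¹ * |(M.updateCol i x).det|) := by
            field_simp
        _ ≤ p x * |M.det| := mul_le_mul_of_nonneg_left h2 hpx.le
  · have h1 : x = ∑ j, (M⁻¹ *ᵥ x) j • (fun i => M i j) := by
      have h2 : M *ᵥ (M⁻¹ *ᵥ x) = x := by
        rw [Matrix.mulVec_mulVec, Matrix.mul_nonsing_inv _ hunit, Matrix.one_mulVec]
      conv_lhs => rw [← h2]
      funext i
      rw [Finset.sum_apply]
      simp only [Matrix.mulVec, dotProduct, Pi.smul_apply, smul_eq_mul]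
      exact Finset.sum_congr rfl fun j _ => mul_comm _ _
    calc p x = p (∑ j, (M⁻¹ *ᵥ x) j • (fun i => M i j)) := by rw [← h1]
      _ ≤ ∑ j, |(M⁻¹ *ᵥ x) j| * p (fun i => M i j) := AuerAux.seminorm_sum_le p _ _
      _ ≤ ∑ j, |(M⁻¹ *ᵥ x) j| := by
        refine Finset.sum_le_sum fun j _ => ?_
        exact mul_le_of_le_one_right (abs_nonneg _) (hM j)

end Pool.Agent.Lib.MP_ddd95a_nt.Mord
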