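import Mathlib

/-!
# Mordell's inverse problem in large dimensions: definitions
-/

open Matrix MeasureTheory
open scoped ENNReal

noncomputable section

namespace Pool.Agent.Lib.MP_ddd95a_nt.Mord

/-- The real vector with the integer coordinates `m`. -/
def zc {ι : Type*} (m : ι → ℤ) : ι → ℝ := fun i => (m i : ℝ)

/-- The real matrix with the integer entries `v`. -/
def rm {ι κ : Type*} (v : Matrix ι κ ℤ) : Matrix ι κ ℝ := v.map fun a => (a : ℝ)

/-- The square of the length of `g x`. -/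
def qf {ι κ : Type*} [Fintype ι] [Fintype κ] (g : Matrix ι κ ℝ) (x : κ → ℝ) : ℝ :=
  ∑ i, (g *ᵥ x) i ^ 2

/-- The Gram determinant of the columns of `V`. -/
def gr {ι κ : Type*} [Fintype ι] [Fintype κ] [DecidableEq κ] (V : Matrix ι κ ℝ) : ℝ :=
  (Vᵀ * V).det

/-- The columns of the integer matrix `v` are linearly independent. -/
def Nd {ι κ : Type*} [Fintype ι] [Fintype κ] [DecidableEq κ] (v : Matrix ι κ ℤ) : Prop :=
  (vᵀ * v).det ≠ 0

/-- The lattice spanned by the columns of `g` has covolume `1` and is stable: all its sublattices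
have covolume at least `1`. -/
def Stable {ι : Type*} [Fintype ι] [DecidableEq ι] (g : Matrix ι ι ℝ) : Prop :=
  |g.det| = 1 ∧ ∀ (k : ℕ) (v : Matrix ι (Fin k) ℤ), Nd v → 1 ≤ gr (g * rm v)

/-- The Gaussian weight `exp (- |g x|² / 2)`. -/
def gw {ι : Type*} [Fintype ι] (g : Matrix ι ι ℝ) (x : ι → ℝ) : ℝ≥0∞ :=
  ENNReal.ofReal (Real.exp (-(qf g x) / 2))

/-- The standard Gaussian measure of the image of `S` under `g`. -/
def J {ι : Type*} [Fintype ι] [DecidableEq ι] (g : Matrix ι ι ℝ) (S : Set (ι → ℝ)) : ℝ≥0∞ :=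
  ENNReal.ofReal (|g.det| / Real.sqrt (2 * Real.pi) ^ Fintype.card ι) * ∫⁻ x in S, gw g x

/-- The Voronoi cell of `ℤ^ι` for the quadratic form `|g x|²`. -/
def vor {ι : Type*} [Fintype ι] (g : Matrix ι ι ℝ) : Set (ι → ℝ) :=
  {x | ∀ m : ι → ℤ, qf g x ≤ qf g (x - zc m)}

/-- The Gaussian measure of the Voronoi cell of the lattice spanned by the columns of `g`. -/
def F {ι : Type*} [Fintype ι] [DecidableEq ι] (g : Matrix ι ι ℝ) : ℝ≥0∞ := J g (vor g)

/-- The orbit of the matrix `h` under the diagonal matrices of determinant one with positive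
entries (on the left) and the integer matrices of determinant one (on the right). -/
def orb {n : ℕ} (h : Matrix (Fin n) (Fin n) ℝ) : Set (Matrix (Fin n) (Fin n) ℝ) :=
  {g | ∃ a : Fin n → ℝ, (∀ i, 0 < a i) ∧ ∏ i, a i = 1 ∧
    ∃ u : Matrix (Fin n) (Fin n) ℤ, u.det = 1 ∧ g = diagonal a * h * rm u}

/-- All proper sublattices of rank `k` have squared covolume at least `c w^(-k(n-k))`. -/
def Low {n : ℕ} (w c : ℝ) (g : Matrix (Fin n) (Fin n) ℝ) : Prop :=
  ∀ k, 1 ≤ k → k < n → ∀ v : Matrix (Fin n) (Fin k) ℤ, Nd v →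
    c ≤ gr (g * rm v) * w ^ (k * (n - k))

/-- The sublattice spanned by the columns of `g v` attains the value `c`. -/
def Act {n : ℕ} (w c : ℝ) (g : Matrix (Fin n) (Fin n) ℝ) {k : ℕ}
    (v : Matrix (Fin n) (Fin k) ℤ) : Prop :=
  1 ≤ k ∧ k < n ∧ Nd v ∧ gr (g * rm v) * w ^ (k * (n - k)) = c

/-- The rows of `g` are multiplied by `exp (θ i)`. -/
def tilt {n : ℕ} (θ : Fin n → ℝ) (g : Matrix (Fin n) (Fin n) ℝ) : Matrix (Fin n) (Fin n) ℝ :=
  diagonal (fun i => Real.exp (θ i)) * g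

/-- Half the derivative of the Gram determinant of `tilt θ V` at `θ = 0`. -/
def der {n k : ℕ} (V : Matrix (Fin n) (Fin k) ℝ) (θ : Fin n → ℝ) : ℝ :=
  (∑ f : Fin k → Fin n, (∑ a, θ (f a)) * (V.submatrix f id).det ^ 2) / (k.factorial : ℝ)

/-- The vector of signs. -/
def sg {n : ℕ} (e : Fin n → Bool) : Fin n → ℝ := fun i => if e i then 1 else -1

/-- The average over the cube of signs. -/
def avg {n : ℕ} (φ : (Fin n → Bool) → ℝ) : ℝ := (∑ e, φ e) / 2 ^ n

/-- The Rademacher projection of `f`. -/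
def rad {n : ℕ} (f : (Fin n → Bool) → Fin n → ℝ) (e : Fin n → Bool) : Fin n → ℝ :=
  fun a => ∑ i, avg (fun e' => f e' a * sg e' i) * sg e i

end Pool.Agent.Lib.MP_ddd95a_nt.Mord
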