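import Pool.Agent.Lib.MP_ddd95a_nt.Mg.G002

/-!
# The Voronoi cell tiles the space
-/

open Matrix MeasureTheory Filter Set
open scoped ENNReal Topology

noncomputable section

namespace Pool.Agent.Lib.MP_ddd95a_nt.Mord

variable {ι : Type*} [Fintype ι] [DecidableEq ι]

namespace VorTAux

omit [Fintype ι] [DecidableEq ι] in
lemma zc_sub (m m' : ι → ℤ) : zc (m - m') = zc m - zc m' := by
  funext i
  simp [zc]

lemma meas (g : Matrix ι ι ℝ) (m : ι → ℤ) : MeasurableSet {x | x - zc m ∈ vor g} :=
  ((vor_isClosed g).preimage (continuous_id.sub continuous_const)).measurableSet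

lemma cover {g : Matrix ι ι ℝ} (hg : g.det ≠ 0) :
    (⋃ m : ι → ℤ, {x | x - zc m ∈ vor g}) = univ := by
  rw [eq_univ_iff_forall]
  intro x
  obtain ⟨m, hm⟩ := vor_cover hg x
  exact mem_iUnion.2 ⟨m, hm⟩

lemma aedisj {g : Matrix ι ι ℝ} (hg : g.det ≠ 0) :
    Pairwise (Function.onFun (AEDisjoint (volume : Measure (ι → ℝ)))
      (fun m : ι → ℤ => {x | x - zc m ∈ vor g})) := by
  intro m m' hmm
  change volume ({x | x - zc m ∈ vor g} ∩ {x | x - zc m' ∈ vor g}) = 0
  have h1 : {x | x - zc m ∈ vor g} ∩ {x | x - zc m' ∈ vor g} =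
      (fun x => x + (-zc m)) ⁻¹' (vor g ∩ {x | x - zc (m' - m) ∈ vor g}) := by
    ext x
    simp only [mem_inter_iff, mem_ofPred_eq, mem_preimage]
    have h2 : x + -zc m - zc (m' - m) = x - zc m' := by
      rw [zc_sub]
      abel
    rw [h2, ← sub_eq_add_neg]
  rw [h1, measure_preimage_add_right]
  exact vor_disj hg (sub_ne_zero.2 hmm.symm)

end VorTAux

open VorTAux in
/-- The cell tiles the space (`vor_cover`, `vor_disj`). For instance show that it is a fundamental
domain (`MeasureTheory.IsAddFundamentalDomain`) for the group of integer vectors, or directly: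
`lintegral_iUnion_ae` for the translates `{x | x - zc m ∈ vor g}` and translation invariance. -/
theorem vor_tile {g : Matrix ι ι ℝ} (hg : g.det ≠ 0) (f : (ι → ℝ) → ℝ≥0∞) (hf : Measurable f) :
    ∫⁻ x, f x = ∑' m : ι → ℤ, ∫⁻ x in vor g, f (x + zc m) := by
  have h1 : ∫⁻ x, f x = ∑' m : ι → ℤ, ∫⁻ x in {x | x - zc m ∈ vor g}, f x := by
    rw [← lintegral_iUnion₀ (fun m => (meas g m).nullMeasurableSet) (aedisj hg) f, cover hg,
      Measure.restrict_univ]
  rw [h1]
  congr 1
  funext m
  rw [← lintegral_indicator (meas g m), ← lintegral_indicator (vor_isClosed g).measurableSet,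
    ← lintegral_add_right_eq_self _ (zc m)]
  congr 1
  funext x
  by_cases hx : x ∈ vor g
  · rw [indicator_of_mem hx, indicator_of_mem]
    change x + zc m - zc m ∈ vor g
    rwa [add_sub_cancel_right]
  · rw [indicator_of_notMem hx, indicator_of_notMem]
    change ¬ (x + zc m - zc m ∈ vor g)
    rwa [add_sub_cancel_right]

/-- The volume of the cell is one: apply `vor_tile` to the indicator function of the cube
`{x | ∀ i, 0 ≤ x i ∧ x i < 1}`, whose integer translates are a partition of the space. -/
theorem vor_volume {g : Matrix ι ι ℝ} (hg : g.det ≠ 0) : volume (vor g) = 1 := by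
  set C : Set (ι → ℝ) := Set.pi univ (fun _ : ι => Set.Ico (0 : ℝ) 1) with hC
  have hCm : MeasurableSet C := MeasurableSet.univ_pi fun _ => measurableSet_Ico
  have hCv : volume C = 1 := by
    rw [hC, Real.volume_pi_Ico]
    simp
  have hmeas : Measurable (C.indicator (fun _ => (1 : ℝ≥0∞))) :=
    measurable_const.indicator hCm
  have h1 := vor_tile hg (C.indicator (fun _ => (1 : ℝ≥0∞))) hmeas
  rw [lintegral_indicator_const hCm, hCv, mul_one] at h1
  rw [← lintegral_tsum] at h1
  · have h2 : ∀ x : ι → ℝ, ∑' m : ι → ℤ, C.indicator (fun _ => (1 : ℝ≥0∞)) (x + zc m) = 1 := by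
      intro x
      rw [tsum_eq_single (fun i => -⌊x i⌋)]
      · rw [indicator_of_mem]
        rw [hC, mem_univ_pi]
        intro i
        have h3 := Int.floor_le (x i)
        have h4 := Int.lt_floor_add_one (x i)
        simp only [Pi.add_apply, zc, Int.cast_neg, mem_Ico]
        constructor <;> linarith
      · intro m hm
        rw [indicator_of_notMem]
        intro hmem
        apply hm
        funext i
        rw [hC, mem_univ_pi] at hmem
        have h3 := hmem i
        simp only [Pi.add_apply, zc, mem_Ico] at h3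
        have h4 : ⌊x i⌋ = -m i := by
          rw [Int.floor_eq_iff]
          push_cast
          constructor <;> linarith [h3.1, h3.2]
        omega
    rw [lintegral_congr h2, lintegral_one, Measure.restrict_apply_univ] at h1
    exact h1.symm
  · intro m
    exact (hmeas.comp (measurable_id.add_const (zc m))).aemeasurable

end Pool.Agent.Lib.MP_ddd95a_nt.Mord
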