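import Pool.Agent.Lib.MP_ddd95a_nt.Mg.G001

/-!
# Block triangular form
-/

open Matrix MeasureTheory Filter Set
open scoped ENNReal Topology

noncomputable section

namespace Pool.Agent.Lib.MP_ddd95a_nt.Mord

namespace CholAux

open scoped MatrixOrder ComplexOrder in
lemma sqr {α : Type*} [Fintype α] [DecidableEq α] {P : Matrix α α ℝ} (hP : P.PosSemidef) :
    ∃ A : Matrix α α ℝ, Aᵀ * A = P := by
  obtain ⟨B, hB⟩ := CStarAlgebra.nonneg_iff_eq_star_mul_self.mp hP.nonneg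
  refine ⟨B, ?_⟩
  rw [hB, Matrix.star_eq_conjTranspose, Matrix.conjTranspose_eq_transpose_of_trivial]

end CholAux

/-- Cholesky: for an invertible block matrix `W` (columns indexed by `α ⊕ β`) there is a block triangular
matrix with the same Gram matrix. Proof: write `Wᵀ W = fromBlocks P Q Qᵀ R` with `P` positive
definite; `A` with `Aᵀ A = P` (`CStarAlgebra.nonneg_iff_eq_star_mul_self`), invertible; `B = A⁻ᵀ Q`; and
the Schur complement `R - Qᵀ P⁻¹ Q` is positive definite, equal to `Cᵀ C`. -/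
theorem block_tri {α β γ : Type*} [Fintype α] [DecidableEq α] [Fintype β] [DecidableEq β]
    [Fintype γ] [DecidableEq γ] (W : Matrix γ (α ⊕ β) ℝ) (hW : 0 < gr W) :
    ∃ (A : Matrix α α ℝ) (B : Matrix α β ℝ) (C : Matrix β β ℝ),
      (fromBlocks A B 0 C)ᵀ * fromBlocks A B 0 C = Wᵀ * W ∧ A.det ≠ 0 ∧ C.det ≠ 0 := by
  have hps : (Wᵀ * W).PosSemidef := by
    have := Matrix.posSemidef_conjTranspose_mul_self W
    rwa [Matrix.conjTranspose_eq_transpose_of_trivial] at this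
  have hdet : (Wᵀ * W).det ≠ 0 := hW.ne'
  have hpd : (Wᵀ * W).PosDef := hps.posDef_iff_det_ne_zero.2 hdet
  set M := Wᵀ * W with hM
  set P := M.toBlocks₁₁ with hP
  set Q := M.toBlocks₁₂ with hQ
  set R := M.toBlocks₂₂ with hR
  have hMT : Mᵀ = M := by
    have := hps.1
    rwa [Matrix.IsHermitian, Matrix.conjTranspose_eq_transpose_of_trivial] at this
  have h21 : M.toBlocks₂₁ = Qᵀ := by
    ext i j
    have := congrFun (congrFun hMT (Sum.inr i)) (Sum.inl j)
    exact this.symm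
  have hblock : M = fromBlocks P Q Qᵀ R := by
    rw [← h21]
    exact (Matrix.fromBlocks_toBlocks M).symm
  have hPd : P.PosDef := hpd.submatrix (e := Sum.inl) Sum.inl_injective
  have hPdet : P.det ≠ 0 := hPd.det_pos.ne'
  obtain ⟨A, hA⟩ := CholAux.sqr hPd.posSemidef
  have hAdet : A.det ≠ 0 := by
    intro h0
    apply hPdet
    rw [← hA, Matrix.det_mul, h0, mul_zero]
  have hAu : IsUnit Aᵀ.det := by
    rw [Matrix.det_transpose]; exact isUnit_iff_ne_zero.2 hAdet
  have hPT : Pᵀ = P := by rw [← hA, Matrix.transpose_mul, Matrix.transpose_transpose]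
  have : Invertible P := Matrix.invertibleOfIsUnitDet P (isUnit_iff_ne_zero.2 hPdet)
  have hS : (R - Qᵀ * P⁻¹ * Q).PosSemidef := by
    have h1 := (Matrix.PosDef.fromBlocks₁₁ Q R hPd)
    rw [Matrix.conjTranspose_eq_transpose_of_trivial] at h1
    rw [← h1, ← hblock]
    exact hps
  obtain ⟨C, hC⟩ := CholAux.sqr hS
  have hB : Aᵀ * (Aᵀ⁻¹ * Q) = Q := by
    rw [← Matrix.mul_assoc, Matrix.mul_nonsing_inv _ hAu, Matrix.one_mul]
  have hBB : (Aᵀ⁻¹ * Q)ᵀ * (Aᵀ⁻¹ * Q) = Qᵀ * P⁻¹ * Q := by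
    have h1 : P⁻¹ = A⁻¹ * Aᵀ⁻¹ := by rw [← hA, Matrix.mul_inv_rev]
    rw [h1, Matrix.transpose_mul, Matrix.transpose_nonsing_inv, Matrix.transpose_transpose]
    simp only [Matrix.mul_assoc]
  have hmain : (fromBlocks A (Aᵀ⁻¹ * Q) 0 C)ᵀ * fromBlocks A (Aᵀ⁻¹ * Q) 0 C = M := by
    rw [Matrix.fromBlocks_transpose, Matrix.fromBlocks_multiply, hblock]
    congr 1
    · rw [Matrix.transpose_zero, Matrix.zero_mul, add_zero, hA]
    · rw [Matrix.transpose_zero, Matrix.zero_mul, add_zero, hB]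
    · rw [Matrix.mul_zero, add_zero]
      have := congrArg Matrix.transpose hB
      rwa [Matrix.transpose_mul, Matrix.transpose_transpose] at this
    · rw [hBB, hC]
      abel
  refine ⟨A, Aᵀ⁻¹ * Q, C, hmain, hAdet, ?_⟩
  intro h0
  apply hdet
  rw [← hmain, Matrix.det_mul, Matrix.det_fromBlocks_zero₂₁, h0, mul_zero, mul_zero]

end Pool.Agent.Lib.MP_ddd95a_nt.Mord
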