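import Pool.Agent.Lib.MP_ddd95a_nt.Mg.G001
import Pool.Agent.Lib.MP_ddd95a_nt.Mg.G003
import Pool.Agent.Lib.MP_ddd95a_nt.Mord.Chol

/-!
# Decomposition of a stable lattice
-/

open Matrix MeasureTheory Filter Set
open scoped ENNReal Topology

noncomputable section

namespace Pool.Agent.Lib.MP_ddd95a_nt.Mord

namespace DecompAux

variable {ι κ μ : Type*} [Fintype ι] [DecidableEq ι] [Fintype κ] [DecidableEq κ] [Fintype μ]
  [DecidableEq μ]

theorem gr_rows (V : Matrix ι κ ℝ) (e : μ ≃ ι) : gr (V.submatrix e id) = gr V := by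
  unfold gr
  have h : (V.submatrix e id)ᵀ * V.submatrix e id = Vᵀ * V := by
    rw [Matrix.transpose_submatrix]
    have := Matrix.submatrix_mul_equiv Vᵀ V id e id
    rw [this, Matrix.submatrix_id_id]
  rw [h]

theorem stable_reindex {g : Matrix ι ι ℝ} (hg : Stable g) (e : μ ≃ ι) :
    Stable (g.submatrix e e) := by
  refine ⟨by rw [Matrix.det_submatrix_equiv_self]; exact hg.1, ?_⟩
  intro k v hv
  have h1 : Nd (v.submatrix e.symm id) := by
    unfold Nd at hv ⊢
    have h : (v.submatrix e.symm id)ᵀ * v.submatrix e.symm id = vᵀ * v := by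
      rw [Matrix.transpose_submatrix]
      have := Matrix.submatrix_mul_equiv vᵀ v id e.symm id
      rw [this, Matrix.submatrix_id_id]
    rwa [h]
  have h2 := hg.2 k _ h1
  have h3 : g.submatrix e e * rm v = (g * rm (v.submatrix e.symm id)).submatrix e id := by
    have h4 : rm (v.submatrix e.symm id) = (rm v).submatrix e.symm id := rfl
    rw [h4]
    have h5 := Matrix.submatrix_mul_equiv g ((rm v).submatrix e.symm id) e e id
    rw [← h5]
    congr 1
    ext i j
    simp
  rw [h3, gr_rows]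
  exact h2

theorem gr_diag (A : Matrix ι ι ℝ) (C : Matrix κ μ ℝ) :
    gr (fromBlocks A 0 0 C) = A.det ^ 2 * gr C := by
  unfold gr
  rw [fromBlocks_transpose, fromBlocks_multiply]
  simp only [Matrix.transpose_zero, Matrix.zero_mul, Matrix.mul_zero, add_zero, zero_add]
  rw [det_fromBlocks_zero₂₁, det_mul, det_transpose]
  ring

theorem gr_tri {A : Matrix ι ι ℝ} (hA : A.det ≠ 0) (B : Matrix ι μ ℝ) (C : Matrix κ μ ℝ) :
    gr (fromBlocks A B 0 C) = A.det ^ 2 * gr C := by
  have hA' : IsUnit A.det := isUnit_iff_ne_zero.2 hA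
  set T : Matrix (ι ⊕ μ) (ι ⊕ μ) ℝ := fromBlocks 1 (A⁻¹ * B) 0 1 with hT
  set D : Matrix (ι ⊕ κ) (ι ⊕ μ) ℝ := fromBlocks A 0 0 C with hD
  have h1 : fromBlocks A B 0 C = D * T := by
    rw [hT, hD, fromBlocks_multiply]
    simp only [Matrix.mul_one, Matrix.mul_zero, Matrix.zero_mul, add_zero, zero_add]
    rw [← Matrix.mul_assoc, Matrix.mul_nonsing_inv _ hA', Matrix.one_mul]
  rw [h1, gr_mul_sq, hD, gr_diag, hT, det_fromBlocks_zero₂₁, det_one, det_one]
  ring

theorem gr_congr {M W : Matrix ι κ ℝ} (h : Mᵀ * M = Wᵀ * W) (X : Matrix κ μ ℝ) :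
    gr (M * X) = gr (W * X) := by
  unfold gr
  have h1 : ∀ M : Matrix ι κ ℝ, (M * X)ᵀ * (M * X) = Xᵀ * (Mᵀ * M) * X := by
    intro M
    rw [Matrix.transpose_mul]
    simp only [Matrix.mul_assoc]
  rw [h1, h1, h]

theorem rm_rows (w : Matrix ι μ ℤ) :
    rm (fromRows w (0 : Matrix κ μ ℤ)) = fromRows (rm w) (0 : Matrix κ μ ℝ) := by
  ext i j
  rcases i with i | i
  · simp [rm]
  · simp [rm]

theorem rm_blocks (w : Matrix κ μ ℤ) :
    rm (fromBlocks (1 : Matrix ι ι ℤ) 0 0 w) = fromBlocks (1 : Matrix ι ι ℝ) 0 0 (rm w) := by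
  ext i j
  rcases i with i | i <;> rcases j with j | j
  · by_cases hij : i = j
    · simp [rm, hij]
    · simp [rm, Matrix.one_apply, hij]
  · simp [rm]
  · simp [rm]
  · simp [rm]

theorem gr_fromRows (X : Matrix ι μ ℝ) : gr (fromRows X (0 : Matrix κ μ ℝ)) = gr X := by
  unfold gr
  have h : (fromRows X (0 : Matrix κ μ ℝ))ᵀ * fromRows X (0 : Matrix κ μ ℝ) = Xᵀ * X := by
    rw [transpose_fromRows, fromCols_mul_fromRows]
    simp
  rw [h]

theorem nd_fromRows {X : Matrix ι μ ℤ} (hX : Nd X) : Nd (fromRows X (0 : Matrix κ μ ℤ)) := by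
  unfold Nd at hX ⊢
  have h : (fromRows X (0 : Matrix κ μ ℤ))ᵀ * fromRows X (0 : Matrix κ μ ℤ) = Xᵀ * X := by
    rw [transpose_fromRows, fromCols_mul_fromRows]
    simp
  rwa [h]

theorem nd_blocks {w : Matrix κ μ ℤ} (hw : Nd w) :
    Nd (fromBlocks (1 : Matrix ι ι ℤ) 0 0 w) := by
  unfold Nd at hw ⊢
  rw [fromBlocks_transpose, fromBlocks_multiply]
  simp only [Matrix.transpose_zero, Matrix.zero_mul, Matrix.mul_zero, add_zero, zero_add,
    Matrix.transpose_one, Matrix.mul_one]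
  rw [det_fromBlocks_zero₂₁, det_one, one_mul]
  exact hw

end DecompAux

open DecompAux in
/-- Proof: `extend_stable` gives `u`; let `W = g * rm u`, columns reindexed by
`Fin k ⊕ Fin (n - k)`; `block_tri` gives `A`, `B`, `C` with the same Gram matrix, so
`F (t • fromBlocks A B 0 C) = F (t • g)` (`F_congr`, `F_unimod`, `F_reindex`).
`det(A)² = gr (g v) = 1` and `det(A)² det(C)² = 1`. `A` is stable: for `w` with `Nd w`,
`gr (A w) = gr (g (v w))`. `C` is stable: for `w : Matrix (Fin (n - k)) (Fin j) ℤ` with `Nd w` consider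
the integer matrix `w' = u (1 ⊕ w)` (columns indexed by `Fin k ⊕ Fin j`), for which
`gr (g w') = gr (fromBlocks A (B w) 0 (C w)) = det(A)² gr (C w)`; use `stable_gen`. -/
theorem stable_decomp {n : ℕ} {g : Matrix (Fin n) (Fin n) ℝ} (hg : Stable g) {k : ℕ}
    (hk : 1 ≤ k) (hkn : k < n) {v : Matrix (Fin n) (Fin k) ℤ} (hv : Nd v)
    (h1 : gr (g * rm v) = 1) :
    ∃ (A : Matrix (Fin k) (Fin k) ℝ) (B : Matrix (Fin k) (Fin (n - k)) ℝ)
      (C : Matrix (Fin (n - k)) (Fin (n - k)) ℝ), Stable A ∧ Stable C ∧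
      ∀ t : ℝ, 0 < t → F (t • fromBlocks A B 0 C) = F (t • g) := by
  obtain ⟨u, hu, huv⟩ := extend_stable hkn.le hg hv h1
  have hsum : k + (n - k) = n := by omega
  set e : Fin k ⊕ Fin (n - k) ≃ Fin n := finSumFinEquiv.trans (finCongr hsum) with he
  have hel : ∀ j : Fin k, e (Sum.inl j) = Fin.castLE hkn.le j := by
    intro j
    apply Fin.ext
    simp [he]
  have hN : Stable (g * rm u) := stable_unimod hg hu
  set W : Matrix (Fin k ⊕ Fin (n - k)) (Fin k ⊕ Fin (n - k)) ℝ := (g * rm u).submatrix e e with hW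
  have hWs : Stable W := stable_reindex hN e
  have hWpos : 0 < gr W := by
    rw [gr_square, ← sq_abs, hWs.1]
    norm_num
  obtain ⟨A, B, C, hABC, hA0, hC0⟩ := block_tri W hWpos
  have hMs : Stable (fromBlocks A B 0 C) := stable_congr hABC.symm hWs
  have hrow : ∀ {j : ℕ} (w : Matrix (Fin k) (Fin j) ℤ),
      gr (fromBlocks A B 0 C * rm (fromRows w (0 : Matrix (Fin (n - k)) (Fin j) ℤ))) =
        gr (A * rm w) := by
    intro j w
    rw [rm_rows, fromBlocks_mul_fromRows]
    simp only [Matrix.mul_zero, Matrix.zero_mul, add_zero]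
    exact gr_fromRows _
  have hA1 : A.det ^ 2 = 1 := by
    have e1 := hrow (1 : Matrix (Fin k) (Fin k) ℤ)
    have e2 : rm (1 : Matrix (Fin k) (Fin k) ℤ) = 1 := by
      ext i j
      by_cases hij : i = j
      · subst hij
        simp [rm]
      · simp [rm, hij]
    rw [e2, Matrix.mul_one, gr_square, gr_congr hABC] at e1
    rw [← e1, rm_rows, e2]
    have e3 : W * fromRows (1 : Matrix (Fin k) (Fin k) ℝ) (0 : Matrix (Fin (n - k)) (Fin k) ℝ) =
        (g * rm v).submatrix e id := by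
      ext i j
      rw [Matrix.mul_apply]
      simp only [Fintype.sum_sum_type, fromRows_apply_inl, fromRows_apply_inr, Matrix.zero_apply,
        mul_zero, Finset.sum_const_zero, add_zero, Matrix.one_apply, mul_ite, mul_one,
        Finset.sum_ite_eq', Finset.sum_ite_eq, Finset.mem_univ, if_true]
      rw [hW]
      simp only [Matrix.submatrix_apply, id, Matrix.mul_apply]
      refine Finset.sum_congr rfl fun t _ => ?_
      rw [hel]
      simp only [rm, Matrix.map_apply]
      rw [huv]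
    rw [e3, gr_rows, h1]
  have hAabs : |A.det| = 1 := by
    rcases mul_self_eq_one_iff.1 ((sq A.det).symm.trans hA1) with h | h
    · rw [h, abs_one]
    · rw [h, abs_neg, abs_one]
  refine ⟨A, B, C, ⟨hAabs, ?_⟩, ⟨?_, ?_⟩, ?_⟩
  · intro j w hw
    rw [← hrow w]
    exact stable_gen hMs (nd_fromRows hw)
  · have h2 := hMs.1
    rw [det_fromBlocks_zero₂₁, abs_mul, hAabs, one_mul] at h2
    exact h2
  · intro j w hw
    have h2 : fromBlocks A B 0 C * rm (fromBlocks (1 : Matrix (Fin k) (Fin k) ℤ) 0 0 w) =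
        fromBlocks A (B * rm w) 0 (C * rm w) := by
      rw [rm_blocks, fromBlocks_multiply]
      simp only [Matrix.mul_one, Matrix.mul_zero, Matrix.zero_mul, add_zero, zero_add]
    have h3 := stable_gen hMs (nd_blocks (ι := Fin k) hw)
    rw [h2, gr_tri hA0, hA1, one_mul] at h3
    exact h3
  · intro t ht
    rw [F_congr hABC t]
    have h2 : t • W = Matrix.reindex e.symm e.symm (t • (g * rm u)) := by
      rw [Matrix.reindex_apply, hW]
      rfl
    rw [h2, F_reindex, F_unimod g hu]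

end Pool.Agent.Lib.MP_ddd95a_nt.Mord
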