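import Pool.Agent.Lib.MP_ddd95a_nt.Mg.G003

/-!
# The product inequality
-/

open Matrix MeasureTheory Filter Set
open scoped ENNReal Topology

noncomputable section

set_option linter.unusedSectionVars false

namespace Pool.Agent.Lib.MP_ddd95a_nt.Mord

variable {ι κ : Type*} [Fintype ι] [DecidableEq ι] [Fintype κ] [DecidableEq κ]

namespace FProdAux

/-- The identification of the product with the vectors indexed by the sum. -/
def es (ι κ : Type*) : (ι → ℝ) × (κ → ℝ) ≃ᵐ (ι ⊕ κ → ℝ) :=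
  (MeasurableEquiv.sumPiEquivProdPi (fun _ : ι ⊕ κ => ℝ)).symm

lemma es_inl (p : (ι → ℝ) × (κ → ℝ)) : (es ι κ p) ∘ Sum.inl = p.1 := rfl

lemma es_inr (p : (ι → ℝ) × (κ → ℝ)) : (es ι κ p) ∘ Sum.inr = p.2 := rfl

lemma es_mp : MeasurePreserving (es ι κ) volume volume :=
  volume_measurePreserving_sumPiEquivProdPi_symm (fun _ : ι ⊕ κ => ℝ)

lemma qf_block {A : Matrix ι ι ℝ} {C : Matrix κ κ ℝ} (hA : A.det ≠ 0) (B : Matrix ι κ ℝ)
    (x : ι ⊕ κ → ℝ) : qf (fromBlocks A B 0 C) x =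
      qf A (x ∘ Sum.inl + (A⁻¹ * B) *ᵥ (x ∘ Sum.inr)) + qf C (x ∘ Sum.inr) := by
  have h1 : A *ᵥ (x ∘ Sum.inl + (A⁻¹ * B) *ᵥ (x ∘ Sum.inr)) =
      A *ᵥ (x ∘ Sum.inl) + B *ᵥ (x ∘ Sum.inr) := by
    rw [mulVec_add, mulVec_mulVec, ← Matrix.mul_assoc, Matrix.mul_nonsing_inv _ hA.isUnit,
      Matrix.one_mul]
  unfold qf
  rw [fromBlocks_mulVec, Fintype.sum_sum_type, h1]
  simp only [Sum.elim_inl, Sum.elim_inr, zero_mulVec, zero_add]

lemma gw_block {A : Matrix ι ι ℝ} {C : Matrix κ κ ℝ} (hA : A.det ≠ 0) (B : Matrix ι κ ℝ)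
    (x : ι ⊕ κ → ℝ) : gw (fromBlocks A B 0 C) x =
      gw A (x ∘ Sum.inl + (A⁻¹ * B) *ᵥ (x ∘ Sum.inr)) * gw C (x ∘ Sum.inr) := by
  unfold gw
  rw [← ENNReal.ofReal_mul (Real.exp_nonneg _), ← Real.exp_add, qf_block hA]
  congr 2
  ring

lemma zc_inl (m : ι ⊕ κ → ℤ) : (zc m) ∘ Sum.inl = zc (m ∘ Sum.inl) := rfl

lemma zc_inr (m : ι ⊕ κ → ℤ) : (zc m) ∘ Sum.inr = zc (m ∘ Sum.inr) := rfl

/-- The set. -/
def SS (A : Matrix ι ι ℝ) (C : Matrix κ κ ℝ) (D : Matrix ι κ ℝ) : Set (ι ⊕ κ → ℝ) :=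
  {x | x ∘ Sum.inr ∈ vor C ∧ x ∘ Sum.inl + D *ᵥ (x ∘ Sum.inr) ∈ vor A}

lemma cont_inl : Continuous fun x : ι ⊕ κ → ℝ => x ∘ Sum.inl :=
  continuous_pi fun i => continuous_apply (Sum.inl i)

lemma cont_inr : Continuous fun x : ι ⊕ κ → ℝ => x ∘ Sum.inr :=
  continuous_pi fun i => continuous_apply (Sum.inr i)

lemma cont_D (D : Matrix ι κ ℝ) : Continuous fun y : κ → ℝ => D *ᵥ y :=
  Continuous.matrix_mulVec continuous_const continuous_id

lemma meas_SS (A : Matrix ι ι ℝ) (C : Matrix κ κ ℝ) (D : Matrix ι κ ℝ) :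
    MeasurableSet (SS A C D) := by
  refine MeasurableSet.inter ?_ ?_
  · exact ((vor_isClosed C).preimage cont_inr).measurableSet
  · exact ((vor_isClosed A).preimage (cont_inl.add ((cont_D D).comp cont_inr))).measurableSet

lemma null_SS {A : Matrix ι ι ℝ} {C : Matrix κ κ ℝ} (hA : A.det ≠ 0) (hC : C.det ≠ 0)
    (D : Matrix ι κ ℝ) (m : ι ⊕ κ → ℤ) (hm : m ≠ 0) :
    volume (SS A C D ∩ {x | x - zc m ∈ SS A C D}) = 0 := by
  by_cases h2 : m ∘ Sum.inr = 0
  · have h1 : m ∘ Sum.inl ≠ 0 := by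
      intro h1
      apply hm
      funext i
      rcases i with i | i
      · exact congrFun h1 i
      · exact congrFun h2 i
    set N : Set (ι → ℝ) := vor A ∩ {x | x - zc (m ∘ Sum.inl) ∈ vor A} with hN
    have hN0 : volume N = 0 := vor_disj hA h1
    have hNm : MeasurableSet N := by
      refine MeasurableSet.inter (vor_isClosed A).measurableSet ?_
      exact ((vor_isClosed A).preimage (continuous_id.sub continuous_const)).measurableSet
    set T : Set ((ι → ℝ) × (κ → ℝ)) := {p | p.1 + D *ᵥ p.2 ∈ N} with hT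
    have hTm : MeasurableSet T := by
      have hc : Continuous fun p : (ι → ℝ) × (κ → ℝ) => p.1 + D *ᵥ p.2 :=
        continuous_fst.add ((cont_D D).comp continuous_snd)
      exact hc.measurable hNm
    have hT0 : volume T = 0 := by
      rw [Measure.volume_eq_prod, Measure.prod_apply_symm hTm]
      have h3 : ∀ y : κ → ℝ, volume ((fun x : ι → ℝ => (x, y)) ⁻¹' T) = 0 := by
        intro y
        have h4 : ((fun x : ι → ℝ => (x, y)) ⁻¹' T) = (fun x => x + D *ᵥ y) ⁻¹' N := rfl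
        rw [h4, measure_preimage_add_right, hN0]
      simp only [h3, lintegral_zero]
    have hsub : SS A C D ∩ {x | x - zc m ∈ SS A C D} ⊆ (es ι κ).symm ⁻¹' T := by
      rintro x ⟨hx1, hx2⟩
      refine ⟨hx1.2, ?_⟩
      have h3 := hx2.2
      have h4 : (x - zc m) ∘ Sum.inl + D *ᵥ ((x - zc m) ∘ Sum.inr) =
          (x ∘ Sum.inl + D *ᵥ (x ∘ Sum.inr)) - zc (m ∘ Sum.inl) := by
        have h5 : (x - zc m) ∘ Sum.inr = x ∘ Sum.inr := by
          funext i
          have h6 : m (Sum.inr i) = 0 := congrFun h2 i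
          simp [zc, h6]
        have h7 : (x - zc m) ∘ Sum.inl = x ∘ Sum.inl - zc (m ∘ Sum.inl) := rfl
        rw [h5, h7]
        abel
      rw [h4] at h3
      exact h3
    refine measure_mono_null hsub ?_
    have h3 := (es_mp (ι := ι) (κ := κ)).symm.measure_preimage hTm.nullMeasurableSet
    rw [h3, hT0]
  · set N : Set (κ → ℝ) := vor C ∩ {x | x - zc (m ∘ Sum.inr) ∈ vor C} with hN
    have hN0 : volume N = 0 := vor_disj hC h2
    have hNm : MeasurableSet N := by
      refine MeasurableSet.inter (vor_isClosed C).measurableSet ?_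
      exact ((vor_isClosed C).preimage (continuous_id.sub continuous_const)).measurableSet
    have hsub : SS A C D ∩ {x | x - zc m ∈ SS A C D} ⊆
        (es ι κ).symm ⁻¹' ((Set.univ : Set (ι → ℝ)) ×ˢ N) := by
      rintro x ⟨hx1, hx2⟩
      exact ⟨trivial, hx1.1, hx2.1⟩
    refine measure_mono_null hsub ?_
    have h3 := (es_mp (ι := ι) (κ := κ)).symm.measure_preimage
      (MeasurableSet.univ.prod hNm).nullMeasurableSet
    rw [h3, Measure.volume_eq_prod, Measure.prod_prod, hN0, mul_zero]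

lemma J_SS {A : Matrix ι ι ℝ} {C : Matrix κ κ ℝ} (hA : A.det ≠ 0)
    (B : Matrix ι κ ℝ) : J (fromBlocks A B 0 C) (SS A C (A⁻¹ * B)) = F A * F C := by
  unfold F J
  have hc : ENNReal.ofReal (|(fromBlocks A B 0 C).det| /
      Real.sqrt (2 * Real.pi) ^ Fintype.card (ι ⊕ κ)) =
      ENNReal.ofReal (|A.det| / Real.sqrt (2 * Real.pi) ^ Fintype.card ι) *
      ENNReal.ofReal (|C.det| / Real.sqrt (2 * Real.pi) ^ Fintype.card κ) := by
    rw [← ENNReal.ofReal_mul (by positivity), det_fromBlocks_zero₂₁, Fintype.card_sum, pow_add,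
      abs_mul]
    congr 1
    rw [div_mul_div_comm]
  have hi : ∫⁻ x in SS A C (A⁻¹ * B), gw (fromBlocks A B 0 C) x =
      (∫⁻ x in vor A, gw A x) * ∫⁻ x in vor C, gw C x := by
    rw [← lintegral_indicator (meas_SS _ _ _),
      ← lintegral_indicator (vor_isClosed A).measurableSet,
      ← lintegral_indicator (vor_isClosed C).measurableSet]
    have hmA : Measurable ((vor A).indicator (gw A)) :=
      (gw_measurable A).indicator (vor_isClosed A).measurableSet
    have hmC : Measurable ((vor C).indicator (gw C)) :=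
      (gw_measurable C).indicator (vor_isClosed C).measurableSet
    rw [← (es_mp (ι := ι) (κ := κ)).lintegral_comp
      ((gw_measurable _).indicator (meas_SS A C (A⁻¹ * B)))]
    have h1 : ∀ p : (ι → ℝ) × (κ → ℝ),
        (SS A C (A⁻¹ * B)).indicator (gw (fromBlocks A B 0 C)) (es ι κ p) =
        (vor A).indicator (gw A) (p.1 + (A⁻¹ * B) *ᵥ p.2) * (vor C).indicator (gw C) p.2 := by
      intro p
      have h2 : es ι κ p ∈ SS A C (A⁻¹ * B) ↔ p.2 ∈ vor C ∧ p.1 + (A⁻¹ * B) *ᵥ p.2 ∈ vor A :=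
        Iff.rfl
      by_cases hp2 : p.2 ∈ vor C
      · by_cases hp1 : p.1 + (A⁻¹ * B) *ᵥ p.2 ∈ vor A
        · rw [indicator_of_mem (h2.2 ⟨hp2, hp1⟩), indicator_of_mem hp1, indicator_of_mem hp2,
            gw_block hA, es_inl, es_inr]
        · rw [indicator_of_notMem (fun h => hp1 (h2.1 h).2), indicator_of_notMem hp1, zero_mul]
      · rw [indicator_of_notMem (fun h => hp2 (h2.1 h).1), indicator_of_notMem hp2, mul_zero]
    simp only [h1]
    have hcont : Continuous fun p : (ι → ℝ) × (κ → ℝ) => p.1 + (A⁻¹ * B) *ᵥ p.2 :=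
      continuous_fst.add ((cont_D _).comp continuous_snd)
    have hmm : Measurable fun p : (ι → ℝ) × (κ → ℝ) =>
        (vor A).indicator (gw A) (p.1 + (A⁻¹ * B) *ᵥ p.2) * (vor C).indicator (gw C) p.2 :=
      (hmA.comp hcont.measurable).mul (hmC.comp measurable_snd)
    rw [Measure.volume_eq_prod, lintegral_prod_symm' _ hmm]
    have h3 : ∀ y : κ → ℝ, ∫⁻ x : ι → ℝ, (vor A).indicator (gw A) (x + (A⁻¹ * B) *ᵥ y) *
        (vor C).indicator (gw C) y =
        (∫⁻ x, (vor A).indicator (gw A) x) * (vor C).indicator (gw C) y := by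
      intro y
      have hmy : Measurable fun x : ι → ℝ => (vor A).indicator (gw A) (x + (A⁻¹ * B) *ᵥ y) :=
        hmA.comp (measurable_id.add_const _)
      rw [lintegral_mul_const _ hmy,
        lintegral_add_right_eq_self (fun x => (vor A).indicator (gw A) x)]
    simp only [h3]
    rw [lintegral_const_mul _ hmC]
  rw [hc, hi]
  ring

end FProdAux

/-- Proof: let `S` be the set of the `x = (x₁, x₂)` with `x₂ ∈ vor C` and `x₁ + A⁻¹ B x₂ ∈ vor A`.
If `x` and `x - zc (m₁, m₂)` are in `S` and `m₂ ≠ 0` then `x₂` is in the null set of `vor_disj`; if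
`m₂ = 0`, `m₁ ≠ 0` then `x₁ + A⁻¹ B x₂` is in the null set of `vor_disj`. So `J_le_F` applies:
`J M S ≤ F M`, `M = fromBlocks A B 0 C`. Finally `qf M x = qf A (x₁ + A⁻¹ B x₂) + qf C x₂`,
`det M = det A det C`, and Fubini with translation invariance in `x₁` gives
`J M S = J A (vor A) * J C (vor C)`. -/
theorem F_prod {A : Matrix ι ι ℝ} {C : Matrix κ κ ℝ} (hA : A.det ≠ 0) (hC : C.det ≠ 0)
    (B : Matrix ι κ ℝ) : F A * F C ≤ F (fromBlocks A B 0 C) := by
  rw [← FProdAux.J_SS hA B]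
  refine J_le_F ?_ (FProdAux.meas_SS _ _ _) fun m hm => FProdAux.null_SS hA hC _ m hm
  rw [det_fromBlocks_zero₂₁]
  exact mul_ne_zero hA hC

end Pool.Agent.Lib.MP_ddd95a_nt.Mord
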