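import Pool.Agent.Lib.MP_ddd95a_nt.Mg.G001
import Pool.Agent.Lib.MP_ddd95a_nt.Mg.G002
import Pool.Agent.Lib.MP_ddd95a_nt.Mg.G003

/-!
# Existence of a minimiser
-/

open Matrix MeasureTheory Filter Set
open scoped ENNReal Topology

noncomputable section

namespace Pool.Agent.Lib.MP_ddd95a_nt.Mord

namespace MiniAux

theorem bdd_seq {n : ℕ} {R : ℝ} (g : ℕ → Matrix (Fin n) (Fin n) ℝ)
    (h : ∀ j a b, |g j a b| ≤ R) :
    ∃ (g₀ : Matrix (Fin n) (Fin n) ℝ) (φ : ℕ → ℕ), StrictMono φ ∧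
      Tendsto (g ∘ φ) atTop (𝓝 g₀) := by
  let x : ℕ → Fin n → Fin n → ℝ := g
  have hK : IsCompact (Set.univ.pi fun _ : Fin n => Set.univ.pi fun _ : Fin n => Icc (-R) R) :=
    isCompact_univ_pi fun _ => isCompact_univ_pi fun _ => isCompact_Icc
  have hmem : ∀ j, x j ∈
      (Set.univ.pi fun _ : Fin n => Set.univ.pi fun _ : Fin n => Icc (-R) R) := by
    intro j a _ b _
    exact abs_le.1 (h j a b)
  obtain ⟨g₀, -, φ, hφ, hlim⟩ := hK.tendsto_subseq hmem
  exact ⟨g₀, φ, hφ, hlim⟩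

end MiniAux

/-- Proof: take stable `g j` with `F (t • g j)` tending to the infimum over the stable matrices
(`stable_one`: nonempty). By `bdd_rep n 1`, `stable_vec`, `stable_unimod`, `F_unimod` we may assume
that they are bounded; a subsequence converges to `g₀`, stable by `stable_closed`; `J_vor_lsc` (with
`G = t • g`, and `vor_smul`) gives `F (t • g₀) ≤` the infimum. -/
theorem exists_minimiser (n : ℕ) {t : ℝ} (ht : 0 < t) :
    ∃ g : Matrix (Fin n) (Fin n) ℝ, Stable g ∧
      ∀ g' : Matrix (Fin n) (Fin n) ℝ, Stable g' → F (t • g) ≤ F (t • g') := by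
  have hne : ((fun g : Matrix (Fin n) (Fin n) ℝ => F (t • g)) '' {g | Stable g}).Nonempty :=
    ⟨_, 1, stable_one, rfl⟩
  obtain ⟨s, -, hs, hsm⟩ := exists_seq_tendsto_sInf hne (OrderBot.bddBelow _)
  choose g hg hgs using hsm
  have hg' : ∀ j, Stable (g j) := hg
  obtain ⟨R, hR⟩ := bdd_rep n 1 one_pos
  choose u hu hub using fun j => hR (g j) (hg' j).1 fun x hx => stable_vec (hg' j) hx
  have hst : ∀ j, Stable (g j * rm (u j)) := fun j =>
    stable_unimod (hg' j) (by rw [hu j]; exact abs_one)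
  have hF : ∀ j, F (t • (g j * rm (u j))) = s j := fun j => by
    rw [F_unimod (g j) (by rw [hu j]; exact abs_one) t]
    exact hgs j
  obtain ⟨g₀, φ, hφ, hlim⟩ := MiniAux.bdd_seq (fun j => g j * rm (u j)) hub
  have hst₀ : Stable g₀ := stable_closed hlim fun j => hst (φ j)
  have hdet : g₀.det ≠ 0 := by
    intro h0
    have := hst₀.1
    rw [h0, abs_zero] at this
    exact zero_ne_one this
  have hdet' : (t • g₀).det ≠ 0 := by
    rw [det_smul]
    exact mul_ne_zero (pow_ne_zero _ ht.ne') hdet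
  have hle : F (t • g₀) ≤ sInf ((fun g : Matrix (Fin n) (Fin n) ℝ => F (t • g)) '' {g | Stable g}) := by
    by_contra hcon
    push Not at hcon
    obtain ⟨d, hd1, hd2⟩ := exists_between hcon
    have h1 : F (t • g₀) = J (t • g₀) (vor g₀) := by
      unfold F
      rw [vor_smul ht.ne']
    rw [h1] at hd2
    have h2 := J_vor_lsc (g := fun j => g (φ j) * rm (u (φ j)))
      (G := fun j => t • (g (φ j) * rm (u (φ j)))) hlim (hlim.const_smul t) hdet hdet' hd2
    have h3 : ∀ᶠ j in atTop, d < s (φ j) := by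
      filter_upwards [h2] with j hj
      rw [← hF (φ j)]
      unfold F
      rw [vor_smul ht.ne']
      exact hj
    have h4 : ∀ᶠ j in atTop, s (φ j) < d :=
      (hs.comp hφ.tendsto_atTop).eventually (gt_mem_nhds hd1)
    obtain ⟨j, hj1, hj2⟩ := (h3.and h4).exists
    exact lt_asymm hj1 hj2
  exact ⟨g₀, hst₀, fun g' hg' => hle.trans (sInf_le ⟨g', hg', rfl⟩)⟩

end Pool.Agent.Lib.MP_ddd95a_nt.Mord
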