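import Pool.Agent.Lib.MP_ddd95a_nt.Mord.Crit
import Pool.Agent.Lib.MP_ddd95a_nt.Mord.Mini
import Pool.Agent.Lib.MP_ddd95a_nt.Mord.Decomp
import Pool.Agent.Lib.MP_ddd95a_nt.Mord.FProd
import Pool.Agent.Lib.MP_ddd95a_nt.Mord.VorT

/-!
# The Gaussian measure of the cell of a stable lattice
-/

open Matrix MeasureTheory Filter Set
open scoped ENNReal Topology

noncomputable section

namespace Pool.Agent.Lib.MP_ddd95a_nt.Mord

/-- Every symmetric convex body of volume one has a linear image, of the same volume, such that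
`t` times the image has Gaussian measure at least `1 - η`. -/
def Good (t η : ℝ) (n : ℕ) : Prop :=
  ∀ K : Set (Fin n → ℝ), IsCompact K → Convex ℝ K → (∀ x ∈ K, -x ∈ K) → volume K = 1 →
    ∃ G : Matrix (Fin n) (Fin n) ℝ, |G.det| = 1 ∧ ENNReal.ofReal (1 - η) ≤ J (t • G) K

theorem MainBAux.det_ne {ι : Type*} [Fintype ι] [DecidableEq ι] {g : Matrix ι ι ℝ}
    (hg : Stable g) {t : ℝ} (ht : 0 < t) : (t • g).det ≠ 0 := by
  rw [Matrix.det_smul]
  refine mul_ne_zero (pow_ne_zero _ ht.ne') ?_
  intro h0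
  have := hg.1
  rw [h0, abs_zero] at this
  exact zero_ne_one this

theorem MainBAux.F_zero (g : Matrix (Fin 0) (Fin 0) ℝ) : F g = 1 := by
  have h1 : vor g = univ := by
    ext x
    simp only [vor, mem_setOf_eq, mem_univ, iff_true]
    intro m
    rw [Subsingleton.elim (x - zc m) x]
  have hd : g.det = 1 := Matrix.det_isEmpty
  have hv : (volume : Measure (Fin 0 → ℝ)) univ = 1 := by simp [volume_pi]
  unfold F J
  rw [h1, hd]
  have h2 : ∀ x, gw g x = 1 := by
    intro x
    unfold gw qf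
    simp
  simp only [h2, abs_one, Fintype.card_fin, pow_zero, div_one, ENNReal.ofReal_one, one_mul,
    Measure.restrict_univ, lintegral_const, hv]

theorem main_ind {N : ℕ} {t η : ℝ} (ht : 0 < t) (hη : 0 ≤ η) (hη1 : η ≤ 1)
    (hgood : ∀ n, 1 ≤ n → n ≤ N → Good t η n) :
    ∀ n ≤ N, ∀ g : Matrix (Fin n) (Fin n) ℝ, Stable g →
      ENNReal.ofReal ((1 - η) ^ n) ≤ F (t • g) := by
  intro n
  induction n using Nat.strong_induction_on with
  | _ n ih =>
    intro hnN g hg
    rcases Nat.eq_zero_or_pos n with h0 | hn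
    · subst h0
      rw [MainBAux.F_zero, pow_zero, ENNReal.ofReal_one]
    obtain ⟨g₀, hg₀, hmin⟩ := exists_minimiser n ht
    refine le_trans ?_ (hmin g hg)
    have hdet0 : g₀.det ≠ 0 := by
      intro h0
      have := hg₀.1
      rw [h0, abs_zero] at this
      exact zero_ne_one this
    by_cases hex : ∃ k, 1 ≤ k ∧ k < n ∧ ∃ v : Matrix (Fin n) (Fin k) ℤ, Nd v ∧
        gr (g₀ * rm v) = 1
    · obtain ⟨k, hk1, hkn, v, hv, h1⟩ := hex
      obtain ⟨A, B, C, hA, hC, hF⟩ := stable_decomp hg₀ hk1 hkn hv h1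
      rw [← hF t ht, Matrix.fromBlocks_smul, smul_zero]
      refine le_trans ?_ (F_prod (MainBAux.det_ne hA ht) (MainBAux.det_ne hC ht) (t • B))
      have h2 := ih k hkn (by omega) A hA
      have h3 := ih (n - k) (by omega) (by omega) C hC
      have h4 : (1 - η) ^ n = (1 - η) ^ k * (1 - η) ^ (n - k) := by
        rw [← pow_add]
        congr 1
        omega
      rw [h4, ENNReal.ofReal_mul (pow_nonneg (by linarith) _)]
      exact mul_le_mul' h2 h3
    · push Not at hex
      obtain ⟨G, hG, hJ⟩ := hgood n hn hnN (vor g₀) (vor_isCompact hdet0) (vor_convex g₀)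
        (fun x hx => vor_neg hx) (vor_volume hdet0)
      have h1 := crit ht hg₀ hmin hex hG
      refine le_trans ?_ (hJ.trans h1)
      apply ENNReal.ofReal_le_ofReal
      exact pow_le_of_le_one (by linarith) (by linarith) (by omega)

end Pool.Agent.Lib.MP_ddd95a_nt.Mord
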