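import Pool.Agent.Lib.MP_ddd95a_nt.Mord.PL
import Pool.Agent.Lib.MP_ddd95a_nt.Mord.Defs

/-!
# The inequality of Anderson
-/

open Matrix MeasureTheory Filter Set
open scoped ENNReal Topology

noncomputable section

namespace Pool.Agent.Lib.MP_ddd95a_nt.Mord

variable {n : ℕ}

namespace AndAux

/-- The Gaussian weight at `v + a`. -/
def w (a v : Fin n → ℝ) : ℝ≥0∞ := ENNReal.ofReal (Real.exp (-((v + a) ⬝ᵥ (v + a)) / 2))

lemma w_measurable (a : Fin n → ℝ) : Measurable (w a) := by
  have h : Continuous fun v : Fin n → ℝ => Real.exp (-((v + a) ⬝ᵥ (v + a)) / 2) := by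
    simp only [dotProduct]
    fun_prop
  exact h.measurable.ennreal_ofReal

lemma w_mul_le (a x y : Fin n → ℝ) :
    w a x * w (-a) y ≤ (w 0 (fun i => (x i + y i) / 2)) ^ 2 := by
  unfold w
  rw [← ENNReal.ofReal_mul (Real.exp_pos _).le, ← ENNReal.ofReal_pow (Real.exp_pos _).le]
  apply ENNReal.ofReal_le_ofReal
  rw [← Real.exp_add, ← Real.exp_nat_mul]
  apply Real.exp_le_exp.2
  have h : (fun i => (x i + y i) / 2) ⬝ᵥ (fun i => (x i + y i) / 2) * 2 ≤
      (x + a) ⬝ᵥ (x + a) + (y + -a) ⬝ᵥ (y + -a) := by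
    simp only [dotProduct, Finset.sum_mul, ← Finset.sum_add_distrib]
    apply Finset.sum_le_sum
    intro i _
    simp only [Pi.add_apply, Pi.neg_apply]
    nlinarith [sq_nonneg ((x i + a i) - (y i + -a i))]
  simp only [add_zero]
  push_cast
  linarith

end AndAux

/-- Anderson: `Φ (a) ≤ Φ (0)`, `Φ (a) = ∫_C exp (- |v + a|² / 2) dv`. Proof: `pl` for
`f = 1_C exp (- |v + a|² / 2)`, `g = 1_C exp (- |v - a|² / 2)`, `h = 1_C exp (- |v|² / 2)`:
`|x + a|² + |y - a|² ≥ |x + y|² / 2`; the integrals of `f` and `g` agree (`v ↦ -v`). -/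
theorem anderson {C : Set (Fin n → ℝ)} (hm : MeasurableSet C) (hc : Convex ℝ C)
    (hs : ∀ x ∈ C, -x ∈ C) (a : Fin n → ℝ) :
    ∫⁻ v in C, ENNReal.ofReal (Real.exp (-((v + a) ⬝ᵥ (v + a)) / 2)) ≤
      ∫⁻ v in C, ENNReal.ofReal (Real.exp (-(v ⬝ᵥ v) / 2)) := by
  have e0 : ∫⁻ v in C, ENNReal.ofReal (Real.exp (-(v ⬝ᵥ v) / 2)) =
      ∫⁻ v, C.indicator (AndAux.w 0) v := by
    rw [lintegral_indicator hm]
    apply lintegral_congr
    intro v
    simp [AndAux.w]
  have e1 : ∫⁻ v in C, ENNReal.ofReal (Real.exp (-((v + a) ⬝ᵥ (v + a)) / 2)) =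
      ∫⁻ v, C.indicator (AndAux.w a) v := by
    rw [lintegral_indicator hm]
    rfl
  have hsm : ∀ x, -x ∈ C ↔ x ∈ C := by
    intro x
    constructor
    · intro hx
      have := hs _ hx
      rwa [neg_neg] at this
    · exact hs x
  have e2 : ∫⁻ v, C.indicator (AndAux.w (-a)) v = ∫⁻ v, C.indicator (AndAux.w a) v := by
    have h1 := (Measure.measurePreserving_neg (volume : Measure (Fin n → ℝ))).lintegral_comp
      ((AndAux.w_measurable (-a)).indicator hm)
    rw [← h1]
    apply lintegral_congr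
    intro v
    by_cases hv : v ∈ C
    · rw [indicator_of_mem hv, indicator_of_mem ((hsm v).2 hv)]
      unfold AndAux.w
      have h2 : -v + -a = -(v + a) := by
        rw [neg_add]
      rw [h2, neg_dotProduct, dotProduct_neg, neg_neg]
    · rw [indicator_of_notMem hv, indicator_of_notMem (fun h => hv ((hsm v).1 h))]
  have key := pl (C.indicator (AndAux.w a)) (C.indicator (AndAux.w (-a)))
    (C.indicator (AndAux.w 0)) ((AndAux.w_measurable a).indicator hm)
    ((AndAux.w_measurable (-a)).indicator hm) ((AndAux.w_measurable 0).indicator hm)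
    (by
      intro x y
      by_cases hx : x ∈ C
      · by_cases hy : y ∈ C
        · have hmid : (fun i => (x i + y i) / 2) ∈ C := by
            have h3 := hc hx hy (by norm_num : (0 : ℝ) ≤ 1 / 2) (by norm_num : (0 : ℝ) ≤ 1 / 2)
              (by norm_num)
            have h4 : (fun i => (x i + y i) / 2) = (1 / 2 : ℝ) • x + (1 / 2 : ℝ) • y := by
              funext i
              simp only [Pi.add_apply, Pi.smul_apply, smul_eq_mul]
              ring
            rw [h4]
            exact h3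
          rw [indicator_of_mem hx, indicator_of_mem hy, indicator_of_mem hmid]
          exact AndAux.w_mul_le a x y
        · rw [indicator_of_notMem hy]
          simp
      · rw [indicator_of_notMem hx]
        simp)
  rw [e0, e1]
  rw [e2, ← sq] at key
  exact (ENNReal.pow_le_pow_left_iff two_ne_zero).1 key

end Pool.Agent.Lib.MP_ddd95a_nt.Mord
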