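import Pool.Agent.Lib.MP_ddd95a_nt.Mg.G001

/-!
# Simultaneous diagonalisation
-/

open Matrix MeasureTheory Filter Set
open scoped ENNReal Topology

noncomputable section

namespace Pool.Agent.Lib.MP_ddd95a_nt.Mord

namespace SimDAux

/-- The spectral theorem for `Aᵀ A`. -/
lemma spec {n : ℕ} (A : Matrix (Fin n) (Fin n) ℝ) (hA : A.det ≠ 0) :
    ∃ (O : Matrix (Fin n) (Fin n) ℝ) (l : Fin n → ℝ), Oᵀ * O = 1 ∧ (∀ i, 0 < l i) ∧
      Aᵀ * A = Oᵀ * diagonal l * O ∧ ∏ i, l i = (Aᵀ * A).det := by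
  have hps : (Aᵀ * A).PosSemidef := by
    have := Matrix.posSemidef_conjTranspose_mul_self A
    rwa [Matrix.conjTranspose_eq_transpose_of_trivial] at this
  have hH : (Aᵀ * A).IsHermitian := hps.1
  have hdet : (Aᵀ * A).det ≠ 0 := by
    rw [Matrix.det_mul, Matrix.det_transpose]
    exact mul_ne_zero hA hA
  have hprod : (Aᵀ * A).det = ∏ i, hH.eigenvalues i := by
    have := hH.det_eq_prod_eigenvalues
    simpa using this
  set U : Matrix (Fin n) (Fin n) ℝ := (hH.eigenvectorUnitary : Matrix (Fin n) (Fin n) ℝ) with hU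
  have hstar : star U = Uᵀ := by
    rw [Matrix.star_eq_conjTranspose, Matrix.conjTranspose_eq_transpose_of_trivial]
  have hUU : U * Uᵀ = 1 := by
    have := (Matrix.mem_unitaryGroup_iff).1 hH.eigenvectorUnitary.2
    rwa [← hU, hstar] at this
  have hspec : Aᵀ * A = U * diagonal hH.eigenvalues * Uᵀ := by
    have h1 := hH.spectral_theorem
    rw [Unitary.conjStarAlgAut_apply] at h1
    rw [← hstar]
    exact h1
  refine ⟨Uᵀ, hH.eigenvalues, ?_, ?_, ?_, hprod.symm⟩
  · rw [Matrix.transpose_transpose]; exact hUU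
  · intro i
    refine lt_of_le_of_ne (hps.eigenvalues_nonneg i) ?_
    intro h0
    apply hdet
    rw [hprod]
    exact Finset.prod_eq_zero (Finset.mem_univ i) h0.symm
  · rw [Matrix.transpose_transpose]; exact hspec

end SimDAux

/-- Simultaneous diagonalisation. Proof: `S = h⁻ᵀ Gᵀ G h⁻¹` is positive definite; by the spectral
theorem `S = Oᵀ D O` with `O` orthogonal and `D` diagonal with positive entries `exp (2 θ i)`; take
`g = O h`. `det S = 1` gives `∑ θ i = 0`. -/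
theorem simdiag {n : ℕ} {h G : Matrix (Fin n) (Fin n) ℝ} (hh : |h.det| = 1) (hG : |G.det| = 1) :
    ∃ (g : Matrix (Fin n) (Fin n) ℝ) (θ : Fin n → ℝ), gᵀ * g = hᵀ * h ∧
      (tilt θ g)ᵀ * tilt θ g = Gᵀ * G ∧ ∑ i, θ i = 0 := by
  have hh0 : h.det ≠ 0 := by
    intro h0
    rw [h0, abs_zero] at hh
    exact zero_ne_one hh
  have hG0 : G.det ≠ 0 := by
    intro h0
    rw [h0, abs_zero] at hG
    exact zero_ne_one hG
  have hu : IsUnit h.det := isUnit_iff_ne_zero.2 hh0
  have hAd : (G * h⁻¹).det ^ 2 = 1 := by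
    have h1 : (G * h⁻¹).det * h.det = G.det := by
      rw [← Matrix.det_mul, Matrix.mul_assoc, Matrix.nonsing_inv_mul _ hu, Matrix.mul_one]
    have h2 : (G * h⁻¹).det ^ 2 * h.det ^ 2 = G.det ^ 2 := by rw [← mul_pow, h1]
    have h3 : h.det ^ 2 = 1 := by rw [← sq_abs, hh, one_pow]
    have h4 : G.det ^ 2 = 1 := by rw [← sq_abs, hG, one_pow]
    rwa [h3, h4, mul_one] at h2
  have hA0 : (G * h⁻¹).det ≠ 0 := by
    intro h0
    rw [h0] at hAd
    norm_num at hAd
  obtain ⟨O, l, hO, hl, hS, hprod⟩ := SimDAux.spec (G * h⁻¹) hA0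
  refine ⟨O * h, fun i => Real.log (l i) / 2, ?_, ?_, ?_⟩
  · rw [Matrix.transpose_mul, Matrix.mul_assoc, ← Matrix.mul_assoc Oᵀ O h, hO, Matrix.one_mul]
  · have hd : (diagonal fun i => Real.exp (Real.log (l i) / 2))ᵀ *
        (diagonal fun i => Real.exp (Real.log (l i) / 2)) = diagonal l := by
      rw [Matrix.diagonal_transpose, Matrix.diagonal_mul_diagonal]
      congr 1
      funext i
      rw [← Real.exp_add, add_halves, Real.exp_log (hl i)]
    have h1 : (tilt (fun i => Real.log (l i) / 2) (O * h))ᵀ *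
        tilt (fun i => Real.log (l i) / 2) (O * h) = hᵀ * (Oᵀ * diagonal l * O) * h := by
      unfold tilt
      rw [Matrix.transpose_mul, Matrix.transpose_mul, ← hd]
      simp only [Matrix.mul_assoc]
    rw [h1, ← hS]
    have h2 : h⁻¹ * h = 1 := Matrix.nonsing_inv_mul _ hu
    have h3 : hᵀ * h⁻¹ᵀ = 1 := by rw [← Matrix.transpose_mul, h2, Matrix.transpose_one]
    rw [Matrix.transpose_mul]
    calc hᵀ * (h⁻¹ᵀ * Gᵀ * (G * h⁻¹)) * h = (hᵀ * h⁻¹ᵀ) * Gᵀ * G * (h⁻¹ * h) := by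
          simp only [Matrix.mul_assoc]
      _ = Gᵀ * G := by rw [h3, h2, Matrix.one_mul, Matrix.mul_one]
  · rw [← Finset.sum_div, ← Real.log_prod (fun i _ => (hl i).ne'), hprod, Matrix.det_mul,
      Matrix.det_transpose, ← pow_two, hAd, Real.log_one, zero_div]

end Pool.Agent.Lib.MP_ddd95a_nt.Mord
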