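import Pool.Agent.Lib.MP_ddd95a_nt.Mg.G003
import Pool.Agent.Lib.MP_ddd95a_nt.Mg.G002
import Pool.Agent.Lib.MP_ddd95a_nt.Mg.G001
import Pool.Agent.Lib.MP_ddd95a_nt.Mord.SimD

/-!
# Minimisers in the interior
-/

open Matrix MeasureTheory Filter Set
open scoped ENNReal Topology

noncomputable section

namespace Pool.Agent.Lib.MP_ddd95a_nt.Mord

namespace CritAux

theorem tilt_zero {n : ℕ} (g : Matrix (Fin n) (Fin n) ℝ) : tilt 0 g = g := by
  unfold tilt
  simp

theorem tilt_tilt {n : ℕ} (θ θ' : Fin n → ℝ) (g : Matrix (Fin n) (Fin n) ℝ) :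
    tilt θ (tilt θ' g) = tilt (θ + θ') g := by
  unfold tilt
  rw [← Matrix.mul_assoc, Matrix.diagonal_mul_diagonal]
  congr 2
  funext i
  rw [Pi.add_apply, Real.exp_add]

theorem tilt_smul {n : ℕ} (θ : Fin n → ℝ) (t : ℝ) (g : Matrix (Fin n) (Fin n) ℝ) :
    tilt θ (t • g) = t • tilt θ g := by
  unfold tilt
  rw [Matrix.mul_smul]

theorem tilt_continuous {n : ℕ} (θ : Fin n → ℝ) (g : Matrix (Fin n) (Fin n) ℝ) :
    Continuous fun s : ℝ => tilt (s • θ) g := by
  unfold tilt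
  refine Continuous.matrix_mul ?_ continuous_const
  refine Continuous.matrix_diagonal ?_
  refine continuous_pi fun i => ?_
  simp only [Pi.smul_apply, smul_eq_mul]
  fun_prop

theorem tilt_det {n : ℕ} {θ : Fin n → ℝ} (hθ : ∑ i, θ i = 0) (g : Matrix (Fin n) (Fin n) ℝ) :
    (tilt θ g).det = g.det := by
  unfold tilt
  rw [Matrix.det_mul, Matrix.det_diagonal, ← Real.exp_sum, hθ, Real.exp_zero, one_mul]

theorem sum_smul {n : ℕ} {θ : Fin n → ℝ} (hθ : ∑ i, θ i = 0) (s : ℝ) :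
    ∑ i, (s • θ) i = 0 := by
  simp only [Pi.smul_apply, smul_eq_mul]
  rw [← Finset.mul_sum, hθ, mul_zero]

theorem gr_congr {n k : ℕ} {g g' : Matrix (Fin n) (Fin n) ℝ} (h : gᵀ * g = g'ᵀ * g')
    (W : Matrix (Fin n) (Fin k) ℝ) : gr (g * W) = gr (g' * W) := by
  unfold gr
  rw [Matrix.transpose_mul, Matrix.transpose_mul, Matrix.mul_assoc, Matrix.mul_assoc,
    ← Matrix.mul_assoc gᵀ, ← Matrix.mul_assoc g'ᵀ, h]

end CritAux

open CritAux

/-- At a minimiser in the interior no linear deformation of the cell has a larger Gaussian measure. -/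
theorem crit {n : ℕ} {t : ℝ} (ht : 0 < t) {g : Matrix (Fin n) (Fin n) ℝ} (hg : Stable g)
    (hmin : ∀ g' : Matrix (Fin n) (Fin n) ℝ, Stable g' → F (t • g) ≤ F (t • g'))
    (h : ∀ k, 1 ≤ k → k < n → ∀ v : Matrix (Fin n) (Fin k) ℤ, Nd v → gr (g * rm v) ≠ 1)
    {G : Matrix (Fin n) (Fin n) ℝ} (hG : |G.det| = 1) : J (t • G) (vor g) ≤ F (t • g) := by
  obtain ⟨g₁, θ, h1, h2, hθ⟩ := simdiag hg.1 hG
  have hst : Stable g₁ := stable_congr h1.symm hg
  have hFg : F (t • g₁) = F (t • g) := F_congr h1 t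
  have hscale : ∀ A B : Matrix (Fin n) (Fin n) ℝ, Aᵀ * A = Bᵀ * B →
      (t • A)ᵀ * (t • A) = (t • B)ᵀ * (t • B) := by
    intro A B hAB
    rw [Matrix.transpose_smul, Matrix.transpose_smul, Matrix.smul_mul, Matrix.smul_mul,
      Matrix.mul_smul, Matrix.mul_smul, hAB]
  rw [← J_congr (hscale _ _ h2), ← vor_congr h1, ← hFg]
  by_contra hcon
  push Not at hcon
  have hdet1 : g₁.det ≠ 0 := by
    intro h0
    have := hst.1
    rw [h0, abs_zero] at this
    exact zero_ne_one this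
  have hopen : ∀ᶠ g' in 𝓝 g₁, |g'.det| = 1 → Stable g' := stable_open hst (by
    intro k hk hkn v hv
    rw [gr_congr h1]
    exact h k hk hkn v hv)
  -- the sequence
  let s : ℕ → ℝ := fun j => 1 / ((j : ℝ) + 2)
  have hs0 : ∀ j, 0 < s j := fun j => by positivity
  have hs1 : ∀ j, s j < 1 := by
    intro j
    simp only [s]
    rw [div_lt_one (by positivity)]
    have : (0 : ℝ) ≤ j := Nat.cast_nonneg j
    linarith
  have hslim : Tendsto s atTop (𝓝 0) := by
    have h3 : Tendsto (fun j : ℕ => ((j : ℝ) + 2)) atTop atTop :=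
      tendsto_atTop_add_const_right _ _ tendsto_natCast_atTop_atTop
    exact h3.const_div_atTop 1
  have hneg : Tendsto (fun j => tilt ((-s j) • θ) g₁) atTop (𝓝 g₁) := by
    have h3 := ((tilt_continuous θ g₁).tendsto 0).comp (f := fun j => -s j) (x := atTop)
      (by simpa using hslim.neg)
    rw [zero_smul, tilt_zero] at h3
    exact h3
  have hG' : Tendsto (fun j => t • tilt ((1 - s j) • θ) g₁) atTop (𝓝 (t • tilt θ g₁)) := by
    have h3 := ((tilt_continuous θ g₁).tendsto 1).comp (f := fun j => 1 - s j) (x := atTop)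
      (by simpa using hslim.const_sub 1)
    rw [one_smul] at h3
    exact h3.const_smul t
  have hdetG : (t • tilt θ g₁).det ≠ 0 := by
    rw [Matrix.det_smul, tilt_det hθ]
    exact mul_ne_zero (pow_ne_zero _ ht.ne') hdet1
  have hev := J_vor_lsc hneg hG' hdet1 hdetG hcon
  obtain ⟨j, hj1, hj2⟩ := (hev.and (hneg.eventually hopen)).exists
  have hθs : ∑ i, ((-s j) • θ) i = 0 := sum_smul hθ _
  set gs := tilt ((-s j) • θ) g₁ with hgs
  have hgsdet : |gs.det| = 1 := by rw [hgs, tilt_det hθs]; exact hst.1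
  have hgsdet0 : gs.det ≠ 0 := by rw [hgs, tilt_det hθs]; exact hdet1
  have hgst : Stable gs := hj2 hgsdet
  have htg : (t • gs).det ≠ 0 := by
    rw [Matrix.det_smul]
    exact mul_ne_zero (pow_ne_zero _ ht.ne') hgsdet0
  have htg1 : (t • g₁).det ≠ 0 := by
    rw [Matrix.det_smul]
    exact mul_ne_zero (pow_ne_zero _ ht.ne') hdet1
  have hvol : volume (vor gs) ≠ 0 := by
    rw [vor_volume hgsdet0]
    exact one_ne_zero
  -- `tilt (s θ) (t gs) = t g₁`
  have e1 : tilt (s j • θ) (t • gs) = t • g₁ := by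
    rw [tilt_smul, hgs, tilt_tilt, ← add_smul, add_neg_cancel, zero_smul, tilt_zero]
  have e2 : tilt θ (t • gs) = t • tilt ((1 - s j) • θ) g₁ := by
    rw [tilt_smul, hgs, tilt_tilt]
    congr 2
    rw [sub_smul, one_smul, neg_smul, sub_eq_add_neg]
  have hle1 : J (t • g₁) (vor gs) ≤ F (t • g₁) :=
    J_le_F htg1 (vor_isClosed gs).measurableSet fun m hm => vor_disj hgsdet0 hm
  have hle2 : F (t • g₁) ≤ F (t • gs) := by
    rw [hFg]
    exact hmin gs hgst
  have hF : F (t • gs) = J (t • gs) (vor gs) := by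
    unfold F
    rw [vor_smul ht.ne']
  have hkey := J_decr (vor_isCompact hgsdet0) (vor_convex gs) (fun x hx => vor_neg hx) hvol hθ
    htg (hs0 j) (hs1 j) (by rw [e1, ← hF]; exact hle1.trans hle2)
  rw [e1, e2] at hkey
  exact absurd (hkey.trans hle1) (not_le.2 hj1)

end Pool.Agent.Lib.MP_ddd95a_nt.Mord
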