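import Pool.Agent.Lib.MP_ddd95a_nt.Mg.G007
import Pool.Agent.Lib.MP_ddd95a_nt.Mord.MainB
import Pool.Agent.Lib.MP_ddd95a_nt.Mg.G009
import Pool.Agent.Lib.MP_ddd95a_nt.Mg.G002
import Pool.Agent.Lib.MP_ddd95a_nt.Mg.G005

/-!
# The main theorem
-/

open Matrix MeasureTheory Filter Set
open scoped ENNReal Topology

noncomputable section

namespace Pool.Agent.Lib.MP_ddd95a_nt.Mord

namespace FinAux

/-- Shrinking a box to a given volume. -/
theorem shrink {d : ℕ} (hd : 1 ≤ d) {τ : Fin d → ℝ} (hτ : ∀ i, 0 < τ i) {κ : ℝ} (hκ : 0 < κ)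
    (hle : κ ≤ ∏ i, τ i) : ∃ τ' : Fin d → ℝ, (∀ i, 0 < τ' i) ∧ (∀ i, τ' i ≤ τ i) ∧
      ∏ i, τ' i = κ := by
  have hP : 0 < ∏ i, τ i := Finset.prod_pos fun i _ => hτ i
  set r : ℝ := (κ / ∏ i, τ i) ^ ((1 : ℝ) / d) with hr
  have hq : 0 < κ / ∏ i, τ i := div_pos hκ hP
  have hr0 : 0 < r := Real.rpow_pos_of_pos hq _
  have hr1 : r ≤ 1 := by
    refine Real.rpow_le_one hq.le ?_ (by positivity)
    rw [div_le_one hP]
    exact hle
  have hrd : r ^ d = κ / ∏ i, τ i := by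
    rw [hr, ← Real.rpow_natCast, ← Real.rpow_mul hq.le]
    have : (1 : ℝ) / d * d = 1 := by
      have : (d : ℝ) ≠ 0 := by positivity
      field_simp
    rw [this, Real.rpow_one]
  refine ⟨fun i => r * τ i, fun i => mul_pos hr0 (hτ i), fun i => ?_, ?_⟩
  · have := hτ i
    nlinarith
  · rw [Finset.prod_mul_distrib, Finset.prod_const, Finset.card_univ, Fintype.card_fin, hrd]
    field_simp

theorem bern {d : ℕ} (hd : 1 ≤ d) : 2 / 3 ≤ (1 - 1 / (3 * (d : ℝ))) ^ d := by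
  have hd0 : (1 : ℝ) ≤ d := by exact_mod_cast hd
  have h1 := one_add_mul_le_pow (a := -(1 / (3 * (d : ℝ)))) (by
    have : 1 / (3 * (d : ℝ)) ≤ 1 := by
      rw [div_le_one (by positivity)]
      linarith
    linarith) d
  have h2 : 1 + (d : ℝ) * -(1 / (3 * (d : ℝ))) = 2 / 3 := by
    field_simp
    ring
  rw [h2] at h1
  rw [sub_eq_add_neg]
  exact h1

end FinAux

open FinAux

theorem lower : ∃ C : ℝ, 0 < C ∧ ∀ d : ℕ, 2 ≤ d →
    IsAdmissible d ((C * Real.log d ^ 3) ^ d)⁻¹ := by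
  obtain ⟨C₀, hC₀, hell⟩ := ell
  set b : ℝ := 8 * (C₀ * 27 * Real.sqrt (Real.pi / 2)) with hb
  have hpi : 0 < Real.sqrt (Real.pi / 2) := Real.sqrt_pos.2 (by positivity)
  have hb0 : 0 < b := by positivity
  refine ⟨b, hb0, fun d hd => ?_⟩
  have hd1 : (1 : ℝ) < d := by exact_mod_cast (by omega : 1 < d)
  have hd2 : (2 : ℝ) ≤ d := by exact_mod_cast hd
  have hlog : 0 < Real.log d := Real.log_pos hd1
  have hlog2 : 1 / 2 < Real.log d := by
    have h1 : Real.log 2 ≤ Real.log d := Real.log_le_log (by norm_num) hd2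
    have h2 := Real.log_two_gt_d9
    linarith
  have hκ : 0 < ((b * Real.log d ^ 3) ^ d)⁻¹ := by positivity
  refine ⟨hκ, fun A hA => ?_⟩
  obtain ⟨g, hg, hst⟩ := exists_stable hA
  set t : ℝ := C₀ * (1 + Real.log d) ^ 3 with ht
  have ht0 : 0 < t := by positivity
  have hη0 : (0 : ℝ) ≤ 1 / (3 * d) := by positivity
  have hη1 : 1 / (3 * (d : ℝ)) ≤ 1 := by
    rw [div_le_one (by positivity)]
    linarith
  have hF := main_ind (N := d) ht0 hη0 hη1 (fun n hn1 hn => hell d (by omega) n hn1 hn) d le_rfl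
    g hst
  have hF2 : ENNReal.ofReal (2 / 3) ≤ F (t • g) :=
    le_trans (ENNReal.ofReal_le_ofReal (bern (by omega))) hF
  have hth := theta_le (MainBAux.det_ne hst ht0)
  have hsum : ∑' m : Fin d → ℤ, gw (t • g) (zc m) ≤ ENNReal.ofReal (3 / 2) := by
    set X := ∑' m : Fin d → ℤ, gw (t • g) (zc m) with hX
    have h1 : X * ENNReal.ofReal (2 / 3) ≤ 1 := le_trans (mul_le_mul_right hF2 X) hth
    have h2 : ENNReal.ofReal (3 / 2) = (ENNReal.ofReal (2 / 3))⁻¹ := by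
      rw [← ENNReal.ofReal_inv_of_pos (by norm_num)]
      norm_num
    rw [h2, ← one_div, ENNReal.le_div_iff_mul_le (Or.inl (by simp)) (Or.inl (by simp))]
    exact h1
  obtain ⟨τ, hτ, hprod, hbox⟩ := exists_box ht0 hsum
  obtain ⟨τ', hτ', hprod', hbox'⟩ := box_transfer hA hg hτ hbox
  -- the volume
  have hle : ((b * Real.log d ^ 3) ^ d)⁻¹ ≤ ∏ i, τ' i := by
    rw [hprod']
    have h1 : ((b * Real.log d ^ 3) ^ d)⁻¹ ≤
        (4 * (t * Real.sqrt (Real.pi / 2)) ^ d)⁻¹ / 2 ^ d := by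
      rw [← one_div, ← one_div, div_div, one_div_le_one_div (by positivity) (by positivity)]
      have h2 : (4 : ℝ) ≤ 4 ^ d := by
        calc (4 : ℝ) = 4 ^ 1 := by norm_num
          _ ≤ 4 ^ d := pow_le_pow_right₀ (by norm_num) (by omega)
      have h3 : t ≤ C₀ * 27 * Real.log d ^ 3 := by
        have h4 : 1 + Real.log d ≤ 3 * Real.log d := by linarith
        have h5 : (1 + Real.log d) ^ 3 ≤ (3 * Real.log d) ^ 3 :=
          pow_le_pow_left₀ (by positivity) h4 3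
        rw [ht]
        calc C₀ * (1 + Real.log d) ^ 3 ≤ C₀ * (3 * Real.log d) ^ 3 :=
              mul_le_mul_of_nonneg_left h5 hC₀.le
          _ = C₀ * 27 * Real.log d ^ 3 := by ring
      calc 4 * (t * Real.sqrt (Real.pi / 2)) ^ d * 2 ^ d
          ≤ 4 ^ d * (t * Real.sqrt (Real.pi / 2)) ^ d * 2 ^ d := by gcongr
        _ = (4 * (t * Real.sqrt (Real.pi / 2)) * 2) ^ d := by rw [← mul_pow, ← mul_pow]
        _ ≤ (b * Real.log d ^ 3) ^ d := by
            apply pow_le_pow_left₀ (by positivity)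
            calc 4 * (t * Real.sqrt (Real.pi / 2)) * 2
                ≤ 4 * (C₀ * 27 * Real.log d ^ 3 * Real.sqrt (Real.pi / 2)) * 2 := by gcongr
              _ = b * Real.log d ^ 3 := by rw [hb]; ring
    refine h1.trans ?_
    exact div_le_div_of_nonneg_right hprod (by positivity)
  obtain ⟨σ, hσ, hστ, hσp⟩ := shrink (by omega) hτ' hκ hle
  refine ⟨σ, hσ, hσp, fun u hu => ?_⟩
  by_contra hne
  obtain ⟨i, hi⟩ := hbox' u hne
  have h1 := hu i
  have h2 : (A *ᵥ zc u) i = ∑ j, A i j * (u j : ℝ) := rfl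
  rw [h2] at hi
  linarith [hστ i]

end Pool.Agent.Lib.MP_ddd95a_nt.Mord
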