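import Pool.Agent.Lib.MP_ddd95a_nt.Mord.PL
import Pool.Agent.Lib.MP_ddd95a_nt.Mord.Defs

/-!
# Volumes of polytopes: one step
-/

open Matrix MeasureTheory Filter Set
open scoped ENNReal Topology

noncomputable section

namespace Pool.Agent.Lib.MP_ddd95a_nt.Mord

variable {n : ℕ}

namespace PolyAAux

/-- The change of the sign of one coordinate. -/
def fl (i : Fin n) (x : Fin n → ℝ) : Fin n → ℝ := fun j => if j = i then - x j else x j

lemma fl_mp (i : Fin n) : MeasurePreserving (fl (n := n) i) volume volume := by
  have h := volume_preserving_pi (f := fun (j : Fin n) (t : ℝ) => if j = i then - t else t)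
    (fun j => by
      by_cases hj : j = i
      · simp only [hj, if_true]
        exact Measure.measurePreserving_neg volume
      · simp only [hj, if_false]
        exact MeasurePreserving.id volume)
  exact h

lemma sg_fl (i : Fin n) (e : Fin n → Bool) (x : Fin n → ℝ) :
    sg e ⬝ᵥ fl i x = sg (Function.update e i (!e i)) ⬝ᵥ x := by
  unfold dotProduct
  apply Finset.sum_congr rfl
  intro j _
  by_cases hj : j = i
  · subst hj
    cases h : e j <;> simp [sg, fl, h]
  · simp [sg, fl, hj]

lemma upd_upd (i : Fin n) (e : Fin n → Bool) :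
    Function.update (Function.update e i (!e i)) i (!(Function.update e i (!e i)) i) = e := by
  funext j
  by_cases hj : j = i
  · subst hj; simp
  · simp [hj]

lemma meas_P (H : (Fin n → Bool) → ℝ) : MeasurableSet {x : Fin n → ℝ | ∀ e, sg e ⬝ᵥ x ≤ H e} := by
  rw [ofPred_forall]
  refine MeasurableSet.iInter fun e => ?_
  apply measurableSet_le
  · unfold dotProduct
    fun_prop
  · exact measurable_const

lemma vol_flip (H : (Fin n → Bool) → ℝ) (i : Fin n) :
    volume {x : Fin n → ℝ | ∀ e, sg e ⬝ᵥ x ≤ H (Function.update e i (!e i))} =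
      volume {x : Fin n → ℝ | ∀ e, sg e ⬝ᵥ x ≤ H e} := by
  have h := (fl_mp i).measure_preimage (meas_P H).nullMeasurableSet
  rw [← h]
  congr 1
  ext x
  simp only [mem_ofPred_eq, mem_preimage]
  constructor
  · intro hx e
    rw [sg_fl]
    have := hx (Function.update e i (!e i))
    rwa [upd_upd] at this
  · intro hx e
    have := hx (Function.update e i (!e i))
    rwa [sg_fl, upd_upd] at this

end PolyAAux

open PolyAAux in
/-- Averaging over the sign of one coordinate does not decrease the volume: if `x`, `y` are in
`P_H = {x | ∀ e, ⟨sg e, x⟩ ≤ H e}` and `σ` changes the sign of the coordinate `i`, then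
`(x + σ y) / 2 ∈ P_(H')`, `H' e = (H e + H (σ e)) / 2`. Use `pl` for the indicator functions of `P_H`,
`σ P_H` and `P_(H')`; `volume (σ P_H) = volume P_H`. -/
theorem poly_step (H : (Fin n → Bool) → ℝ) (i : Fin n) :
    volume {x : Fin n → ℝ | ∀ e, sg e ⬝ᵥ x ≤ H e} ≤
      volume {x : Fin n → ℝ | ∀ e, sg e ⬝ᵥ x ≤ (H e + H (Function.update e i (!e i))) / 2} := by
  have hA := meas_P H
  have hB := meas_P (fun e => H (Function.update e i (!e i)))
  have hC := meas_P (fun e => (H e + H (Function.update e i (!e i))) / 2)
  have key := pl (indicator {x : Fin n → ℝ | ∀ e, sg e ⬝ᵥ x ≤ H e} 1)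
    (indicator {x : Fin n → ℝ | ∀ e, sg e ⬝ᵥ x ≤ H (Function.update e i (!e i))} 1)
    (indicator {x : Fin n → ℝ | ∀ e, sg e ⬝ᵥ x ≤ (H e + H (Function.update e i (!e i))) / 2} 1)
    (measurable_one.indicator hA) (measurable_one.indicator hB) (measurable_one.indicator hC)
    (fun x y => by
      by_cases hx : x ∈ {x : Fin n → ℝ | ∀ e, sg e ⬝ᵥ x ≤ H e}
      · by_cases hy : y ∈ {x : Fin n → ℝ | ∀ e, sg e ⬝ᵥ x ≤ H (Function.update e i (!e i))}
        · have hz : (fun i => (x i + y i) / 2) ∈
              {x : Fin n → ℝ | ∀ e, sg e ⬝ᵥ x ≤ (H e + H (Function.update e i (!e i))) / 2} := by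
            intro e
            have h1 := hx e
            have h2 := hy e
            have h3 : sg e ⬝ᵥ (fun i => (x i + y i) / 2) = (sg e ⬝ᵥ x + sg e ⬝ᵥ y) / 2 := by
              unfold dotProduct
              rw [← Finset.sum_add_distrib, Finset.sum_div]
              apply Finset.sum_congr rfl
              intro j _
              ring
            rw [h3]
            linarith
          rw [indicator_of_mem hx, indicator_of_mem hy, indicator_of_mem hz]
          simp
        · rw [indicator_of_notMem hy]; simp
      · rw [indicator_of_notMem hx]; simp)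
  rw [lintegral_indicator_one hA, lintegral_indicator_one hB, lintegral_indicator_one hC,
    vol_flip H i, ← sq] at key
  exact (ENNReal.pow_le_pow_left_iff (by norm_num)).1 key

end Pool.Agent.Lib.MP_ddd95a_nt.Mord
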