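import Pool.Agent.Lib.MP_ddd95a_nt.Mord.Defs

/-!
# Primitive integer vectors
-/

open Matrix MeasureTheory Filter Set
open scoped ENNReal Topology

noncomputable section

namespace Pool.Agent.Lib.MP_ddd95a_nt.Mord

namespace PrimAAux

theorem aux_basis {k : ℕ} (x : Fin (k + 1) → ℤ) (hx0 : x ≠ 0) :
    ∃ (b : Module.Basis (Fin (k + 1)) ℤ (Fin (k + 1) → ℤ)) (j : Fin (k + 1)) (s : ℤ),
      x = s • b j := by
  obtain ⟨n, b, bN, f, a, snf⟩ :=
    Submodule.smithNormalForm (Pi.basisFun ℤ (Fin (k + 1))) (Submodule.span ℤ {x})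
  have hxN : x ∈ Submodule.span ℤ {x} := Submodule.mem_span_singleton_self x
  have hn : ∃ i : Fin n, True := by
    by_contra hcon
    push Not at hcon
    have : (⟨x, hxN⟩ : Submodule.span ℤ {x}) = 0 := by
      rw [← bN.sum_repr ⟨x, hxN⟩]
      exact Finset.sum_eq_zero (fun i _ => (hcon i).elim)
    exact hx0 (congrArg Subtype.val this)
  obtain ⟨i, -⟩ := hn
  have hmem : ((bN i : Submodule.span ℤ {x}) : Fin (k + 1) → ℤ) ∈ Submodule.span ℤ {x} :=
    (bN i).2
  obtain ⟨m, hm⟩ := Submodule.mem_span_singleton.1 hmem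
  have hne : ((bN i : Submodule.span ℤ {x}) : Fin (k + 1) → ℤ) ≠ 0 := by
    intro h0
    exact bN.ne_zero i (Subtype.ext h0)
  have hm0 : m ≠ 0 := by
    intro h0
    rw [h0, zero_smul] at hm
    exact hne hm.symm
  refine ⟨b, f i, b.repr x (f i), ?_⟩
  have hcoord : ∀ j, j ≠ f i → b.repr x j = 0 := by
    intro j hj
    have h1 : b.repr (m • x) j = 0 := by
      rw [hm, snf i]
      rw [map_smul, Finsupp.smul_apply, b.repr_self, Finsupp.single_apply,
        if_neg (fun h => hj h.symm), smul_zero]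
    rw [map_smul, Finsupp.smul_apply, smul_eq_mul] at h1
    exact (mul_eq_zero.1 h1).resolve_left hm0
  conv_lhs => rw [← b.sum_repr x]
  rw [Finset.sum_eq_single (f i)]
  · intro j _ hj
    rw [hcoord j hj, zero_smul]
  · intro h
    exact absurd (Finset.mem_univ _) h

end PrimAAux

/-- A primitive integer vector is the first column of an integer matrix of determinant `± 1`.
Proof: the quotient of `ℤ^(k+1)` by `ℤ x` is torsion free (`x` primitive), hence free, so `ℤ x` is a
direct summand; or by induction with Bezout coefficients (column operations). -/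
theorem extend_prim {k : ℕ} (x : Fin (k + 1) → ℤ) (hx0 : x ≠ 0)
    (hx : ∀ (m : ℤ) (y : Fin (k + 1) → ℤ), x = m • y → |m| = 1) :
    ∃ U : Matrix (Fin (k + 1)) (Fin (k + 1)) ℤ, |U.det| = 1 ∧ ∀ i, U i 0 = x i := by
  obtain ⟨b, j, s, hs⟩ := PrimAAux.aux_basis x hx0
  have hs1 : |s| = 1 := hx s (b j) hs
  have hsu : IsUnit s := Int.isUnit_iff_abs_eq.2 hs1
  obtain ⟨u, hu⟩ := hsu
  set b' := (b.reindex (Equiv.swap 0 j)).unitsSMul (fun c => if c = 0 then u else 1) with hb'
  refine ⟨(Pi.basisFun ℤ (Fin (k + 1))).toMatrix b', ?_, ?_⟩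
  · have h1 : IsUnit ((Pi.basisFun ℤ (Fin (k + 1))).det b') := Module.Basis.isUnit_det _ b'
    rw [Module.Basis.det_apply] at h1
    exact Int.isUnit_iff_abs_eq.1 h1
  · intro i
    rw [Module.Basis.toMatrix_apply, Pi.basisFun_repr, hb', Module.Basis.unitsSMul_apply,
      if_pos rfl, Module.Basis.reindex_apply, Equiv.symm_swap, Equiv.swap_apply_left, hs, ← hu]
    rfl

end Pool.Agent.Lib.MP_ddd95a_nt.Mord
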