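import Pool.Agent.Lib.MP_ddd95a_nt.Mord.Defs

/-!
# Shortest integer vectors
-/

open Matrix MeasureTheory Filter Set
open scoped ENNReal Topology

noncomputable section

namespace Pool.Agent.Lib.MP_ddd95a_nt.Mord

namespace PrimBAux

/-- A left inverse of `V`. -/
lemma left_inv {n k : ℕ} (V : Matrix (Fin n) (Fin k) ℝ) (hV : 0 < gr V) (x : Fin k → ℝ) :
    ((Vᵀ * V)⁻¹ * Vᵀ) *ᵥ (V *ᵥ x) = x := by
  have hu : IsUnit (Vᵀ * V).det := by
    rw [gr] at hV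
    exact hV.ne'.isUnit
  rw [Matrix.mulVec_mulVec, Matrix.mul_assoc, Matrix.nonsing_inv_mul _ hu, Matrix.one_mulVec]

lemma qf_nonneg {n k : ℕ} (V : Matrix (Fin n) (Fin k) ℝ) (x : Fin k → ℝ) : 0 ≤ qf V x :=
  Finset.sum_nonneg fun _ _ => sq_nonneg _

lemma zc_eq_zero {k : ℕ} (x : Fin k → ℤ) (h : zc x = 0) : x = 0 := by
  funext i
  have := congrFun h i
  simp only [zc, Pi.zero_apply, Int.cast_eq_zero] at this
  exact this

lemma bound {n k : ℕ} (V : Matrix (Fin n) (Fin k) ℝ) (hV : 0 < gr V) (K : ℝ) :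
    ∃ B : ℤ, ∀ x : Fin k → ℤ, qf V (zc x) ≤ K → ∀ i, -B ≤ x i ∧ x i ≤ B := by
  set W := (Vᵀ * V)⁻¹ * Vᵀ with hW
  refine ⟨⌈(∑ i, ∑ j, |W i j|) * Real.sqrt K⌉, ?_⟩
  intro x hx i
  have hK : 0 ≤ K := (qf_nonneg V _).trans hx
  have hj : ∀ j, |(V *ᵥ zc x) j| ≤ Real.sqrt K := by
    intro j
    apply Real.abs_le_sqrt
    refine le_trans ?_ hx
    exact Finset.single_le_sum (f := fun i => (V *ᵥ zc x) i ^ 2)
      (fun _ _ => sq_nonneg _) (Finset.mem_univ j)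
  have h1 : (x i : ℝ) = ∑ j, W i j * (V *ᵥ zc x) j := by
    have := congrFun (left_inv V hV (zc x)) i
    rw [← hW] at this
    rw [Matrix.mulVec, dotProduct] at this
    exact this.symm
  have h2 : |(x i : ℝ)| ≤ (∑ i, ∑ j, |W i j|) * Real.sqrt K := by
    rw [h1]
    refine (Finset.abs_sum_le_sum_abs _ _).trans ?_
    have h3 : ∑ j, |W i j * (V *ᵥ zc x) j| ≤ (∑ j, |W i j|) * Real.sqrt K := by
      rw [Finset.sum_mul]
      apply Finset.sum_le_sum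
      intro j _
      rw [abs_mul]
      exact mul_le_mul_of_nonneg_left (hj j) (abs_nonneg _)
    refine h3.trans (mul_le_mul_of_nonneg_right ?_ (Real.sqrt_nonneg _))
    exact Finset.single_le_sum (f := fun i => ∑ j, |W i j|)
      (fun _ _ => Finset.sum_nonneg fun _ _ => abs_nonneg _) (Finset.mem_univ i)
  rw [abs_le] at h2
  have hc := Int.le_ceil ((∑ i, ∑ j, |W i j|) * Real.sqrt K)
  constructor
  · have h4 : ((-⌈(∑ i, ∑ j, |W i j|) * Real.sqrt K⌉ : ℤ) : ℝ) ≤ (x i : ℝ) := by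
      push_cast
      linarith [h2.1]
    exact_mod_cast h4
  · have h4 : (x i : ℝ) ≤ ((⌈(∑ i, ∑ j, |W i j|) * Real.sqrt K⌉ : ℤ) : ℝ) := by
      linarith [h2.2]
    exact_mod_cast h4

end PrimBAux

open PrimBAux in
/-- Existence of a shortest vector: `V` is injective on `ℝ^(k+1)`, so `|V x|² ≥ c |x|²` with `c > 0`
and only finitely many integer vectors have `|V x|² ≤ K`. -/
theorem exists_min {n k : ℕ} (V : Matrix (Fin n) (Fin (k + 1)) ℝ) (hV : 0 < gr V) :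
    ∃ x : Fin (k + 1) → ℤ, x ≠ 0 ∧ ∀ y : Fin (k + 1) → ℤ, y ≠ 0 →
      qf V (zc x) ≤ qf V (zc y) := by
  obtain ⟨B, hB⟩ := bound V hV (qf V (zc (fun _ => 1)))
  have hfin : {y : Fin (k + 1) → ℤ | y ≠ 0 ∧ qf V (zc y) ≤ qf V (zc (fun _ => 1))}.Finite := by
    apply (Set.finite_Icc (fun _ : Fin (k + 1) => -B) (fun _ => B)).subset
    intro y hy
    exact ⟨fun i => (hB y hy.2 i).1, fun i => (hB y hy.2 i).2⟩
  have h1 : (fun _ => 1 : Fin (k + 1) → ℤ) ≠ 0 := by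
    intro h
    exact one_ne_zero (congrFun h 0)
  obtain ⟨x, hx, hmin⟩ := Set.exists_min_image _ (fun y : Fin (k + 1) → ℤ => qf V (zc y)) hfin
    ⟨fun _ => 1, h1, le_refl _⟩
  refine ⟨x, hx.1, ?_⟩
  intro y hy
  by_cases h : qf V (zc y) ≤ qf V (zc (fun _ => 1))
  · exact hmin y ⟨hy, h⟩
  · exact hx.2.trans (not_le.1 h).le

open PrimBAux in
/-- The minimal value is positive. -/
theorem min_pos {n k : ℕ} (V : Matrix (Fin n) (Fin k) ℝ) (hV : 0 < gr V) (x : Fin k → ℤ)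
    (hx : x ≠ 0) : 0 < qf V (zc x) := by
  apply lt_of_le_of_ne (qf_nonneg V _)
  intro h
  apply hx
  apply zc_eq_zero
  have h2 : V *ᵥ zc x = 0 := by
    funext j
    have h3 := (Finset.sum_eq_zero_iff_of_nonneg
      (fun i _ => sq_nonneg ((V *ᵥ zc x) i))).1 h.symm j (Finset.mem_univ j)
    exact pow_eq_zero_iff (two_ne_zero) |>.1 h3
  rw [← left_inv V hV (zc x), h2, Matrix.mulVec_zero]

end Pool.Agent.Lib.MP_ddd95a_nt.Mord
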