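import Pool.Agent.Lib.MP_ddd95a_nt.Mord.Defs

/-!
# Projection orthogonal to a column
-/

open Matrix MeasureTheory Filter Set
open scoped ENNReal Topology

noncomputable section

namespace Pool.Agent.Lib.MP_ddd95a_nt.Mord

namespace PrimCAux

lemma det_cols {n k : ℕ} (V : Matrix (Fin n) (Fin (k + 1)) ℝ) (W : Matrix (Fin n) (Fin k) ℝ)
    (μ : Fin k → ℝ) (h : ∀ i j, V i j.succ = W i j + μ j * V i 0)
    (h0 : ∀ j, ∑ i, W i j * V i 0 = 0) : gr V = (∑ i, V i 0 ^ 2) * gr W := by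
  set X : Matrix (Fin n) (Fin (k + 1)) ℝ :=
    Matrix.of fun i j => (Fin.cons (V i 0) (fun j => W i j) : Fin (k + 1) → ℝ) j with hX
  set T : Matrix (Fin (k + 1)) (Fin (k + 1)) ℝ :=
    Matrix.of fun i j => (Fin.cons ((Fin.cons 1 μ : Fin (k + 1) → ℝ) j)
      (fun i' => (Fin.cons 0 (fun j' => if i' = j' then 1 else 0) : Fin (k + 1) → ℝ) j) :
      Fin (k + 1) → ℝ) i with hT
  have hX0 : ∀ i, X i 0 = V i 0 := fun i => rfl
  have hXs : ∀ i (j : Fin k), X i j.succ = W i j := fun i j => rfl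
  have hT00 : T 0 0 = 1 := rfl
  have hT0s : ∀ j : Fin k, T 0 j.succ = μ j := fun j => rfl
  have hTs0 : ∀ i : Fin k, T i.succ 0 = 0 := fun i => rfl
  have hTss : ∀ i j : Fin k, T i.succ j.succ = if i = j then 1 else 0 := fun i j => rfl
  have hV : V = X * T := by
    ext i j
    rw [Matrix.mul_apply, Fin.sum_univ_succ]
    refine Fin.cases ?_ (fun j => ?_) j
    · rw [hX0, hT00, mul_one, Finset.sum_eq_zero, add_zero]
      intro l _
      rw [hTs0, mul_zero]
    · rw [hX0, hT0s, h]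
      have h1 : ∑ l : Fin k, X i l.succ * T l.succ j.succ = W i j := by
        simp only [hXs, hTss, mul_ite, mul_one, mul_zero]
        rw [Finset.sum_ite_eq' Finset.univ j (fun l => W i l)]
        simp
      rw [h1]
      ring
  have hdT : T.det = 1 := by
    rw [Matrix.det_succ_column_zero, Fin.sum_univ_succ, Finset.sum_eq_zero, add_zero, hT00]
    · have h1 : (T.submatrix (Fin.succAbove 0) Fin.succ) = 1 := by
        ext i j
        rw [Matrix.submatrix_apply, Fin.succAbove_zero, hTss, Matrix.one_apply]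
      rw [h1]
      simp
    · intro i _
      rw [hTs0]
      simp
  have hdX : (Xᵀ * X).det = (∑ i, V i 0 ^ 2) * (Wᵀ * W).det := by
    have h00 : (Xᵀ * X) 0 0 = ∑ i, V i 0 ^ 2 := by
      rw [Matrix.mul_apply]
      refine Finset.sum_congr rfl fun i _ => ?_
      rw [Matrix.transpose_apply, hX0]
      ring
    have h0s : ∀ j : Fin k, (Xᵀ * X) 0 j.succ = 0 := by
      intro j
      rw [Matrix.mul_apply, ← h0 j]
      refine Finset.sum_congr rfl fun i _ => ?_
      rw [Matrix.transpose_apply, hX0, hXs]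
      ring
    rw [Matrix.det_succ_row_zero, Fin.sum_univ_succ, Finset.sum_eq_zero, add_zero, h00]
    · have h1 : ((Xᵀ * X).submatrix Fin.succ (Fin.succAbove 0)) = Wᵀ * W := by
        ext i j
        rw [Matrix.submatrix_apply, Fin.succAbove_zero, Matrix.mul_apply, Matrix.mul_apply]
        rfl
      rw [h1]
      simp
    · intro j _
      rw [h0s]
      simp
  unfold gr
  rw [← hdX]
  have h2 : Vᵀ * V = Tᵀ * (Xᵀ * X) * T := by
    conv_lhs => rw [hV]
    rw [Matrix.transpose_mul]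
    simp only [Matrix.mul_assoc]
  rw [h2, Matrix.det_mul, Matrix.det_mul, Matrix.det_transpose, hdT]
  ring

end PrimCAux

/-- Projection orthogonal to the first column: with `q = |V e₀|² > 0` and
`μ j = ⟨V e₀, V e_(j+1)⟩ / q`, the matrix `V''` has the columns `V e_(j+1) - μ j V e₀`, orthogonal to
`V e₀`; `gr V = q gr V''` (column operations make `Vᵀ V` block diagonal), and
`|V (a, y)|² = q (a + ∑ μ j y j)² + |V'' y|²`. -/
theorem proj_first {n k : ℕ} (V : Matrix (Fin n) (Fin (k + 1)) ℝ) {q : ℝ} (hq : 0 < q)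
    (hVq : ∑ i, V i 0 ^ 2 = q) :
    ∃ (V'' : Matrix (Fin n) (Fin k) ℝ) (μ : Fin k → ℝ),
      (∀ i j, V i j.succ = V'' i j + μ j * V i 0) ∧
      (∀ j, ∑ i, V'' i j * V i 0 = 0) ∧
      gr V = q * gr V'' ∧
      (∀ (a : ℝ) (y : Fin k → ℝ), qf V (Fin.cons a y) = q * (a + ∑ j, μ j * y j) ^ 2 +
        qf V'' y) := by
  set μ : Fin k → ℝ := fun j => (∑ i, V i j.succ * V i 0) / q with hμ
  set W : Matrix (Fin n) (Fin k) ℝ := Matrix.of fun i j => V i j.succ - μ j * V i 0 with hW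
  have hWa : ∀ i j, W i j = V i j.succ - μ j * V i 0 := fun i j => rfl
  have h1 : ∀ i j, V i j.succ = W i j + μ j * V i 0 := fun i j => by rw [hWa]; ring
  have h2 : ∀ j, ∑ i, W i j * V i 0 = 0 := by
    intro j
    have e1 : ∑ i, W i j * V i 0 = (∑ i, V i j.succ * V i 0) - μ j * ∑ i, V i 0 ^ 2 := by
      rw [Finset.mul_sum, ← Finset.sum_sub_distrib]
      refine Finset.sum_congr rfl fun i _ => ?_
      rw [hWa]
      ring
    rw [e1, hVq, hμ, div_mul_cancel₀ _ hq.ne', sub_self]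
  refine ⟨W, μ, h1, h2, ?_, ?_⟩
  · rw [PrimCAux.det_cols V W μ h1 h2, hVq]
  · intro a y
    have e1 : ∀ i, (V *ᵥ (Fin.cons a y : Fin (k + 1) → ℝ)) i =
        V i 0 * (a + ∑ j, μ j * y j) + (W *ᵥ y) i := by
      intro i
      rw [Matrix.mulVec, dotProduct, Fin.sum_univ_succ, Matrix.mulVec, dotProduct, Fin.cons_zero,
        mul_add, Finset.mul_sum, add_assoc, ← Finset.sum_add_distrib]
      congr 1
      refine Finset.sum_congr rfl fun j _ => ?_
      rw [Fin.cons_succ, h1]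
      ring
    have e2 : ∑ i, V i 0 * (W *ᵥ y) i = 0 := by
      have e3 : ∑ i, V i 0 * (W *ᵥ y) i = ∑ j, y j * ∑ i, W i j * V i 0 := by
        simp only [Matrix.mulVec, dotProduct, Finset.mul_sum]
        rw [Finset.sum_comm]
        refine Finset.sum_congr rfl fun j _ => Finset.sum_congr rfl fun i _ => ?_
        ring
      rw [e3]
      refine Finset.sum_eq_zero fun j _ => ?_
      rw [h2, mul_zero]
    unfold qf
    have e4 : ∑ i, (V *ᵥ (Fin.cons a y : Fin (k + 1) → ℝ)) i ^ 2 =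
        (∑ i, V i 0 ^ 2) * (a + ∑ j, μ j * y j) ^ 2 +
        2 * (a + ∑ j, μ j * y j) * (∑ i, V i 0 * (W *ᵥ y) i) + ∑ i, (W *ᵥ y) i ^ 2 := by
      rw [Finset.sum_mul, Finset.mul_sum, ← Finset.sum_add_distrib, ← Finset.sum_add_distrib]
      refine Finset.sum_congr rfl fun i _ => ?_
      rw [e1]
      ring
    rw [e4, e2, hVq]
    ring

end Pool.Agent.Lib.MP_ddd95a_nt.Mord
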