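import Pool.Agent.Lib.MP_ddd95a_nt.Mg.G001
import Pool.Agent.Lib.MP_ddd95a_nt.Mord.PrimA
import Pool.Agent.Lib.MP_ddd95a_nt.Mord.PrimB
import Pool.Agent.Lib.MP_ddd95a_nt.Mord.PrimC

/-!
# Reduction theory: one step
-/

open Matrix MeasureTheory Filter Set
open scoped ENNReal Topology

noncomputable section

namespace Pool.Agent.Lib.MP_ddd95a_nt.Mord

namespace RedStepAux

lemma zc_smul {k : ℕ} (m : ℤ) (y : Fin k → ℤ) : zc (m • y) = (m : ℝ) • zc y := by
  funext i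
  simp [zc]

lemma qf_smul_vec {n k : ℕ} (V : Matrix (Fin n) (Fin k) ℝ) (c : ℝ) (x : Fin k → ℝ) :
    qf V (c • x) = c ^ 2 * qf V x := by
  unfold qf
  rw [Matrix.mulVec_smul, Finset.mul_sum]
  refine Finset.sum_congr rfl fun i _ => ?_
  rw [Pi.smul_apply, smul_eq_mul, mul_pow]

lemma zc_cons {k : ℕ} (a : ℤ) (y : Fin k → ℤ) :
    zc (Fin.cons a y : Fin (k + 1) → ℤ) = (Fin.cons (a : ℝ) (zc y) : Fin (k + 1) → ℝ) := by
  funext i
  refine Fin.cases ?_ (fun j => ?_) i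
  · simp [zc]
  · simp [zc]

end RedStepAux

/-- One step of the reduction. Proof: take a shortest integer vector `x` (`exists_min`, `min_pos`);
it is primitive (if `x = m y` then `qf V (zc x) = m² qf V (zc y)` and minimality gives `|m| = 1`);
extend it to `U` (`extend_prim`); apply `proj_first` to `V * rm U`, whose first column is `V x`, so
that `q = qf V (zc x)`. `gr (V * rm U) = gr V` (`gr_unimod`). For `y ≠ 0` integer choose the integer
`a` with `|a + ∑ μ j y j| ≤ 1/2`: `q ≤ |V U (a, y)|² = q (a + ∑ μ j y j)² + |V'' y|² ≤ q / 4 + |V'' y|²`. -/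
theorem red_step {n k : ℕ} (V : Matrix (Fin n) (Fin (k + 1)) ℝ) (hV : 0 < gr V) :
    ∃ (U : Matrix (Fin (k + 1)) (Fin (k + 1)) ℤ) (q : ℝ) (V'' : Matrix (Fin n) (Fin k) ℝ)
      (μ : Fin k → ℝ), |U.det| = 1 ∧ 0 < q ∧
      (∀ x : Fin (k + 1) → ℤ, x ≠ 0 → q ≤ qf V (zc x)) ∧
      (∃ x : Fin (k + 1) → ℤ, x ≠ 0 ∧ qf V (zc x) = q) ∧
      ∑ i, (V * rm U) i 0 ^ 2 = q ∧
      (∀ i j, (V * rm U) i j.succ = V'' i j + μ j * (V * rm U) i 0) ∧
      (∀ j, ∑ i, V'' i j * (V * rm U) i 0 = 0) ∧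
      gr V = q * gr V'' ∧
      (∀ y : Fin k → ℤ, y ≠ 0 → 3 / 4 * q ≤ qf V'' (zc y)) := by
  obtain ⟨x, hx0, hmin⟩ := exists_min V hV
  have hq : 0 < qf V (zc x) := min_pos V hV x hx0
  have hprim : ∀ (m : ℤ) (y : Fin (k + 1) → ℤ), x = m • y → |m| = 1 := by
    intro m y hxy
    have hm0 : m ≠ 0 := by
      rintro rfl
      rw [zero_smul] at hxy
      exact hx0 hxy
    have hy0 : y ≠ 0 := by
      rintro rfl
      rw [smul_zero] at hxy
      exact hx0 hxy
    have h1 := hmin y hy0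
    have h2 := min_pos V hV y hy0
    rw [hxy, RedStepAux.zc_smul, RedStepAux.qf_smul_vec] at h1
    have h3 : (m : ℝ) ^ 2 ≤ 1 := by
      by_contra hcon
      push Not at hcon
      nlinarith
    have h4 : m ^ 2 ≤ 1 := by exact_mod_cast h3
    have h5 : |m| ≤ 1 := by
      rw [← abs_one]
      exact sq_le_sq.1 (by rw [one_pow]; exact h4)
    have h6 : 1 ≤ |m| := Int.one_le_abs hm0
    exact le_antisymm h5 h6
  obtain ⟨U, hU, hUx⟩ := extend_prim x hx0 hprim
  have hcol : ∀ i, (V * rm U) i 0 = (V *ᵥ zc x) i := by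
    intro i
    rw [Matrix.mul_apply]
    simp only [Matrix.mulVec, dotProduct]
    refine Finset.sum_congr rfl fun l _ => ?_
    rw [rm, Matrix.map_apply, hUx l, zc]
  have hsum : ∑ i, (V * rm U) i 0 ^ 2 = qf V (zc x) := by
    unfold qf
    exact Finset.sum_congr rfl fun i _ => by rw [hcol i]
  obtain ⟨V'', μ, h1, h2, h3, h4⟩ := proj_first (V * rm U) hq hsum
  rw [gr_unimod V hU] at h3
  refine ⟨U, qf V (zc x), V'', μ, hU, hq, hmin, ⟨x, hx0, rfl⟩, hsum, h1, h2, h3, ?_⟩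
  intro y hy
  set s : ℝ := ∑ j, μ j * zc y j with hs
  set w : Fin (k + 1) → ℤ := Fin.cons (-round s) y with hw
  have hw0 : w ≠ 0 := by
    intro h0
    apply hy
    funext j
    have := congrFun h0 j.succ
    simpa [hw] using this
  have hUdet : U.det ≠ 0 := by
    intro h0
    rw [h0, abs_zero] at hU
    exact zero_ne_one hU
  have hUw : U *ᵥ w ≠ 0 := fun h0 => hw0 (Matrix.eq_zero_of_mulVec_eq_zero hUdet h0)
  have h5 := hmin (U *ᵥ w) hUw
  rw [← rm_mulVec, ← qf_mul, hw, RedStepAux.zc_cons, h4] at h5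
  have h6 : (((-round s : ℤ) : ℝ) + s) ^ 2 ≤ 1 / 4 := by
    have h7 := abs_sub_round s
    have h8 : ((-round s : ℤ) : ℝ) + s = s - round s := by push_cast; ring
    rw [h8, ← sq_abs]
    have h9 := abs_nonneg (s - round s)
    nlinarith
  rw [← hs] at h5
  nlinarith

end Pool.Agent.Lib.MP_ddd95a_nt.Mord
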