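import Pool.Agent.Lib.MP_ddd95a_nt.Mord.Defs

/-!
# Rotation by 45 degrees
-/

open Matrix MeasureTheory Filter Set
open scoped ENNReal Topology

noncomputable section

namespace Pool.Agent.Lib.MP_ddd95a_nt.Mord

variable {n : ℕ}

/-- Rotation by 45 degrees on pairs. Proof: the linear map `(u, v) ↦ ((u + v)/√2, (v - u)/√2)` of
`(Fin n → ℝ) × (Fin n → ℝ)` preserves the volume (`MeasureTheory.MeasurePreserving`; determinant one;
or coordinatewise) and `|x|² + |y|² = |u|² + |v|²`. -/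
theorem rot_integral (Φ : (Fin n → ℝ) × (Fin n → ℝ) → ℝ) :
    ∫ z : (Fin n → ℝ) × (Fin n → ℝ), Φ z =
      ∫ z : (Fin n → ℝ) × (Fin n → ℝ),
        Φ ((Real.sqrt 2)⁻¹ • (z.1 + z.2), (Real.sqrt 2)⁻¹ • (z.2 - z.1)) := by
  let L : ((Fin n → ℝ) × (Fin n → ℝ)) →ₗ[ℝ] ((Fin n → ℝ) × (Fin n → ℝ)) :=
    LinearMap.prod
      ((Real.sqrt 2)⁻¹ • (LinearMap.fst ℝ (Fin n → ℝ) (Fin n → ℝ) +
        LinearMap.snd ℝ (Fin n → ℝ) (Fin n → ℝ)))
      ((Real.sqrt 2)⁻¹ • (LinearMap.snd ℝ (Fin n → ℝ) (Fin n → ℝ) -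
        LinearMap.fst ℝ (Fin n → ℝ) (Fin n → ℝ)))
  have hL : ∀ z, L z = ((Real.sqrt 2)⁻¹ • (z.1 + z.2), (Real.sqrt 2)⁻¹ • (z.2 - z.1)) :=
    fun z => rfl
  have hs : (Real.sqrt 2)⁻¹ * (Real.sqrt 2)⁻¹ = 1 / 2 := by
    rw [← mul_inv, Real.mul_self_sqrt (by norm_num), one_div]
  have h2 : ∀ z, L (L z) = (z.2, -z.1) := by
    intro z
    rw [hL, hL]
    refine Prod.ext ?_ ?_
    · funext i
      simp only [Pi.smul_apply, Pi.add_apply, Pi.sub_apply, smul_eq_mul]
      linear_combination (2 * z.2 i) * hs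
    · funext i
      simp only [Pi.smul_apply, Pi.add_apply, Pi.sub_apply, smul_eq_mul, Pi.neg_apply]
      linear_combination (-2 * z.1 i) * hs
  have h8 : L ^ 8 = 1 := by
    ext1
    · refine LinearMap.ext fun z => ?_
      change L (L (L (L (L (L (L (L (z, 0)))))))) = (z, 0)
      simp only [h2, neg_neg]
    · refine LinearMap.ext fun z => ?_
      change L (L (L (L (L (L (L (L (0, z)))))))) = (0, z)
      simp only [h2, neg_neg]
  have hdet : |LinearMap.det L| = 1 := by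
    have h3 : (LinearMap.det L) ^ 8 = 1 := by
      rw [← map_pow, h8, map_one]
    have h4 : |LinearMap.det L| ^ 8 = 1 := by
      rw [← abs_pow, h3, abs_one]
    exact (pow_eq_one_iff_of_nonneg (abs_nonneg _) (by norm_num)).1 h4
  have hdet0 : LinearMap.det L ≠ 0 := by
    intro h0
    rw [h0, abs_zero] at hdet
    exact zero_ne_one hdet
  have hadd : (volume : Measure ((Fin n → ℝ) × (Fin n → ℝ))).IsAddHaarMeasure :=
    Measure.prod.instIsAddHaarMeasure (volume : Measure (Fin n → ℝ))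
      (volume : Measure (Fin n → ℝ))
  have hmp : MeasurePreserving L volume volume := by
    refine ⟨L.continuous_of_finiteDimensional.measurable, ?_⟩
    rw [Measure.map_linearMap_addHaar_eq_smul_addHaar volume hdet0, abs_inv, hdet, inv_one,
      ENNReal.ofReal_one, one_smul]
  let e : ((Fin n → ℝ) × (Fin n → ℝ)) ≃L[ℝ] ((Fin n → ℝ) × (Fin n → ℝ)) :=
    (LinearEquiv.ofIsUnitDet (f := L) (v := Module.finBasis ℝ _) (v' := Module.finBasis ℝ _)
      (by rw [LinearMap.det_toMatrix]; exact isUnit_iff_ne_zero.2 hdet0)).toContinuousLinearEquiv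
  have hemb : MeasurableEmbedding L := e.toHomeomorph.measurableEmbedding
  exact (hmp.integral_comp hemb Φ).symm

end Pool.Agent.Lib.MP_ddd95a_nt.Mord
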