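import Pool.Agent.Lib.MP_ddd95a_nt.Mg.G009

/-!
# An exponential upper bound
-/

open Matrix

noncomputable section

namespace Pool.Agent.Lib.MP_ddd95a_nt.Mord

namespace UppAux

/-- All empty boxes of the matrix `A` have half volume at most `q`. -/
def Bd {d : ℕ} (A : Matrix (Fin d) (Fin d) ℝ) (q : ℝ) : Prop :=
  ∀ τ : Fin d → ℝ, (∀ i, 0 < τ i) →
    (∀ u : Fin d → ℤ, (∀ i, |∑ j, A i j * (u j : ℝ)| ≤ τ i) → u = 0) → ∏ i, τ i ≤ q

theorem bd_zero : Bd (1 : Matrix (Fin 0) (Fin 0) ℝ) 1 := by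
  intro τ _ _
  simp

theorem bd_one : Bd (1 : Matrix (Fin 1) (Fin 1) ℝ) 1 := by
  intro τ _ h
  by_contra hcon
  push Not at hcon
  have h1 := h (fun _ => 1) (by
    intro i
    have : i = 0 := Subsingleton.elim _ _
    subst this
    simp at hcon ⊢
    exact hcon.le)
  exact one_ne_zero (congrFun h1 0)

theorem bd_step {d : ℕ} {A : Matrix (Fin d) (Fin d) ℝ} {q : ℝ} (h : Bd A q) (hA : A.det = 1) :
    ∃ A' : Matrix (Fin (2 + d)) (Fin (2 + d)) ℝ, A'.det = 1 ∧
      Bd A' (181 / 250 * q) := by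
  refine ⟨Matrix.reindex finSumFinEquiv finSumFinEquiv (fromBlocks gold 0 0 A), ?_, ?_⟩
  · rw [Matrix.det_reindex_self, Matrix.det_fromBlocks_zero₂₁, gold_det, hA, one_mul]
  · intro τ hτ hb
    rw [Fin.prod_univ_add, Fin.prod_univ_two]
    have hsum : ∀ (i : Fin 2 ⊕ Fin d) (u : Fin (2 + d) → ℤ),
        ∑ j, (Matrix.reindex finSumFinEquiv finSumFinEquiv (fromBlocks gold 0 0 A))
          (finSumFinEquiv i) j * (u j : ℝ) =
        ∑ j, (fromBlocks gold 0 0 A) i j * (u (finSumFinEquiv j) : ℝ) := by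
      intro i u
      rw [← Equiv.sum_comp finSumFinEquiv]
      refine Finset.sum_congr rfl fun j _ => ?_
      simp [Matrix.reindex_apply]
    refine mul_le_mul ?_ ?_ (Finset.prod_nonneg fun i _ => (hτ _).le) (by norm_num)
    · refine gold_box (hτ _) (hτ _) fun u h0 h1 => ?_
      have h2 := hb (Fin.append u 0) (by
        intro i
        obtain ⟨i, rfl⟩ := finSumFinEquiv.surjective i
        rw [hsum, Fintype.sum_sum_type]
        rcases i with i | i
        · have e1 : ∑ j : Fin 2, (fromBlocks gold 0 0 A) (Sum.inl i) (Sum.inl j) *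
              ((Fin.append u (0 : Fin d → ℤ) (finSumFinEquiv (Sum.inl j)) : ℤ) : ℝ) +
              ∑ j : Fin d, (fromBlocks gold 0 0 A) (Sum.inl i) (Sum.inr j) *
              ((Fin.append u (0 : Fin d → ℤ) (finSumFinEquiv (Sum.inr j)) : ℤ) : ℝ) =
              ∑ j, gold i j * (u j : ℝ) := by
            simp
          rw [e1]
          have hi : i = 0 ∨ i = 1 := by
            fin_cases i
            · exact Or.inl rfl
            · exact Or.inr rfl
          rcases hi with rfl | rfl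
          · exact h0
          · exact h1
        · have e1 : ∑ j : Fin 2, (fromBlocks gold 0 0 A) (Sum.inr i) (Sum.inl j) *
              ((Fin.append u (0 : Fin d → ℤ) (finSumFinEquiv (Sum.inl j)) : ℤ) : ℝ) +
              ∑ j : Fin d, (fromBlocks gold 0 0 A) (Sum.inr i) (Sum.inr j) *
              ((Fin.append u (0 : Fin d → ℤ) (finSumFinEquiv (Sum.inr j)) : ℤ) : ℝ) = 0 := by
            simp
          rw [e1, abs_zero]
          exact (hτ _).le)
      funext i
      have h3 := congrFun h2 (Fin.castAdd d i)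
      rw [Fin.append_left] at h3
      exact h3
    · refine h _ (fun i => hτ _) fun u hu => ?_
      have h2 := hb (Fin.append 0 u) (by
        intro i
        obtain ⟨i, rfl⟩ := finSumFinEquiv.surjective i
        rw [hsum, Fintype.sum_sum_type]
        rcases i with i | i
        · have e1 : ∑ j : Fin 2, (fromBlocks gold 0 0 A) (Sum.inl i) (Sum.inl j) *
              ((Fin.append (0 : Fin 2 → ℤ) u (finSumFinEquiv (Sum.inl j)) : ℤ) : ℝ) +
              ∑ j : Fin d, (fromBlocks gold 0 0 A) (Sum.inl i) (Sum.inr j) *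
              ((Fin.append (0 : Fin 2 → ℤ) u (finSumFinEquiv (Sum.inr j)) : ℤ) : ℝ) = 0 := by
            simp
          rw [e1, abs_zero]
          exact (hτ _).le
        · have e1 : ∑ j : Fin 2, (fromBlocks gold 0 0 A) (Sum.inr i) (Sum.inl j) *
              ((Fin.append (0 : Fin 2 → ℤ) u (finSumFinEquiv (Sum.inl j)) : ℤ) : ℝ) +
              ∑ j : Fin d, (fromBlocks gold 0 0 A) (Sum.inr i) (Sum.inr j) *
              ((Fin.append (0 : Fin 2 → ℤ) u (finSumFinEquiv (Sum.inr j)) : ℤ) : ℝ) =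
              ∑ j, A i j * (u j : ℝ) := by
            simp
          rw [e1]
          exact hu i)
      funext i
      have h3 := congrFun h2 (Fin.natAdd 2 i)
      rw [Fin.append_right] at h3
      exact h3

theorem exists_bd : ∀ m : ℕ,
    (∃ A : Matrix (Fin (2 * m)) (Fin (2 * m)) ℝ, A.det = 1 ∧ Bd A ((181 / 250) ^ m)) ∧
    (∃ A : Matrix (Fin (2 * m + 1)) (Fin (2 * m + 1)) ℝ, A.det = 1 ∧ Bd A ((181 / 250) ^ m)) := by
  intro m
  induction m with
  | zero =>
    constructor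
    · exact ⟨1, Matrix.det_one, by rw [pow_zero]; exact bd_zero⟩
    · exact ⟨1, Matrix.det_one, by rw [pow_zero]; exact bd_one⟩
  | succ m ih =>
    obtain ⟨⟨A, hA, hb⟩, ⟨B, hB, hc⟩⟩ := ih
    constructor
    · obtain ⟨A', hA', hb'⟩ := bd_step hb hA
      have e : 2 + 2 * m = 2 * (m + 1) := by ring
      rw [← e, pow_succ']
      exact ⟨A', hA', hb'⟩
    · obtain ⟨A', hA', hb'⟩ := bd_step hc hB
      have e : 2 + (2 * m + 1) = 2 * (m + 1) + 1 := by ring
      rw [← e, pow_succ']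
      exact ⟨A', hA', hb'⟩

theorem adm_of_bd {d : ℕ} {A : Matrix (Fin d) (Fin d) ℝ} {q : ℝ} (hA : A.det = 1) (h : Bd A q)
    {κ : ℝ} (hκ : IsAdmissible d κ) : κ ≤ q := by
  obtain ⟨τ, hτ, hp, hb⟩ := hκ.2 A hA
  rw [← hp]
  exact h τ hτ hb

end UppAux

open UppAux

/-- An exponential upper bound for the admissible constants. -/
theorem adm_upper {d : ℕ} (hd : 2 ≤ d) {κ : ℝ} (h : IsAdmissible d κ) : κ ≤ (9 / 10) ^ d := by
  obtain ⟨m, hm⟩ : ∃ m, d = 2 * m ∨ d = 2 * m + 1 := ⟨d / 2, by omega⟩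
  obtain ⟨⟨A, hA, hb⟩, ⟨B, hB, hc⟩⟩ := exists_bd m
  rcases hm with rfl | rfl
  · refine (adm_of_bd hA hb h).trans ?_
    rw [pow_mul]
    exact pow_le_pow_left₀ (by norm_num) (by norm_num) m
  · refine (adm_of_bd hB hc h).trans ?_
    obtain ⟨k, rfl⟩ : ∃ k, m = k + 1 := ⟨m - 1, by omega⟩
    have h1 : ((9 : ℝ) / 10) ^ (2 * (k + 1) + 1) = ((9 / 10) ^ 2) ^ k * (9 / 10) ^ 3 := by
      rw [← pow_mul, ← pow_add]
      congr 1
    rw [h1, pow_succ]
    have h2 : ((181 : ℝ) / 250) ^ k ≤ ((9 / 10) ^ 2) ^ k :=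
      pow_le_pow_left₀ (by norm_num) (by norm_num) k
    have h3 : (0 : ℝ) ≤ ((9 / 10) ^ 2) ^ k := pow_nonneg (by norm_num) k
    exact mul_le_mul h2 (by norm_num) (by norm_num) h3

end Pool.Agent.Lib.MP_ddd95a_nt.Mord
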